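import Pool.Agent.RelV.MEAS
import Pool.Agent.RelV.DENT
import Pool.Agent.RelT.ACC

/-!
# Locality and certificates of acceptance
-/

set_option autoImplicit false

namespace Pool.Agent.RelV

open MeasureTheory Set
open scoped ENNReal
open Pool.Agent.RelM (Lang Instr Cfg run Halts pair triple str pre hq wq sq0 sq1 Asks qb)
open Pool.Agent.RelO (lev st)
open Pool.Agent.RelS (Z Rl orcV orc acc Idx Om Dep mixP gf PF Low Cert Upw orcV_imp Rl_congr
  lev_lt_sq1 lev_le_wq oloc mixP_pos mixP_neg wt up_diff low_not_upw PF_nonneg PF_le_one)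
open Pool.Agent.RelM.HFIX_ (qb_bound)
open Pool.Agent.RelT (Par Hist md md_pos md_spec ix ix_str qf seto ask_len acc_loc acc_congr
  str_len_le qb_mono pi_real)

theorem Wd_lt {Φ : Par2} {j t : ℕ} (h : t ∈ Wd Φ j) : t < 2 ^ (nn Φ j + j) :=
  (Finset.mem_Ico.1 h).2

theorem qb_small {Φ : Par2} {j t : ℕ} (h : t ∈ Wd Φ j) :
    qb (mN j) (str t).length < nn Φ (j + 1) ∧ qb (mN j) (str t).length < 2 ^ nn Φ j ∧
    2 * (qb (mN j) (str t).length : ℝ) * Bd Φ ≤ md j * 2 ^ nn Φ j := by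
  have h1 := qb_mono (mN j) (str_len_le (Wd_lt h))
  have h2 := nnq Φ j (nn Φ j) le_rfl
  have h3 := nnmd Φ j (nn Φ j) le_rfl
  refine ⟨h1.trans_lt (nnnext Φ j), by omega, le_trans ?_ h3⟩
  have h4 : (qb (mN j) (str t).length : ℝ) ≤ qb (mN j) (nn Φ j + j) := by exact_mod_cast h1
  gcongr

theorem accl : T_ACC := by
  intro Φ j t h h' ω ω' ht ho hK hh hw
  obtain ⟨q1, q2, -⟩ := qb_small ht
  unfold ans oh orc
  refine acc_congr fun q hq => ?_
  refine oloc _ _ _ _ _ (qb (mN j) (str t).length) ?_ ?_ q hq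
  · intro κ x y h1 h2
    have h4 : jj Φ (lev κ x) ≤ j + 1 := jj_lt_le (by omega)
    unfold zz
    rw [← oc_congr (ho _ h4)]
    exact hw _ ⟨by show lev κ x < _; omega, h2, (ocspec Φ h.1 κ (lev κ x) x hK).1⟩
  · intro u hu
    refine bloc Φ _ _ u fun j' hj' => hh j' ?_
    by_contra h5
    have h6 : 2 ^ nn Φ j ≤ 2 ^ nn Φ j' :=
      Nat.pow_le_pow_right (by norm_num) ((nnmono Φ).monotone (by omega))
    omega

/-- The machine for `E` has little time. -/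
theorem time_M {Φ : Par2} {j t : ℕ} (ht : t ∈ Wd Φ j) :
    (str t).length + 2 ^ ((mM j).2 * ((str t).length + 1)) < 2 ^ nu j (nn Φ j) := by
  have h1 := str_len_le (Wd_lt ht)
  obtain ⟨c, hc⟩ : ∃ c, c = (mM j).2 := ⟨_, rfl⟩
  obtain ⟨n, hn⟩ : ∃ n, n = nn Φ j + j + 1 := ⟨_, rfl⟩
  have h2 : nu j (nn Φ j) = 2 * (c + 2) * n := by
    unfold nu
    rw [hc, hn]
  rw [h2, ← hc]
  have h3 : (str t).length < n := by omega
  have h4 : n < 2 ^ n := Nat.lt_two_pow_self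
  have h5 : 2 ^ (c * ((str t).length + 1)) ≤ 2 ^ (c * n) :=
    Nat.pow_le_pow_right (by norm_num) (Nat.mul_le_mul_left _ (by omega))
  have h6 : 2 ^ n ≤ 2 ^ (c * n + n) := Nat.pow_le_pow_right (by norm_num) (by omega)
  have h7 : 2 ^ (c * n) ≤ 2 ^ (c * n + n) := Nat.pow_le_pow_right (by norm_num) (by omega)
  have h8 : 2 ^ (c * n + n + 1) ≤ 2 ^ (2 * (c + 2) * n) := by
    refine Nat.pow_le_pow_right (by norm_num) ?_
    have : 2 * (c + 2) * n = c * n + n + (c * n + 3 * n) := by ring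
    omega
  rw [pow_succ] at h8
  omega

theorem accm : T_ACCM := by
  intro Φ j t h h' ω ω' ht ho hK hh hw
  obtain ⟨-, n2, -⟩ := nuspec Φ j
  have hT := time_M ht
  unfold ansM
  rw [Pool.Agent.RelM.loc (ovM Φ j h' ω') (ovM Φ j h ω) (mM j).1 (str t)
    (2 ^ ((mM j).2 * ((str t).length + 1))) (fun s hs q hq => ?_) _ le_rfl]
  have hl : q.length < 2 ^ nu j (nn Φ j) := by
    have := Pool.Agent.RelM.len _ _ _ _ _ hq
    omega
  have key : ∀ (h h' : Hist) (ω ω' : Om), (∀ i, i ≤ j + 1 → h.1 i = h'.1 i) →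
      (∀ κ x, lev κ x < nu j (nn Φ j) → oc Φ h.1 κ (lev κ x) < KK Φ) →
      (∀ i, i ≤ j → h.2 i = h'.2 i) → (∀ a ∈ Lw Φ (nu j (nn Φ j)), ω a = ω' a) →
      ovM Φ j h ω q = true → ovM Φ j h' ω' q = true := by
    intro h h' ω ω' ho hK hh hw
    have hz : ∀ κ x y, lev κ x < nu j (nn Φ j) → y.length = lev κ x →
        zz Φ h.1 ω κ x y = zz Φ h'.1 ω' κ x y := by
      intro κ x y h1 h2
      have h4 : jj Φ (lev κ x) ≤ j + 1 := jj_lt_le (by omega)
      unfold zz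
      rw [← oc_congr (ho _ h4)]
      exact hw _ ⟨h1, h2, hK κ x h1⟩
    refine orcV_imp ?_ ?_ ?_
    · intro κ x y h1 h2 h3 h4
      exact ⟨h1, by rw [← hz κ x y h1 h2]; exact h4⟩
    · intro κ x k h1 h2 h3 h4
      refine ⟨h1, ?_⟩
      rw [← h4]
      exact Rl_congr fun y hy => (hz κ x y h1 hy).symm
    · intro u hu h4
      rw [← bloc Φ h.2 h'.2 u fun j' hj' => hh j' ?_]
      · exact h4
      · by_contra h5
        have h6 : 2 ^ nn Φ (j + 1) ≤ 2 ^ nn Φ j' :=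
          Nat.pow_le_pow_right (by norm_num) ((nnmono Φ).monotone (by omega))
        have h7 : 2 ^ nu j (nn Φ j) ≤ 2 ^ nn Φ (j + 1) :=
          Nat.pow_le_pow_right (by norm_num) n2.le
        have h8 : q.length = u.length + 2 := by rw [hu]; rfl
        omega
  have hK1 : ∀ κ x, lev κ x < nu j (nn Φ j) → oc Φ h.1 κ (lev κ x) < KK Φ := fun κ x _ =>
    (ocspec Φ h.1 κ (lev κ x) x hK).1
  have hK2 : ∀ κ x, lev κ x < nu j (nn Φ j) → oc Φ h'.1 κ (lev κ x) < KK Φ := fun κ x h1 => by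
    rw [← oc_congr (ho _ (jj_lt_le (by omega)))]
    exact hK1 κ x h1
  rw [Bool.eq_iff_iff]
  exact ⟨key h' h ω' ω (fun i hi => (ho i hi).symm) hK2 (fun i hi => (hh i hi).symm)
    (fun a ha => (hw a ha).symm), key h h' ω ω' ho hK1 hh hw⟩

/-! ## The new coins -/

/-- The families whose coins depend on the option of stage `j`. -/
def Sp (Φ : Par2) (j κ : ℕ) : Prop := ty Φ j = true ∨ κ % 2 = 1

/-- The new coins of stage `j`, without the option. -/
abbrev DD (Φ : Par2) (j : ℕ) : Type :=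
  {d : ℕ × List Bool × List Bool // nn Φ j ≤ lev d.1 d.2.1 ∧ lev d.1 d.2.1 < nn Φ (j + 1) ∧
    d.2.2.length = lev d.1 d.2.1 ∧ Sp Φ j d.1}

instance (Φ : Par2) (j : ℕ) : Finite (DD Φ j) := by
  obtain ⟨b, hb⟩ : ∃ b, b = nn Φ (j + 1) := ⟨_, rfl⟩
  have h1 : (Set.Iic b ×ˢ ({x : List Bool | x.length ≤ b} ×ˢ
      {y : List Bool | y.length ≤ b}) : Set (ℕ × List Bool × List Bool)).Finite :=
    (Set.finite_Iic _).prod ((List.finite_length_le Bool _).prod (List.finite_length_le Bool _))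
  refine (h1.subset ?_).to_subtype
  rintro ⟨κ, x, y⟩ ⟨-, h3, h4, -⟩
  have h3' : lev κ x < b := by rw [hb]; exact h3
  have h4' : y.length = lev κ x := h4
  obtain ⟨h5, h6⟩ := Pool.Agent.RelO.levfin κ x b h3'.le
  refine ⟨h5, h6, ?_⟩
  show y.length ≤ b
  omega

noncomputable instance (Φ : Par2) (j : ℕ) : Fintype (DD Φ j) := Fintype.ofFinite _

open Classical in
/-- The world `z0` with the new keys `z`. -/
noncomputable def WW (Φ : Par2) (j : ℕ) (z0 : Z) (z : DD Φ j → Bool) : Z := fun κ x y =>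
  if h : nn Φ j ≤ lev κ x ∧ lev κ x < nn Φ (j + 1) ∧ y.length = lev κ x ∧ Sp Φ j κ then
    z ⟨(κ, x, y), h⟩ else z0 κ x y

lemma WW_lt {Φ : Par2} {j : ℕ} {z0 : Z} {z : DD Φ j → Bool} {κ : ℕ} {x y : List Bool}
    (h : lev κ x < nn Φ j) : WW Φ j z0 z κ x y = z0 κ x y := by
  unfold WW
  rw [dif_neg fun h' => by omega]

lemma WW_mid {Φ : Par2} {j : ℕ} {z0 : Z} {z : DD Φ j → Bool} (d : DD Φ j) :
    WW Φ j z0 z d.1.1 d.1.2.1 d.1.2.2 = z d := by
  unfold WW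
  rw [dif_pos d.2]

/-- The words asked determine the answers. -/
theorem orc_eq {Φ : Par2} {j : ℕ} {G : Lang} {z0 : Z} {z z' : DD Φ j → Bool} {q : List Bool}
    (hq : q.length < 2 ^ nn Φ j) (h : ∀ d : DD Φ j, q = wq d.1.1 d.1.2.1 d.1.2.2 → z' d = z d)
    (hT : orc G (WW Φ j z0 z) q = true) : orc G (WW Φ j z0 z') q = true := by
  unfold orc at hT ⊢
  refine orcV_imp ?_ ?_ ?_ hT
  · intro κ x y _ h2 h3 h4
    refine ⟨trivial, ?_⟩
    unfold WW at h4 ⊢
    by_cases h6 : nn Φ j ≤ lev κ x ∧ lev κ x < nn Φ (j + 1) ∧ y.length = lev κ x ∧ Sp Φ j κ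
    · rw [dif_pos h6] at h4 ⊢
      rw [h ⟨(κ, x, y), h6⟩ h3]
      exact h4
    · rw [dif_neg h6] at h4 ⊢
      exact h4
  · intro κ x m _ h2 h3 h4
    refine ⟨trivial, ?_⟩
    have h5 := lev_lt_sq1 h3
    rw [← h2] at h5
    have h6 : lev κ x < nn Φ j := by
      have h7 : 2 ^ lev κ x < 2 ^ nn Φ j := h5.trans_lt hq
      exact (Nat.pow_lt_pow_iff_right (by norm_num)).1 h7
    rw [← h4]
    refine Rl_congr fun y _ => ?_
    rw [WW_lt h6, WW_lt h6]
  · intro u _ h4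
    exact h4

/-- Acceptance in the world with new keys. -/
def gg (Φ : Par2) (j : ℕ) (G : Lang) (z0 : Z) (v : List Instr × ℕ × ℕ) (x : List Bool)
    (z : DD Φ j → Bool) : Prop := acc (orc G (WW Φ j z0 z)) v x

/-- Acceptance has certificates. -/
theorem cert (Φ : Par2) (j : ℕ) (G : Lang) (z0 : Z) (v : List Instr × ℕ × ℕ) (x : List Bool)
    (h : qb v x.length < 2 ^ nn Φ j) : Cert (gg Φ j G z0 v x) (qb v x.length) := by
  classical
  intro z hz
  obtain ⟨y, hy, hr⟩ := hz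
  refine ⟨Finset.univ.filter fun d => ∃ s < (x.length + 2) ^ v.2.2,
      Asks (orc G (WW Φ j z0 z)) v.1 (pair x y) s (wq d.1.1 d.1.2.1 d.1.2.2), ?_, ?_⟩
  · have h2 : ∀ d ∈ (Finset.univ.filter fun d : DD Φ j => ∃ s < (x.length + 2) ^ v.2.2,
        Asks (orc G (WW Φ j z0 z)) v.1 (pair x y) s (wq d.1.1 d.1.2.1 d.1.2.2)),
        ∃ s ∈ Finset.range ((x.length + 2) ^ v.2.2),
        Asks (orc G (WW Φ j z0 z)) v.1 (pair x y) s (wq d.1.1 d.1.2.1 d.1.2.2) := by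
      intro d hd
      obtain ⟨s, h3, h4⟩ := (Finset.mem_filter.1 hd).2
      exact ⟨s, Finset.mem_range.2 h3, h4⟩
    have h5 := Finset.card_le_card_of_forall_subsingleton
      (fun (d : DD Φ j) (s : ℕ) =>
        Asks (orc G (WW Φ j z0 z)) v.1 (pair x y) s (wq d.1.1 d.1.2.1 d.1.2.2)) h2 ?_
    · rw [Finset.card_range] at h5
      have := qb_bound v x.length
      omega
    · intro s _ d1 hd1 d2 hd2
      have h6 := Pool.Agent.RelM.one _ _ _ _ _ _ hd1.2 hd2.2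
      obtain ⟨e1, e2, e3⟩ := Pool.Agent.RelM.wq_inj h6
      exact Subtype.ext (Prod.ext e1 (Prod.ext e2 e3))
  · intro z' hC
    refine ⟨y, hy, ?_⟩
    rw [Pool.Agent.RelM.loc (orc G (WW Φ j z0 z)) (orc G (WW Φ j z0 z')) v.1
      (pair x y) ((x.length + 2) ^ v.2.2) (fun s hs q hq => ?_) _ le_rfl]
    · exact hr
    · have hl := ask_len hy hs hq
      have hd : ∀ d : DD Φ j, q = wq d.1.1 d.1.2.1 d.1.2.2 → z' d = z d := by
        intro d hd
        refine hC d ?_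
        rw [Finset.mem_filter]
        exact ⟨Finset.mem_univ _, s, hs, by rw [← hd]; exact hq⟩
      rw [Bool.eq_iff_iff]
      exact ⟨orc_eq (by omega) hd, orc_eq (by omega) fun d h => (hd d h).symm⟩

/-! ## The mean entropy of an answer -/

/-- The coin option of the new coins with the option `i`. -/
noncomputable def ci (Φ : Par2) (j i : ℕ) : ℕ := if ty Φ j = true then 2 * i + 2 else 2 * i + 1

theorem it_ci (Φ : Par2) (j κ i : ℕ) (x : List Bool) :
    it Φ κ x (ci Φ j i) = (Pt Φ j).lam i * (Pt Φ j).mul κ (ix x % (Pt Φ j).dm κ) := by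
  unfold it ci Pt
  by_cases h : ty Φ j = true
  · rw [if_pos h, if_pos h, if_neg (by omega), if_neg (by omega),
      show (2 * i + 2 - 2) / 2 = i by omega]
  · rw [if_neg h, if_neg h, if_neg (by omega), if_pos (by omega),
      show (2 * i + 1 - 1) / 2 = i by omega]

/-- The coins of the option `i`. -/
noncomputable def iot (Φ : Par2) (j i : ℕ) (d : DD Φ j) : Idx :=
  (d.1.1, d.1.2.1, d.1.2.2, ci Φ j i)

theorem iot_inj (Φ : Par2) (j i : ℕ) : Function.Injective (iot Φ j i) := by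
  rintro ⟨⟨κ, x, y⟩, hd⟩ ⟨⟨κ', x', y'⟩, hd'⟩ h
  simp only [iot, Prod.mk.injEq] at h
  obtain ⟨h1, h2, h3, -⟩ := h
  subst h1; subst h2; subst h3
  rfl

/-- Acceptance of the word number `t` at stage `j` as a function of the new coins. -/
def ga (Φ : Par2) (j : ℕ) (h : Hist) (ω : Om) (t : ℕ) (z : DD Φ j → Bool) : Prop :=
  gg Φ j (bitsOf Φ h.2) (zz Φ h.1 ω) (mN j) (str t) z

theorem oc_mid {Φ : Par2} {j κ m i : ℕ} {o : ℕ → ℕ} (hm : jj Φ m = j + 1) (hS : Sp Φ j κ) :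
    oc Φ (Function.update o (j + 1) i) κ m = ci Φ j i := by
  unfold oc ci
  rw [hm, if_neg (by omega), Function.update_self, show j + 1 - 1 = j by omega]
  by_cases h : ty Φ j = true
  · rw [if_pos h, if_pos h]
  · rw [if_neg h, if_neg h, if_pos (hS.resolve_left h)]

theorem oc_off {Φ : Par2} {j κ m : ℕ} {o : ℕ → ℕ} (hm : jj Φ m = j + 1) (hS : ¬ Sp Φ j κ) :
    oc Φ o κ m = 0 := by
  unfold Sp at hS
  push Not at hS
  unfold oc
  rw [hm, if_neg (by omega), show j + 1 - 1 = j by omega, if_neg hS.1, if_neg hS.2]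

theorem ans_iff {Φ : Par2} {j : ℕ} {h : Hist} (hK : Gd Φ h.1) {ω τ : Om}
    {t i : ℕ} (ht : t ∈ Wd Φ j) :
    ans Φ j (seto h j i) (mixP (Old Φ j ∪ (Sc Φ j)ᶜ) ω τ) t ↔
      ga Φ j h ω t fun d => τ (iot Φ j i d) := by
  unfold ans ga gg oh orc
  refine acc_congr fun q hq => ?_
  refine oloc _ _ _ _ _ (qb (mN j) (str t).length) ?_ (fun u _ => rfl) q hq
  intro κ x y h1 h2
  have h3 := (qb_small ht).1
  by_cases h4 : lev κ x < nn Φ j
  · rw [WW_lt h4]
    unfold zz seto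
    simp only
    have h5 := jj_lt_le h4
    have h6 : oc Φ (Function.update h.1 (j + 1) i) κ (lev κ x) = oc Φ h.1 κ (lev κ x) :=
      oc_congr (Function.update_of_ne (by omega) _ _)
    rw [h6]
    exact mixP_pos (Or.inl ⟨h4, h2, (ocspec Φ h.1 κ (lev κ x) x hK).1⟩)
  · have h5 : jj Φ (lev κ x) = j + 1 := jj_eq (by omega) (by omega)
    by_cases hS : Sp Φ j κ
    · have hd : nn Φ j ≤ lev κ x ∧ lev κ x < nn Φ (j + 1) ∧ y.length = lev κ x ∧ Sp Φ j κ :=
        ⟨by omega, by omega, h2, hS⟩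
      have h6 := WW_mid (z0 := zz Φ h.1 ω) (z := fun d => τ (iot Φ j i d)) ⟨(κ, x, y), hd⟩
      rw [h6]
      unfold zz seto
      simp only
      rw [oc_mid h5 hS]
      refine mixP_neg ?_
      rintro (h7 | h7)
      · exact h4 h7.1
      · exact h7 hS
    · have h6 : WW Φ j (zz Φ h.1 ω) (fun d => τ (iot Φ j i d)) κ x y = zz Φ h.1 ω κ x y := by
        unfold WW
        rw [dif_neg fun h' => hS h'.2.2.2]
      rw [h6]
      unfold zz seto
      simp only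
      rw [oc_off h5 hS, oc_off h5 hS]
      exact mixP_pos (Or.inr fun h7 => hS h7)

theorem pa_eq {Φ : Par2} {j : ℕ} {h : Hist} (hK : Gd Φ h.1) {ω : Om}
    {t i : ℕ} (ht : t ∈ Wd Φ j) :
    (coin Φ).real {τ | ans Φ j (seto h j i) (mixP (Old Φ j ∪ (Sc Φ j)ᶜ) ω τ) t} =
      PF (fun d => sv Φ (iot Φ j i d)) {z | ga Φ j h ω t z} := by
  rw [← pi_real (fun d => (sv_pos Φ _).le) (fun d => sv_le_one Φ _)]
  simp only [ans_iff hK ht]
  have h1 := coin_map Φ (iot Φ j i) (iot_inj _ _ i)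
  rw [← h1, Measure.real, Measure.real, Measure.map_apply
    (measurable_pi_lambda _ fun d => measurable_pi_apply _) MeasurableSet.of_discrete]
  rfl

theorem Bd_ge (Φ : Par2) (j : ℕ) : (Pt Φ j).B ≤ Bd Φ := by
  unfold Pt Bd
  split_ifs
  · exact (le_max_right _ _).trans (le_max_left _ _)
  · exact (le_max_left _ _).trans (le_max_left _ _)

/-- The probability of a new coin to be `true`. -/
theorem sv_eps {Φ : Par2} {j i : ℕ} (hi : i < (Pt Φ j).K) (d : DD Φ j) :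
    1 - sv Φ (iot Φ j i d) ≤ Bd Φ / 2 ^ nn Φ j := by
  have h1 : ex Φ (iot Φ j i d) ≤ Bd Φ / 2 ^ nn Φ j := by
    unfold ex iot
    simp only
    rw [it_ci]
    have h2 := (Pt Φ j).bd i d.1.1 (ix d.1.2.1 % (Pt Φ j).dm d.1.1) hi
    have h3 : ((Pt Φ j).B : ℝ) ≤ Bd Φ := by exact_mod_cast Bd_ge Φ j
    have h4 : (2 : ℝ) ^ nn Φ j ≤ 2 ^ lev d.1.1 d.1.2.1 :=
      pow_le_pow_right₀ (by norm_num) d.2.1
    have h5 := h2.trans h3
    gcongr
  refine le_trans ?_ h1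
  unfold sv
  generalize ex Φ (iot Φ j i d) = e
  have h6 := Real.add_one_le_exp (-e)
  linarith

theorem uni : T_UNI := by
  intro Φ j t h ω ht hK
  obtain ⟨A, hA⟩ : ∃ A : Set (DD Φ j → Bool), A = {z | ¬ Upw (ga Φ j h ω t) z} := ⟨_, rfl⟩
  obtain ⟨e, he⟩ : ∃ e : DD Φ j → ℝ,
      ∀ d, e d = (Pt Φ j).mul d.1.1 (ix d.1.2.1 % (Pt Φ j).dm d.1.1) / 2 ^ lev d.1.1 d.1.2.1 :=
    ⟨_, fun _ => rfl⟩
  have he0 : ∀ d, 0 ≤ e d := by
    intro d
    rw [he]
    have := (Pt Φ j).mul0 d.1.1 (ix d.1.2.1 % (Pt Φ j).dm d.1.1)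
    positivity
  have hsv : ∀ i, (fun d => sv Φ (iot Φ j i d)) =
      fun d => Real.exp (-((Pt Φ j).lam i * e d)) := by
    intro i
    funext d
    unfold sv ex iot
    simp only
    rw [he, it_ci, mul_div_assoc]
  have hcov := (Pt Φ j).cov (DD Φ j) inferInstance e A he0 (by
    rw [hA]
    exact low_not_upw _)
  obtain ⟨q1, q2, q3⟩ := qb_small ht
  have hC := cert Φ j (bitsOf Φ h.2) (zz Φ h.1 ω) (mN j) (str t) q2
  have hB : (Bd Φ : ℝ) / 2 ^ nn Φ j ≤ 1 / 2 := by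
    have h1 := nnb Φ j
    have h2 : Bd Φ < 2 ^ Bd Φ := Nat.lt_two_pow_self
    have h3 : 2 ^ (Bd Φ + 1) ≤ 2 ^ nn Φ j := Nat.pow_le_pow_right (by norm_num) (by omega)
    have h4 : 2 * Bd Φ ≤ 2 ^ nn Φ j := by
      rw [pow_succ] at h3
      omega
    have h5 : 2 * (Bd Φ : ℝ) ≤ 2 ^ nn Φ j := by exact_mod_cast h4
    rw [div_le_iff₀ (by positivity)]
    linarith
  have hH : ∀ i ∈ Finset.range (Pt Φ j).K, (Pt Φ j).pv i * Real.binEntropy
      ((coin Φ).real {τ | ans Φ j (seto h j i) (mixP (Old Φ j ∪ (Sc Φ j)ᶜ) ω τ) t}) ≤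
      (Pt Φ j).pv i * Real.binEntropy (PF (fun d => Real.exp (-((Pt Φ j).lam i * e d))) A) +
        (Pt Φ j).pv i * (1 / ((j : ℝ) + 1)) := by
    intro i hi
    rw [Finset.mem_range] at hi
    have hd := up_diff (q := fun d => sv Φ (iot Φ j i d))
      (fun d => by linarith [sv_eps hi d]) (fun d => sv_le_one Φ _) (fun d => sv_eps hi d)
      (by positivity) hC
    obtain ⟨p, hp⟩ : ∃ p, p = (coin Φ).real {τ | ans Φ j (seto h j i)
      (mixP (Old Φ j ∪ (Sc Φ j)ᶜ) ω τ) t} := ⟨_, rfl⟩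
    have hp0 : 0 ≤ p := by rw [hp]; exact measureReal_nonneg
    have hp1 : p ≤ 1 := by rw [hp]; exact measureReal_le_one
    have hq0 := PF_nonneg (q := fun d => sv Φ (iot Φ j i d))
      (fun d => (sv_pos Φ _).le) (fun d => sv_le_one Φ _) A
    have hq1 := PF_le_one (q := fun d => sv Φ (iot Φ j i d))
      (fun d => (sv_pos Φ _).le) (fun d => sv_le_one Φ _) A
    have hd' : |p - (1 - PF (fun d => sv Φ (iot Φ j i d)) A)| ≤ md j := by
      rw [hp, pa_eq hK ht, hA]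
      refine hd.trans ?_
      rw [← mul_div_assoc, div_le_iff₀ (by positivity)]
      exact q3
    have h2 := md_spec j (p := p)
      (q := 1 - PF (fun d => sv Φ (iot Φ j i d)) A)
      ⟨hp0, hp1⟩ ⟨by linarith, by linarith⟩ hd'
    rw [Real.binEntropy_one_sub] at h2
    rw [← mul_add, ← hsv, ← hp]
    refine mul_le_mul_of_nonneg_left ?_ ((Pt Φ j).pv0 i)
    linarith [(abs_le.1 h2).2]
  refine (Finset.sum_le_sum hH).trans ?_
  rw [Finset.sum_add_distrib, ← Finset.sum_mul, (Pt Φ j).pv1, one_mul]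
  linarith

end Pool.Agent.RelV
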