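import Pool.Agent.RelS.MEAS

/-!
# Infinitely many stages succeed
-/

set_option autoImplicit false

namespace Pool.Agent.RelV

open MeasureTheory Set
open scoped ENNReal
open Pool.Agent.RelS (Idx Om Dep fd)

/-- If each stage fails with a probability less than `ρ < 1` given the older coins, then almost
surely infinitely many stages succeed. -/
theorem bcv (μ : Measure Om) [IsProbabilityMeasure μ] (Old : ℕ → Set Idx)
    (hfin : ∀ j, (Old j).Finite) (hmono : ∀ i j, i ≤ j → Old i ⊆ Old j) (u : ℕ → ℕ)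
    (hu : StrictMono u) (F : ℕ → Set Om)
    (hF : ∀ m, ∀ ω ω' : Om, (∀ a ∈ Old (u m + 1), ω a = ω' a) → (ω ∈ F m ↔ ω' ∈ F m))
    (ρ : ℝ) (hρ1 : ρ < 1)
    (hρ : ∀ (m : ℕ) (H : Om → ℝ≥0∞), Measurable H → Dep (Old (u m)) H →
      ∫⁻ ω in F m, H ω ∂μ ≤ ENNReal.ofReal ρ * ∫⁻ ω, H ω ∂μ) :
    ∀ᵐ ω ∂μ, ∀ n : ℕ, ∃ m, n ≤ m ∧ ω ∉ F m := by
  refine ae_all_iff.2 fun n => ?_
  obtain ⟨A, hA⟩ : ∃ A : ℕ → Set Om, ∀ m, A m = {ω | ∀ i < m, ω ∈ F (n + i)} :=
    ⟨_, fun _ => rfl⟩
  have hd : ∀ m, ∀ ω ω' : Om, (∀ a ∈ Old (u (n + m)), ω a = ω' a) →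
      (ω ∈ A m ↔ ω' ∈ A m) := by
    intro m ω ω' h
    rw [hA]
    simp only [Set.mem_ofPred_eq]
    refine forall_congr' fun i => forall_congr' fun hi => ?_
    refine hF _ _ _ fun a ha => h a (hmono _ _ ?_ ha)
    exact hu (show n + i < n + m by omega)
  have hAm : ∀ m, MeasurableSet (A m) := fun m => fd (hfin _) (hd m)
  have hp : ∀ m, μ (A m) ≤ ENNReal.ofReal ρ ^ m := by
    intro m
    induction m with
    | zero => simpa using prob_le_one
    | succ m ih =>
      have h1 : A (m + 1) = A m ∩ F (n + m) := by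
        rw [hA, hA]
        ext ω
        simp only [Set.mem_ofPred_eq, Set.mem_inter_iff]
        constructor
        · intro h
          exact ⟨fun i hi => h i (by omega), h m (by omega)⟩
        · rintro ⟨h2, h3⟩ i hi
          rcases Nat.lt_succ_iff_lt_or_eq.1 hi with h4 | h4
          · exact h2 i h4
          · rw [h4]; exact h3
      have h2 := hρ (n + m) ((A m).indicator 1) (measurable_one.indicator (hAm m)) (by
          intro ω ω' h
          have h3 := hd m ω ω' h
          by_cases h4 : ω ∈ A m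
          · rw [indicator_of_mem h4, indicator_of_mem (h3.1 h4)]
            rfl
          · rw [indicator_of_notMem h4, indicator_of_notMem fun h5 => h4 (h3.2 h5)])
      rw [lintegral_indicator_one (hAm m), lintegral_indicator_one (hAm m),
        Measure.restrict_apply (hAm m)] at h2
      rw [h1, pow_succ']
      exact h2.trans (by gcongr)
  rw [ae_iff]
  have h3 : {ω | ¬ ∃ m, n ≤ m ∧ ω ∉ F m} ⊆ ⋂ m, A m := by
    intro ω hω
    rw [Set.mem_ofPred_eq] at hω
    push Not at hω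
    rw [Set.mem_iInter]
    intro m
    rw [hA]
    intro i _
    exact hω (n + i) (by omega)
  have h4 : ∀ m, μ {ω | ¬ ∃ m, n ≤ m ∧ ω ∉ F m} ≤ ENNReal.ofReal ρ ^ m := fun m =>
    (measure_mono (h3.trans (Set.iInter_subset _ m))).trans (hp m)
  have h5 : Filter.Tendsto (fun m : ℕ => ENNReal.ofReal ρ ^ m) Filter.atTop (nhds 0) :=
    ENNReal.tendsto_pow_atTop_nhds_zero_of_lt_one (by
      rw [ENNReal.ofReal_lt_one]
      exact hρ1)
  exact le_antisymm (ge_of_tendsto' h5 h4) zero_le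

end Pool.Agent.RelV
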