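import Pool.Agent.RelS.SHIFT

/-!
# The sequences of the members with even and with odd numbers
-/

set_option autoImplicit false

namespace Pool.Agent.RelV

open Pool.Agent.RelM (Lang Instr Cfg step run Halts Approx triple outVal run_zero run_succ stay
  halts_mono)
open Pool.Agent.RelS.SHIFT_ (sh cs)

namespace DOUB_

/-- The program that doubles the number of ones at the beginning of stack `0` (and adds one more
if `b` is `true`). -/
def Q (b : Bool) : List Instr :=
  [Instr.pop 0 4 1 4, Instr.push 1 true, Instr.push 1 true, Instr.pop 2 0 0 0,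
    Instr.push 0 false, if b = true then Instr.push 0 true else Instr.pop 2 6 6 6,
    Instr.pop 1 9 7 9, Instr.push 0 true, Instr.pop 2 6 6 6]

/-- The program `P` after this program. -/
def prog (b : Bool) (P : List Instr) : List Instr := Q b ++ P.map (sh 9)

theorem prog_length (b : Bool) (P : List Instr) : (prog b P).length = 9 + P.length := by
  simp [prog, Q]
  omega

theorem prog_ge (b : Bool) (P : List Instr) (i : ℕ) :
    (prog b P)[i + 9]? = P[i]?.map (sh 9) := by
  unfold prog
  rw [List.getElem?_append_right (by simp [Q])]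
  simp [Q]

theorem step_cs (O : Lang) (b : Bool) (P : List Instr) (c : Cfg) :
    step O (prog b P) (cs 9 c) = cs 9 (step O P c) := by
  unfold step cs
  simp only [prog_ge]
  rcases hp : P[c.pc]? with _ | ⟨i, b⟩ | ⟨i, l₀, l₁, l₂⟩ | ⟨i, l₀, l₁⟩
  · rfl
  · simp only [Option.map_some, sh]
  · simp only [Option.map_some, sh]
    rcases hc : c.st i with _ | ⟨b, u⟩
    · rfl
    · cases b <;> rfl
  · simp only [Option.map_some, sh]
    cases O (c.st i) <;> rfl

/-- Two stacks. -/
def F (s t : List Bool) : ℕ → List Bool := fun i => if i = 0 then s else if i = 1 then t else []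

theorem upd0 (s t u : List Bool) : Function.update (F s t) 0 u = F u t := by
  funext i
  unfold F
  by_cases h : i = 0
  · subst h; simp
  · rw [Function.update_of_ne h]
    simp [h]

theorem upd1 (s t u : List Bool) : Function.update (F s t) 1 u = F s u := by
  funext i
  unfold F
  by_cases h : i = 1
  · subst h; simp
  · rw [Function.update_of_ne h]
    simp [h]

theorem start (x : List Bool) : Function.update (fun _ => []) 0 x = F x [] := by
  funext i
  unfold F
  by_cases h : i = 0
  · subst h; simp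
  · rw [Function.update_of_ne h]
    simp [h]

section
variable (O : Lang) (b : Bool) (P : List Instr) (s t : List Bool)

theorem s0t : step O (prog b P) ⟨0, F (true :: s) t⟩ = ⟨1, F s t⟩ := by
  show (⟨1, Function.update (F (true :: s) t) 0 s⟩ : Cfg) = _
  rw [upd0]

theorem s0f : step O (prog b P) ⟨0, F (false :: s) t⟩ = ⟨4, F s t⟩ := by
  show (⟨4, Function.update (F (false :: s) t) 0 s⟩ : Cfg) = _
  rw [upd0]

theorem s1 : step O (prog b P) ⟨1, F s t⟩ = ⟨2, F s (true :: t)⟩ := by
  show (⟨2, Function.update (F s t) 1 (true :: t)⟩ : Cfg) = _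
  rw [upd1]

theorem s2 : step O (prog b P) ⟨2, F s t⟩ = ⟨3, F s (true :: t)⟩ := by
  show (⟨3, Function.update (F s t) 1 (true :: t)⟩ : Cfg) = _
  rw [upd1]

theorem s3 : step O (prog b P) ⟨3, F s t⟩ = ⟨0, F s t⟩ := rfl

theorem s4 : step O (prog b P) ⟨4, F s t⟩ = ⟨5, F (false :: s) t⟩ := by
  show (⟨5, Function.update (F s t) 0 (false :: s)⟩ : Cfg) = _
  rw [upd0]

theorem s5 : step O (prog b P) ⟨5, F s t⟩ = ⟨6, F (List.replicate b.toNat true ++ s) t⟩ := by
  cases b
  · rfl
  · show (⟨6, Function.update (F s t) 0 (true :: s)⟩ : Cfg) = _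
    rw [upd0]
    rfl

theorem s6t : step O (prog b P) ⟨6, F s (true :: t)⟩ = ⟨7, F s t⟩ := by
  show (⟨7, Function.update (F s (true :: t)) 1 t⟩ : Cfg) = _
  rw [upd1]

theorem s6e : step O (prog b P) ⟨6, F s []⟩ = ⟨9, F s []⟩ := rfl

theorem s7 : step O (prog b P) ⟨7, F s t⟩ = ⟨8, F (true :: s) t⟩ := by
  show (⟨8, Function.update (F s t) 0 (true :: s)⟩ : Cfg) = _
  rw [upd0]

theorem s8 : step O (prog b P) ⟨8, F s t⟩ = ⟨6, F s t⟩ := rfl

theorem loop1 (k : ℕ) : (step O (prog b P))^[4 * k + 1] ⟨0, F (List.replicate k true ++ false :: s)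
    t⟩ = ⟨4, F s (List.replicate (2 * k) true ++ t)⟩ := by
  induction k generalizing t with
  | zero => exact s0f O b P s t
  | succ k ih =>
    rw [show 4 * (k + 1) + 1 = (4 * k + 1) + 1 + 1 + 1 + 1 by ring, Function.iterate_succ_apply,
      Function.iterate_succ_apply, Function.iterate_succ_apply, Function.iterate_succ_apply,
      List.replicate_succ, List.cons_append, s0t, s1, s2, s3, ih]
    congr 2
    rw [show 2 * (k + 1) = 2 * k + 1 + 1 by ring, List.replicate_succ', List.replicate_succ',
      List.append_assoc, List.append_assoc]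
    rfl

theorem loop2 (k : ℕ) : (step O (prog b P))^[3 * k + 1] ⟨6, F s (List.replicate k true)⟩ =
    ⟨9, F (List.replicate k true ++ s) []⟩ := by
  induction k generalizing s with
  | zero => exact s6e O b P s
  | succ k ih =>
    rw [show 3 * (k + 1) + 1 = (3 * k + 1) + 1 + 1 + 1 by ring, Function.iterate_succ_apply,
      Function.iterate_succ_apply, Function.iterate_succ_apply, List.replicate_succ, s6t, s7, s8,
      ih]
    congr 2
    rw [show (true :: s) = [true] ++ s from rfl, ← List.append_assoc, ← List.replicate_succ']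
    rfl

theorem first (k r : ℕ) (w : List Bool) :
    run O (prog b P) (triple k r w) (10 * k + 4) =
      ⟨9, F (triple (2 * k + b.toNat) r w) []⟩ := by
  unfold run
  rw [start]
  unfold triple
  have e1 : (step O (prog b P))^[10 * k + 4] ⟨0, F (List.replicate k true ++
      false :: (List.replicate r true ++ false :: w)) []⟩ =
      (step O (prog b P))^[3 * (2 * k) + 1] ((step O (prog b P))^[1] ((step O (prog b P))^[1]
        ((step O (prog b P))^[4 * k + 1] ⟨0, F (List.replicate k true ++
          false :: (List.replicate r true ++ false :: w)) []⟩))) := by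
    rw [← Function.iterate_add_apply _ 1 (4 * k + 1), ← Function.iterate_add_apply _ 1,
      ← Function.iterate_add_apply, show 3 * (2 * k) + 1 + (1 + (1 + (4 * k + 1))) = 10 * k + 4 by
        ring]
  rw [e1, loop1, Function.iterate_one, s4, s5, List.append_nil, loop2]
  congr 2
  rw [List.replicate_add, List.append_assoc]

theorem second (k r : ℕ) (w : List Bool) (n : ℕ) :
    run O (prog b P) (triple k r w) (10 * k + 4 + n) =
      cs 9 (run O P (triple (2 * k + b.toNat) r w) n) := by
  induction n with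
  | zero =>
    rw [add_zero, first, run_zero, ← start]
    rfl
  | succ n ih =>
    rw [← add_assoc, run_succ, run_succ, ih, step_cs]

end

theorem triple_length (k r : ℕ) (w : List Bool) :
    (triple k r w).length = k + r + w.length + 2 := by
  simp [triple]
  omega

theorem time_le (c k m n : ℕ) (hk : k ≤ n) (hm : m ≤ 2 * n + 1) :
    10 * k + 4 + (m + 2) ^ c ≤ (n + 2) ^ (2 * c + 5) := by
  have h1 : m + 2 ≤ (n + 2) ^ 2 := by nlinarith
  have h2 : (m + 2) ^ c ≤ (n + 2) ^ (2 * c) := by
    rw [pow_mul]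
    exact Nat.pow_le_pow_left h1 c
  have h3 : 1 ≤ (n + 2) ^ (2 * c) := Nat.one_le_pow _ _ (by omega)
  have h4 : (n + 2) ^ (2 * c + 5) = (n + 2) ^ (2 * c) * ((n + 2) ^ 4 * (n + 2)) := by
    rw [pow_add, ← pow_succ]
  have h5 : 16 ≤ (n + 2) ^ 4 := by
    calc 16 = 2 ^ 4 := by norm_num
      _ ≤ (n + 2) ^ 4 := Nat.pow_le_pow_left (by omega) 4
  have h6 : 16 * (n + 2) ≤ (n + 2) ^ 4 * (n + 2) := Nat.mul_le_mul_right _ h5
  have h7 : (n + 2) ^ (2 * c) * (16 * (n + 2)) ≤ (n + 2) ^ (2 * c + 5) := by
    rw [h4]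
    exact Nat.mul_le_mul_left _ h6
  have h8 : 16 * (n + 2) ≤ (n + 2) ^ (2 * c) * (16 * (n + 2)) - (n + 2) ^ (2 * c) + 1 := by
    have : (n + 2) ^ (2 * c) * (16 * (n + 2)) =
        (n + 2) ^ (2 * c) * (16 * (n + 2) - 1) + (n + 2) ^ (2 * c) := by
      have e : 16 * (n + 2) = 16 * (n + 2) - 1 + 1 := by omega
      calc (n + 2) ^ (2 * c) * (16 * (n + 2)) = (n + 2) ^ (2 * c) * (16 * (n + 2) - 1 + 1) := by
            rw [← e]
        _ = _ := by ring
    have h9 : 1 * (16 * (n + 2) - 1) ≤ (n + 2) ^ (2 * c) * (16 * (n + 2) - 1) :=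
      Nat.mul_le_mul_right _ h3
    omega
  have h10 : (n + 2) ^ (2 * c) ≤ (n + 2) ^ (2 * c) * (16 * (n + 2)) := by
    calc (n + 2) ^ (2 * c) = (n + 2) ^ (2 * c) * 1 := (mul_one _).symm
      _ ≤ _ := Nat.mul_le_mul_left _ (by omega)
  omega

end DOUB_

open DOUB_

/-- If a sequence is computable, so is the sequence of its members with even numbers and that of
its members with odd numbers. -/
theorem doub (O : Lang) (P : List Instr) (c : ℕ) (b : Bool) (d : ℕ → List Bool → ℝ)
    (h : Approx O P (fun n => (n + 2) ^ c) d) :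
    ∃ (P' : List Instr) (c' : ℕ),
      Approx O P' (fun n => (n + 2) ^ c') fun k => d (2 * k + b.toNat) := by
  refine ⟨prog b P, 2 * c + 5, fun k r w => ?_⟩
  obtain ⟨h1, h2⟩ := h (2 * k + b.toNat) r w
  have hb : b.toNat ≤ 1 := by cases b <;> simp
  have h5 : 10 * k + 4 + ((triple (2 * k + b.toNat) r w).length + 2) ^ c ≤
      ((triple k r w).length + 2) ^ (2 * c + 5) := by
    refine time_le c k _ _ ?_ ?_
    · rw [triple_length]; omega
    · rw [triple_length, triple_length]; omega
  have h4 : Halts O (prog b P) (triple k r w)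
      (10 * k + 4 + ((triple (2 * k + b.toNat) r w).length + 2) ^ c) := by
    unfold Halts at h1 ⊢
    rw [second, prog_length]
    have h6 : P.length ≤ (run O P (triple (2 * k + b.toNat) r w)
        (((triple (2 * k + b.toNat) r w).length + 2) ^ c)).pc := h1
    show 9 + P.length ≤ (run O P (triple (2 * k + b.toNat) r w) _).pc + 9
    omega
  refine ⟨halts_mono _ _ _ _ _ h4 h5, ?_⟩
  show |outVal (run O (prog b P) (triple k r w) (((triple k r w).length + 2) ^ _)) - _| ≤ _
  rw [stay _ _ _ _ _ h4 h5, second]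
  exact h2

end Pool.Agent.RelV
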