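import Pool.Agent.RelV.VIEW

/-!
# The probability of a bit of a hidden language
-/

set_option autoImplicit false

namespace Pool.Agent.RelV

open MeasureTheory Set
open scoped ENNReal
open Pool.Agent.RelM (Lang Instr Cfg step run Halts pair str pre wq sq0 sq1 Asks hq qb)
open Pool.Agent.RelO (lev levmono)
open Pool.Agent.RelS (Z Rl orcV orc Idx Om Dep mixP fd meas_of_dep ovis ocut bern)
open Pool.Agent.RelT (Par Hist md md_pos md_spec ix ix_str qf seto)

namespace FAIR_

/-- The words of length `L`. -/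
def Ys (L : ℕ) : Finset (List Bool) :=
  (Finset.univ : Finset (List.Vector Bool L)).image List.Vector.toList

lemma mem_Ys {L : ℕ} {y : List Bool} : y ∈ Ys L ↔ y.length = L := by
  unfold Ys
  rw [Finset.mem_image]
  constructor
  · rintro ⟨v, _, rfl⟩
    exact v.2
  · intro h
    exact ⟨⟨y, h⟩, Finset.mem_univ _, rfl⟩

lemma card_Ys (L : ℕ) : (Ys L).card = 2 ^ L := by
  unfold Ys
  rw [Finset.card_image_of_injective _ List.Vector.toList_injective, Finset.card_univ, card_vector]
  simp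

/-- The coins of the pair with the coin option `o`. -/
def Cs (κ : ℕ) (x : List Bool) (o : ℕ) : Finset Idx :=
  (Ys (lev κ x)).image fun y => (κ, x, y, o)

lemma prod_sv (Φ : Par2) (κ : ℕ) (x : List Bool) (o : ℕ) :
    ∏ a ∈ Cs κ x o, sv Φ a = Real.exp (-it Φ κ x o) := by
  unfold Cs
  rw [Finset.prod_image (by
    intro y _ y' _ h
    simpa using h)]
  unfold sv
  rw [← Real.exp_sum]
  congr 1
  unfold ex
  simp only [Finset.sum_neg_distrib, Finset.sum_const, card_Ys, nsmul_eq_mul]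
  push_cast
  field_simp

/-- The event that the pair has (`true`) or has not (`false`) a key with the option `o`. -/
def Ev (κ : ℕ) (x : List Bool) (o : ℕ) (b : Bool) : Set Om :=
  {ω | (∀ a ∈ Cs κ x o, ω a = false) ↔ b = false}

lemma Ev_iff (κ : ℕ) (x : List Bool) (o : ℕ) (b : Bool) {ω ω' : Om}
    (h : ∀ a ∈ Cs κ x o, ω a = ω' a) : ω ∈ Ev κ x o b ↔ ω' ∈ Ev κ x o b := by
  have : (∀ a ∈ Cs κ x o, ω a = false) ↔ ∀ a ∈ Cs κ x o, ω' a = false := by
    constructor
    · intro h' a ha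
      rw [← h a ha]
      exact h' a ha
    · intro h' a ha
      rw [h a ha]
      exact h' a ha
  show ((∀ a ∈ Cs κ x o, ω a = false) ↔ b = false) ↔ ((∀ a ∈ Cs κ x o, ω' a = false) ↔ b = false)
  rw [this]

lemma Ev_meas (κ : ℕ) (x : List Bool) (o : ℕ) (b : Bool) : MeasurableSet (Ev κ x o b) :=
  fd (Finset.finite_toSet (Cs κ x o)) fun _ _ h => Ev_iff κ x o b h

lemma Ev_dep (κ : ℕ) (x : List Bool) (o : ℕ) (b : Bool) :
    Dep (pc κ x) ((Ev κ x o b).indicator (1 : Om → ℝ≥0∞)) := by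
  intro ω ω' h
  have h1 : ∀ a ∈ Cs κ x o, ω a = ω' a := by
    intro a ha
    unfold Cs at ha
    rw [Finset.mem_image] at ha
    obtain ⟨y, _, rfl⟩ := ha
    exact h _ ⟨rfl, rfl⟩
  have h2 := Ev_iff κ x o b h1
  by_cases hω : ω ∈ Ev κ x o b
  · rw [Set.indicator_of_mem hω, Set.indicator_of_mem (h2.1 hω)]
    rfl
  · rw [Set.indicator_of_notMem hω, Set.indicator_of_notMem fun h => hω (h2.2 h)]

lemma Ev_prob (Φ : Par2) (κ : ℕ) (x : List Bool) (o : ℕ) (b : Bool) :
    coin Φ (Ev κ x o b) = ENNReal.ofReal (if b = false then Real.exp (-it Φ κ x o)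
      else 1 - Real.exp (-it Φ κ x o)) := by
  have hf : coin Φ (Ev κ x o false) = ENNReal.ofReal (Real.exp (-it Φ κ x o)) := by
    have : Ev κ x o false = {ω : Om | ∀ a ∈ Cs κ x o, ω a = false} := by
      ext ω
      simp [Ev]
    rw [this, coin_false, prod_sv]
  cases b with
  | false => simpa using hf
  | true =>
    have : Ev κ x o true = (Ev κ x o false)ᶜ := by
      ext ω
      simp [Ev]
    rw [this, prob_compl_eq_one_sub (Ev_meas κ x o false), hf]
    simp only [Bool.true_eq_false, if_false]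
    rw [ENNReal.ofReal_sub _ (Real.exp_pos _).le, ENNReal.ofReal_one]

/-- The bit of the pair with the option `o`. -/
lemma Rl_iff (z : Z) (ω : Om) (κ : ℕ) (x : List Bool) (o : ℕ) (b : Bool)
    (hz : ∀ y, z κ x y = ω (κ, x, y, o)) : Rl z κ x = b ↔ ω ∈ Ev κ x o b := by
  have h1 : Rl z κ x = false ↔ ∀ a ∈ Cs κ x o, ω a = false := by
    unfold Rl
    rw [decide_eq_false_iff_not]
    push Not
    constructor
    · intro h a ha
      unfold Cs at ha
      rw [Finset.mem_image] at ha
      obtain ⟨y, hy, rfl⟩ := ha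
      have := h y (mem_Ys.1 hy)
      rw [hz] at this
      simpa using this
    · intro h y hy
      rw [hz, h _ (Finset.mem_image.2 ⟨y, mem_Ys.2 hy, rfl⟩)]
      simp
  show _ ↔ ((∀ a ∈ Cs κ x o, ω a = false) ↔ b = false)
  rw [← h1]
  cases b <;> cases Rl z κ x <;> simp

/-- The integral over the samples with a given bit, general form. -/
lemma fair_gen (Φ : Par2) (κ : ℕ) (x : List Bool) (b : Bool) {N : ℕ} {O : Om → ℕ}
    {H : Om → ℝ≥0∞} {R : Om → Bool} (hH : Measurable H) (hOm : Measurable O)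
    (hOK : ∀ ω, O ω < N) (hOd : Dep (pc κ x)ᶜ O) (dH : Dep (pc κ x)ᶜ H)
    (hRl : ∀ ω, R ω = b ↔ ω ∈ Ev κ x (O ω) b) :
    ∫⁻ ω in {ω | R ω = b}, H ω ∂(coin Φ) =
      ∫⁻ ω, ENNReal.ofReal (if b = false then Real.exp (-it Φ κ x (O ω))
        else 1 - Real.exp (-it Φ κ x (O ω))) * H ω ∂(coin Φ) := by
  classical
  have hset : {ω | R ω = b} = ⋃ o ∈ Finset.range N, ({ω | O ω = o} ∩ Ev κ x o b) := by
    ext ω
    simp only [Set.mem_iUnion, Finset.mem_range, Set.mem_ofPred_eq, Set.mem_inter_iff]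
    rw [hRl]
    constructor
    · intro h
      exact ⟨O ω, hOK ω, rfl, h⟩
    · rintro ⟨o, _, rfl, h⟩
      exact h
  have hOs : ∀ o, MeasurableSet {ω | O ω = o} := fun o => hOm (measurableSet_singleton o)
  have hms : MeasurableSet {ω | R ω = b} := by
    rw [hset]
    exact Finset.measurableSet_biUnion _ fun o _ => (hOs o).inter (Ev_meas _ _ _ _)
  have hpt : ∀ ω, ({ω | R ω = b}).indicator H ω =
      ∑ o ∈ Finset.range N, (Ev κ x o b).indicator (1 : Om → ℝ≥0∞) ω *
        ({ω | O ω = o}).indicator H ω := by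
    intro ω
    rw [Finset.sum_eq_single (O ω)]
    · by_cases h : ω ∈ Ev κ x (O ω) b
      · rw [Set.indicator_of_mem (show ω ∈ {ω | R ω = b} from (hRl ω).2 h),
          Set.indicator_of_mem h, Set.indicator_of_mem (show ω ∈ {ω' | O ω' = O ω} from rfl)]
        simp
      · rw [Set.indicator_of_notMem (show ω ∉ {ω | R ω = b} from
          fun h' => h ((hRl ω).1 h')), Set.indicator_of_notMem h]
        simp
    · intro o _ ho
      rw [Set.indicator_of_notMem (show ω ∉ {ω' | O ω' = o} from fun h => ho h.symm)]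
      simp
    · intro h
      exact absurd (Finset.mem_range.2 (hOK ω)) h
  have hdep : ∀ o, Dep (pc κ x)ᶜ (({ω | O ω = o}).indicator H) := by
    intro o ω ω' h
    have hO' : O ω = O ω' := hOd ω ω' h
    have hH' : H ω = H ω' := dH ω ω' h
    by_cases ho : O ω = o
    · rw [Set.indicator_of_mem (show ω ∈ {ω | O ω = o} from ho),
        Set.indicator_of_mem (show ω' ∈ {ω | O ω = o} from hO'.symm.trans ho), hH']
    · rw [Set.indicator_of_notMem (show ω ∉ {ω | O ω = o} from ho),
        Set.indicator_of_notMem (show ω' ∉ {ω | O ω = o} from fun h' => ho (hO'.trans h'))]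
  rw [← lintegral_indicator hms]
  simp only [hpt]
  have hmul : ∀ o, Measurable fun ω => (Ev κ x o b).indicator (1 : Om → ℝ≥0∞) ω *
      ({ω | O ω = o}).indicator H ω := fun o =>
    (measurable_one.indicator (Ev_meas _ _ _ _)).mul (hH.indicator (hOs o))
  rw [lintegral_finsetSum _ fun o _ => hmul o]
  have hterm : ∀ o, ∫⁻ ω, (Ev κ x o b).indicator (1 : Om → ℝ≥0∞) ω *
      ({ω | O ω = o}).indicator H ω ∂(coin Φ) =
      ∫⁻ ω, ({ω | O ω = o}).indicator (fun ω =>
        ENNReal.ofReal (if b = false then Real.exp (-it Φ κ x (O ω))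
          else 1 - Real.exp (-it Φ κ x (O ω))) * H ω) ω ∂(coin Φ) := by
    intro o
    rw [indep Φ (measurable_one.indicator (Ev_meas κ x o b)) (hH.indicator (hOs o))
      (Ev_dep κ x o b) (hdep o), lintegral_indicator_one (Ev_meas _ _ _ _), Ev_prob,
      ← lintegral_const_mul _ (hH.indicator (hOs o))]
    refine lintegral_congr fun ω => ?_
    by_cases ho : O ω = o
    · rw [Set.indicator_of_mem (show ω ∈ {ω | O ω = o} from ho),
        Set.indicator_of_mem (show ω ∈ {ω | O ω = o} from ho), ho]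
    · rw [Set.indicator_of_notMem (show ω ∉ {ω | O ω = o} from ho),
        Set.indicator_of_notMem (show ω ∉ {ω | O ω = o} from ho), mul_zero]
  simp only [hterm]
  have hrm : Measurable fun ω =>
      ENNReal.ofReal (if b = false then Real.exp (-it Φ κ x (O ω))
        else 1 - Real.exp (-it Φ κ x (O ω))) * H ω := by
    refine Measurable.mul ?_ hH
    refine Measurable.ennreal_ofReal ?_
    have h1 : Measurable fun ω => Real.exp (-it Φ κ x (O ω)) := by
      have : (fun ω => Real.exp (-it Φ κ x (O ω))) =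
          (fun o : ℕ => Real.exp (-it Φ κ x o)) ∘ O := rfl
      rw [this]
      exact (measurable_from_top).comp hOm
    split_ifs
    · exact h1
    · exact measurable_const.sub h1
  rw [← lintegral_finsetSum _ fun o _ => hrm.indicator (hOs o)]
  refine lintegral_congr fun ω => ?_
  rw [Finset.sum_eq_single (O ω)]
  · rw [Set.indicator_of_mem (show ω ∈ {ω' | O ω' = O ω} from rfl)]
  · intro o _ ho
    rw [Set.indicator_of_notMem (show ω ∉ {ω' | O ω' = o} from fun h => ho h.symm)]
  · intro h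
    exact absurd (Finset.mem_range.2 (hOK ω)) h

end FAIR_

open FAIR_

theorem not_ss (Φ : Par2) (κ t : ℕ) : ¬ SS Φ κ t κ (str t) := by
  rintro (⟨_, h⟩ | ⟨_, t', ht', h⟩)
  · exact h ⟨rfl, t, le_rfl, rfl⟩
  · have : t = t' := Pool.Agent.RelM.strinj h
    omega

theorem fair : T_FAIR := by
  intro Φ κ t H b h0 hH dH
  obtain ⟨O, hOe⟩ : ∃ O : Om → ℕ, ∀ ω, O ω = oc Φ (hf Φ ω).1 κ (lev κ (str t)) :=
    ⟨_, fun _ => rfl⟩
  have hrt : ∀ ω, rt Φ κ t ω = Real.exp (-it Φ κ (str t) (O ω)) := by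
    intro ω
    unfold rt
    rw [oc_view h0 le_rfl, hOe]
  simp only [hrt]
  refine fair_gen Φ κ (str t) b (N := KK Φ) hH ?_ ?_ ?_ ?_ ?_
  · refine meas_of_dep (visfin Φ κ t) fun ω ω' h => ?_
    rw [hOe, hOe, ← oc_view h0 le_rfl, ← oc_view h0 le_rfl, hs_vis h0 h]
  · intro ω
    rw [hOe]
    exact (ocspec Φ _ κ _ (str t) (gd_hf Φ ω)).1
  · intro ω ω' h
    rw [hOe, hOe]
    exact oc_dep Φ κ (str t) ω ω' h
  · intro ω ω' h
    exact dH ω ω' fun a ha => h a (hidden_notMem (not_ss Φ κ t) ha)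
  · intro ω
    refine Rl_iff _ ω κ (str t) (O ω) b fun y => ?_
    rw [hOe]
    rfl

end Pool.Agent.RelV
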