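import Pool.Agent.RelV.VIEW
import Pool.Agent.RelT.FAST

/-!
# The time bounds are small compared with the lengths of the keys
-/

set_option autoImplicit false

namespace Pool.Agent.RelV

open Pool.Agent.RelM (str)
open Pool.Agent.RelO (lev)
open Pool.Agent.RelT.FAST_

/-- Polynomial time is small compared with the keys of the odd families. -/
theorem fast1 : T_FAST1 := by
  intro e
  refine ⟨4 * e + 4, fun κ hκ hodd c => ⟨2 ^ c, fun t ht l hl => ?_⟩⟩
  have hlen : (str t).length = Nat.log 2 (t + 1) := Pool.Agent.RelM.strlen t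
  have hL := lt_two_pow t
  obtain ⟨_, h2, h3⟩ := lbd ht hl
  set L := Nat.log 2 (t + 1) with hLdef
  have hlev : me κ t = (κ + 2) * (L + 2) := by
    unfold me
    rw [if_pos hodd]
    unfold lev
    rw [if_neg (by omega), hlen]
  rw [hlev]
  refine core (A := e * (2 * L + 2)) hL h3 ?_ ?_
  · calc (l + 2) ^ e ≤ (2 ^ (2 * L + 2)) ^ e := Nat.pow_le_pow_left h2 e
      _ = 2 ^ (e * (2 * L + 2)) := by rw [← pow_mul, mul_comm]
  · calc 2 * (2 * L + 4 + e * (2 * L + 2)) ≤ (4 * e + 4 + 2) * (L + 2) := by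
          nlinarith [Nat.zero_le (e * L), Nat.zero_le e, Nat.zero_le L]
      _ ≤ (κ + 2) * (L + 2) := Nat.mul_le_mul_right _ (by omega)

/-- Quasi-polynomial time is small compared with the keys of the even families. -/
theorem fast2 : T_FAST2 := by
  intro e
  refine ⟨4 * e + 8, fun κ hκ heven c => ⟨2 ^ c, fun t ht l hl => ?_⟩⟩
  have hlen : (str t).length = Nat.log 2 (t + 1) := Pool.Agent.RelM.strlen t
  have hL := lt_two_pow t
  obtain ⟨_, h2, h3⟩ := lbd ht hl
  set L := Nat.log 2 (t + 1) with hLdef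
  obtain ⟨m, hm⟩ : ∃ m, κ = 2 * m := ⟨κ / 2, by omega⟩
  have hlev : me κ t = (L + 2) ^ (m + 1) := by
    unfold me
    rw [if_neg (by omega)]
    unfold lev
    rw [if_pos heven, hlen, show κ + 2 = (m + 1) * 2 by omega, pow_mul, sq, Nat.sqrt_eq]
  rw [hlev]
  have hlog : Nat.log 2 l + 2 ≤ 2 * L + 2 := by
    have h4 : Nat.log 2 l < 2 * L + 1 := Nat.log_lt_of_lt_pow' (by omega) h3
    omega
  have hA : (2 * L + 2) ^ e ≤ (L + 2) ^ (2 * e) := by
    rw [pow_mul]
    exact Nat.pow_le_pow_left (by nlinarith) e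
  refine core (A := (2 * L + 2) ^ e) hL h3 ?_ ?_
  · exact Nat.pow_le_pow_right (by norm_num) (Nat.pow_le_pow_left hlog e)
  · have hpos : 1 ≤ (L + 2) ^ (2 * e) := Nat.one_le_pow _ _ (by omega)
    have hM : 8 * (L + 2) ≤ (L + 2) ^ 4 := by
      have h5 : 2 ^ 3 ≤ (L + 2) ^ 3 := Nat.pow_le_pow_left (by omega) 3
      calc 8 * (L + 2) ≤ (L + 2) ^ 3 * (L + 2) := Nat.mul_le_mul_right _ (by omega)
        _ = (L + 2) ^ 4 := by ring
    have h6 : 2 * (2 * L + 4 + (L + 2) ^ (2 * e)) ≤ (L + 2) ^ (2 * e) * (L + 2) ^ 4 := by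
      nlinarith
    calc 2 * (2 * L + 4 + (2 * L + 2) ^ e) ≤ 2 * (2 * L + 4 + (L + 2) ^ (2 * e)) := by omega
      _ ≤ (L + 2) ^ (2 * e) * (L + 2) ^ 4 := h6
      _ = (L + 2) ^ (2 * e + 4) := by rw [← pow_add]
      _ ≤ (L + 2) ^ (m + 1) := Nat.pow_le_pow_right (by omega) (by omega)

/-- The effective level is at most the level up to which nothing is hidden. -/
theorem me_le {Φ : Par2} {κ t : ℕ} (h0 : nn Φ 0 ≤ lev κ (str t)) : me κ t ≤ le Φ κ t := by
  obtain ⟨J, _, _, _, h | h⟩ := view h0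
  · rw [h.2.2.2.2]
    unfold me
    rw [if_neg (by omega)]
    have h1 := nnsq Φ J
    have h2 := h.2.2.1
    have h3 : Nat.sqrt (lev κ (str t)) < nn Φ J + 1 := by
      rw [Nat.sqrt_lt']
      nlinarith
    omega
  · rw [h.2.2]
    unfold me
    split_ifs
    · exact le_rfl
    · exact Nat.sqrt_le_self _

end Pool.Agent.RelV
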