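import Mathlib

/-!
# The mean of the logarithmic loss
-/

set_option autoImplicit false

namespace Pool.Agent.RelV

open MeasureTheory Set
open scoped ENNReal

open Classical in
/-- The logarithmic loss of finitely many forecasts, each of which gives an event its
probability, is seldom large. -/
theorem lossp {Ω : Type} [MeasurableSpace Ω] (μ : Measure Ω) [IsProbabilityMeasure μ]
    {ι : Type} (W : Finset ι) (S : ι → Set Ω) (hS : ∀ t ∈ W, MeasurableSet (S t)) (R M : ℝ)
    (hR : 0 < R) (hM : ∑ t ∈ W, Real.binEntropy (μ.real (S t)) ≤ M) :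
    μ {τ | R ≤ ∑ t ∈ W, -Real.log (if τ ∈ S t then μ.real (S t) else 1 - μ.real (S t)) ∨
      ∃ t ∈ W, (if τ ∈ S t then μ.real (S t) else 1 - μ.real (S t)) = 0} ≤
      ENNReal.ofReal (M / R) := by
  obtain ⟨p, hp⟩ : ∃ p : ι → ℝ, ∀ t, p t = μ.real (S t) := ⟨_, fun _ => rfl⟩
  simp only [← hp]
  simp only [← hp] at hM
  have p0 : ∀ t, 0 ≤ p t := fun t => by rw [hp]; exact measureReal_nonneg
  have p1 : ∀ t, p t ≤ 1 := fun t => by rw [hp]; exact measureReal_le_one
  have hμ1 : ∀ t, μ (S t) = ENNReal.ofReal (p t) := fun t => by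
    rw [hp, Measure.real, ENNReal.ofReal_toReal (measure_ne_top _ _)]
  have hμ2 : ∀ t ∈ W, μ (S t)ᶜ = ENNReal.ofReal (1 - p t) := fun t ht => by
    rw [hp, ← probReal_compl_eq_one_sub (hS t ht), Measure.real,
      ENNReal.ofReal_toReal (measure_ne_top _ _)]
  obtain ⟨q, hq⟩ : ∃ q : ι → Ω → ℝ, ∀ t τ, q t τ = if τ ∈ S t then p t else 1 - p t :=
    ⟨_, fun _ _ => rfl⟩
  simp only [← hq]
  have q0 : ∀ t τ, 0 ≤ q t τ := by
    intro t τ
    rw [hq]
    have := p0 t
    have := p1 t
    split_ifs <;> linarith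
  have q1 : ∀ t τ, q t τ ≤ 1 := by
    intro t τ
    rw [hq]
    have := p0 t
    have := p1 t
    split_ifs <;> linarith
  have hmean : ∀ t ∈ W, ∀ f : ℝ → ℝ≥0∞, ∫⁻ τ, f (q t τ) ∂μ =
      f (p t) * ENNReal.ofReal (p t) + f (1 - p t) * ENNReal.ofReal (1 - p t) := by
    intro t ht f
    have h1 : ∀ τ, f (q t τ) = f (p t) * (S t).indicator 1 τ +
        f (1 - p t) * (S t)ᶜ.indicator 1 τ := by
      intro τ
      rw [hq]
      by_cases h : τ ∈ S t
      · rw [if_pos h, indicator_of_mem h, indicator_of_notMem (by simpa using h)]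
        simp
      · rw [if_neg h, indicator_of_notMem h, indicator_of_mem (by simpa using h)]
        simp
    simp only [h1]
    rw [lintegral_add_left ((measurable_one.indicator (hS t ht)).const_mul _),
      lintegral_const_mul _ (measurable_one.indicator (hS t ht)),
      lintegral_const_mul _ (measurable_one.indicator (hS t ht).compl),
      lintegral_indicator_one (hS t ht), lintegral_indicator_one (hS t ht).compl, hμ1, hμ2 t ht]
  have qm : ∀ t ∈ W, Measurable (q t) := by
    intro t ht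
    have h1 : q t = fun τ => if τ ∈ S t then p t else 1 - p t := by
      funext τ
      exact hq t τ
    rw [h1]
    exact Measurable.ite (hS t ht) measurable_const measurable_const
  have hlm : ∀ t ∈ W, Measurable fun τ => ENNReal.ofReal (-Real.log (q t τ)) := fun t ht =>
    ((Real.measurable_log.comp (qm t ht)).neg).ennreal_ofReal
  have hnn : ∀ τ, ∀ t ∈ W, 0 ≤ -Real.log (q t τ) := by
    intro τ t _
    have := Real.log_nonpos (q0 t τ) (q1 t τ)
    linarith
  have hsum : ∀ τ, ENNReal.ofReal (∑ t ∈ W, -Real.log (q t τ)) =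
      ∑ t ∈ W, ENNReal.ofReal (-Real.log (q t τ)) := fun τ =>
    ENNReal.ofReal_sum_of_nonneg (hnn τ)
  have hone : ∀ t ∈ W, ∫⁻ τ, ENNReal.ofReal (-Real.log (q t τ)) ∂μ =
      ENNReal.ofReal (Real.binEntropy (p t)) := by
    intro t ht
    rw [hmean t ht fun x => ENNReal.ofReal (-Real.log x)]
    have l1 : 0 ≤ -Real.log (p t) := by
      have := Real.log_nonpos (p0 t) (p1 t)
      linarith
    have l2 : 0 ≤ -Real.log (1 - p t) := by
      have := Real.log_nonpos (x := 1 - p t) (by linarith [p1 t]) (by linarith [p0 t])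
      linarith
    rw [← ENNReal.ofReal_mul l1, ← ENNReal.ofReal_mul l2,
      ← ENNReal.ofReal_add (mul_nonneg l1 (p0 t)) (mul_nonneg l2 (by linarith [p1 t]))]
    congr 1
    rw [Real.binEntropy, Real.log_inv, Real.log_inv]
    ring
  have hA : μ {τ | R ≤ ∑ t ∈ W, -Real.log (q t τ)} ≤ ENNReal.ofReal (M / R) := by
    have h1 : {τ | R ≤ ∑ t ∈ W, -Real.log (q t τ)} ⊆
        {τ | ENNReal.ofReal R ≤ ∑ t ∈ W, ENNReal.ofReal (-Real.log (q t τ))} := by
      intro τ h
      have h2 : R ≤ ∑ t ∈ W, -Real.log (q t τ) := h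
      rw [Set.mem_ofPred_eq, ← hsum]
      exact ENNReal.ofReal_le_ofReal h2
    refine (measure_mono h1).trans ?_
    have h2 := mul_meas_ge_le_lintegral (μ := μ) (Finset.measurable_sum W hlm)
      (ENNReal.ofReal R)
    have h3 : ∫⁻ τ, ∑ t ∈ W, ENNReal.ofReal (-Real.log (q t τ)) ∂μ ≤ ENNReal.ofReal M := by
      rw [lintegral_finsetSum _ hlm, Finset.sum_congr rfl hone,
        ← ENNReal.ofReal_sum_of_nonneg fun t _ => Real.binEntropy_nonneg (p0 t) (p1 t)]
      exact ENNReal.ofReal_le_ofReal hM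
    rw [ENNReal.ofReal_div_of_pos hR,
      ENNReal.le_div_iff_mul_le (Or.inl (by simpa using hR)) (Or.inl ENNReal.ofReal_ne_top),
      mul_comm]
    exact h2.trans h3
  have hZ : ∀ t ∈ W, μ {τ | q t τ = 0} = 0 := by
    intro t ht
    have h1 := hmean t ht fun x => if x = 0 then (1 : ℝ≥0∞) else 0
    have h2 : ∀ τ, (if q t τ = 0 then (1 : ℝ≥0∞) else 0) =
        ({τ | q t τ = 0} : Set Ω).indicator 1 τ := by
      intro τ
      by_cases h : q t τ = 0
      · rw [if_pos h, indicator_of_mem (show τ ∈ {τ | q t τ = 0} from h)]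
        rfl
      · rw [if_neg h, indicator_of_notMem (show τ ∉ {τ | q t τ = 0} from h)]
    simp only [h2] at h1
    have h3 : MeasurableSet {τ | q t τ = 0} := (qm t ht) (measurableSet_singleton 0)
    rw [lintegral_indicator_one h3] at h1
    rw [h1]
    by_cases h4 : p t = 0
    · simp [h4]
    · by_cases h5 : 1 - p t = 0
      · simp [h4, h5]
      · simp [h4, h5]
  have hZ' : μ {τ | ∃ t ∈ W, q t τ = 0} = 0 := by
    have h1 : {τ | ∃ t ∈ W, q t τ = 0} = ⋃ t ∈ W, {τ | q t τ = 0} := by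
      ext τ
      simp
    rw [h1]
    refine le_antisymm ((measure_biUnion_finset_le _ _).trans ?_) zero_le
    rw [Finset.sum_eq_zero hZ]
  have hsub : {τ | R ≤ ∑ t ∈ W, -Real.log (q t τ) ∨ ∃ t ∈ W, q t τ = 0} ⊆
      {τ | R ≤ ∑ t ∈ W, -Real.log (q t τ)} ∪ {τ | ∃ t ∈ W, q t τ = 0} := by
    rintro τ (h | h)
    · exact Or.inl h
    · exact Or.inr h
  refine (measure_mono hsub).trans ((measure_union_le _ _).trans ?_)
  rw [hZ', add_zero]
  exact hA

end Pool.Agent.RelV
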