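import Pool.Agent.RelV.STG
import Pool.Agent.RelV.LOSS
import Pool.Agent.RelV.BCV

/-!
# The gambler succeeds infinitely often
-/

set_option autoImplicit false

namespace Pool.Agent.RelV

open MeasureTheory Set
open scoped ENNReal
open Pool.Agent.RelM (Lang Instr Cfg run Halts pair triple str pre hq wq sq0 sq1 Asks qb)
open Pool.Agent.RelO (lev st)
open Pool.Agent.RelS (Z Rl orcV orc acc Idx Om Dep mixP gf PF Low fd meas_of_dep mixP_pos
  mixP_neg mixP_meas)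
open Pool.Agent.RelT (Par Hist md md_pos md_spec ix ix_str qf seto)

/-- The probability of acceptance used at stage `j`. -/
noncomputable def pp (Φ : Par2) (j t : ℕ) (ω : Om) : ℝ :=
  pa Φ j (hs Φ ω j) ω t (best Φ j (hs Φ ω j) ω)

theorem pp_eq (Φ : Par2) (j t : ℕ) (ω : Om) : (hf Φ ω).2 j t = pp Φ j t ω := by
  show (hs Φ ω (j + 1)).2 j t = _
  rw [hs_succ]
  show (Function.update (hs Φ ω j).2 j
    (fun t => pa Φ j (hs Φ ω j) ω t (best Φ j (hs Φ ω j) ω))) j t = _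
  rw [Function.update_self]
  rfl

theorem pp0 (Φ : Par2) (j t : ℕ) (ω : Om) : 0 ≤ pp Φ j t ω := by
  unfold pp pa
  exact measureReal_nonneg

theorem pp1 (Φ : Par2) (j t : ℕ) (ω : Om) : pp Φ j t ω ≤ 1 := by
  unfold pp pa
  exact measureReal_le_one

/-- The machine of stage `j` accepts the word number `t` in the end. -/
def Tr (Φ : Par2) (j t : ℕ) (ω : Om) : Prop := acc (oo Φ ω) (mN j) (str t)

/-- The answers do not change after stage `j`. -/
theorem truth_iff {Φ : Par2} {j : ℕ} (ω : Om) {t : ℕ} (ht : t ∈ Wd Φ j) :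
    Tr Φ j t ω ↔ ans Φ j (hs Φ ω (j + 1)) ω t := by
  refine accl Φ j t (hf Φ ω) (hs Φ ω (j + 1)) ω ω ht (fun i hi => ?_) (gd_hf Φ ω)
    (fun i hi => ?_) fun _ _ => rfl
  · exact ((hsval Φ ω (j + 1)).1 i hi).symm
  · exact ((hsval Φ ω (j + 1)).2 i (by omega)).symm

theorem pp_congr {Φ : Par2} {j t : ℕ} {ω ω' : Om} (h : ∀ a ∈ Gs Φ j, ω a = ω' a) :
    pp Φ j t ω = pp Φ j t ω' := by
  unfold pp
  rw [hs_congr fun a ha => h a (old_gs Φ j ha), best_congr h, pa_congr h]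

theorem tr_dep {Φ : Par2} {j : ℕ} {ω ω' : Om} {t : ℕ} (ht : t ∈ Wd Φ j)
    (hw : ∀ a ∈ Old Φ (j + 1), ω a = ω' a) : Tr Φ j t ω ↔ Tr Φ j t ω' := by
  rw [truth_iff ω ht, truth_iff ω' ht, hs_congr hw]
  exact accl Φ j t _ _ ω ω' ht (fun _ _ => rfl) (gd_hs Φ ω' (j + 1)) (fun _ _ => rfl) hw

/-- The two machines of stage `j` differ in the end. -/
def Df (Φ : Par2) (j : ℕ) (ω : Om) : Prop := Dif Φ j (hs Φ ω (j + 1)) ω

theorem df_dep {Φ : Par2} {j : ℕ} {ω ω' : Om} (hw : ∀ a ∈ Old Φ (j + 1), ω a = ω' a) :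
    Df Φ j ω ↔ Df Φ j ω' := by
  unfold Df Dif
  rw [hs_congr hw]
  refine and_congr_right fun _ => exists_congr fun t => and_congr_right fun ht => not_congr ?_
  refine iff_congr ?_ ?_
  · exact accl Φ j t _ _ ω ω' ht (fun _ _ => rfl) (gd_hs Φ ω' (j + 1)) (fun _ _ => rfl) hw
  · exact accm Φ j t _ _ ω ω' ht (fun _ _ => rfl) (gd_hs Φ ω' (j + 1)) (fun _ _ => rfl)
      fun a ha => hw a (lw_mono Φ (nnnu Φ j).le ha)

open Classical in
/-- The probability given to the answer on the word number `t`. -/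
noncomputable def ql (Φ : Par2) (j t : ℕ) (ω : Om) : ℝ := qf (pp Φ j t ω) (decide (Tr Φ j t ω))

theorem ql_dep {Φ : Par2} {j : ℕ} {ω ω' : Om} {t : ℕ} (ht : t ∈ Wd Φ j)
    (hw : ∀ a ∈ Old Φ (j + 1), ω a = ω' a) : ql Φ j t ω = ql Φ j t ω' := by
  unfold ql
  rw [pp_congr fun a ha => hw a (gsold Φ j ha), decide_eq_decide.2 (tr_dep ht hw)]

theorem ql0 (Φ : Par2) (j t : ℕ) (ω : Om) : 0 ≤ ql Φ j t ω :=
  qf_nonneg (pp0 Φ j t ω) (pp1 Φ j t ω) _

/-- The loss of stage `j`. -/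
noncomputable def loss (Φ : Par2) (j : ℕ) (ω : Om) : ℝ := ∑ t ∈ Wd Φ j, -Real.log (ql Φ j t ω)

/-- The bound for the loss. -/
noncomputable def RR (Φ : Par2) (δ : ℝ) (j : ℕ) : ℝ :=
  ((Pt Φ j).a * Real.log 2 + δ) * 2 ^ (nn Φ j + j)

/-- Stage `j` fails. -/
def fail (Φ : Par2) (δ : ℝ) (j : ℕ) : Set Om :=
  {ω | ¬ Df Φ j ω ∧ (RR Φ δ j ≤ loss Φ j ω ∨ ∃ t ∈ Wd Φ j, ql Φ j t ω = 0)}

theorem fail_dep {Φ : Par2} {δ : ℝ} {j : ℕ} {ω ω' : Om} (hw : ∀ a ∈ Old Φ (j + 1), ω a = ω' a) :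
    ω ∈ fail Φ δ j ↔ ω' ∈ fail Φ δ j := by
  have h1 : loss Φ j ω = loss Φ j ω' := by
    unfold loss
    refine Finset.sum_congr rfl fun t ht => ?_
    rw [ql_dep ht hw]
  unfold fail
  simp only [Set.mem_ofPred_eq]
  rw [h1]
  refine and_congr (not_congr (df_dep hw)) (or_congr Iff.rfl ?_)
  refine exists_congr fun t => and_congr_right fun ht => ?_
  rw [ql_dep ht hw]

theorem fail_meas (Φ : Par2) (δ : ℝ) (j : ℕ) : MeasurableSet (fail Φ δ j) :=
  fd (oldfin Φ (j + 1)) fun _ _ h => fail_dep h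

/-- Mixed samples agree on old coins when the samples do. -/
theorem mix_old {Φ : Par2} {j : ℕ} {ω τ τ' : Om} (h : ∀ a ∈ Old Φ (j + 1), τ a = τ' a) :
    ∀ a ∈ Old Φ (j + 1), mixP (Gs Φ j) ω τ a = mixP (Gs Φ j) ω τ' a := by
  intro a ha
  by_cases h3 : a ∈ Gs Φ j
  · rw [mixP_pos h3, mixP_pos h3]
  · rw [mixP_neg h3, mixP_neg h3]
    exact h a ha

/-- The conditional law of an answer. -/
theorem tr_prob {Φ : Par2} {j t : ℕ} (ht : t ∈ Wd Φ j) (ω : Om) :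
    MeasurableSet {τ | Tr Φ j t (mixP (Gs Φ j) ω τ)} ∧
    (coin Φ).real {τ | Tr Φ j t (mixP (Gs Φ j) ω τ)} = pp Φ j t ω := by
  have h0 : ∀ τ, ∀ a ∈ Gs Φ j, mixP (Gs Φ j) ω τ a = ω a := fun τ a ha => mixP_pos ha
  constructor
  · exact fd (oldfin Φ (j + 1)) fun τ τ' h => tr_dep ht (mix_old h)
  · have h1 : {τ | Tr Φ j t (mixP (Gs Φ j) ω τ)} =
        {τ | ans Φ j (seto (hs Φ ω j) j (best Φ j (hs Φ ω j) ω)) (mixP (Gs Φ j) ω τ) t} := by
      ext τ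
      show Tr Φ j t (mixP (Gs Φ j) ω τ) ↔ _
      rw [truth_iff _ ht, hsdep Φ j _ _ (h0 τ), hs_succ]
      exact (ans_set (gd_hs Φ ω j) (best_lt _ _ _ _) ω _ ht).symm
    rw [h1]
    rfl

/-- The ratio for a stage with the code `e`. -/
noncomputable def rr (Φ : Par2) (δ : ℝ) (j : ℕ) : ℝ :=
  max (1 - dl Φ j) (((Pt Φ j).a * Real.log 2 + δ / 2) / ((Pt Φ j).a * Real.log 2 + δ))

theorem dl_pos (Φ : Par2) (j : ℕ) : 0 < dl Φ j := by
  unfold dl
  exact div_pos (md_pos _) (by positivity)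

theorem rr_lt (Φ : Par2) {δ : ℝ} (hδ : 0 < δ) (j : ℕ) : rr Φ δ j < 1 := by
  have ha : 0 ≤ (Pt Φ j).a * Real.log 2 :=
    mul_nonneg (Pt Φ j).a0 (Real.log_pos (by norm_num)).le
  refine max_lt (by linarith [dl_pos Φ j]) ?_
  rw [div_lt_one (by positivity)]
  linarith

/-- Stage `j` fails with probability less than one, given the known coins. -/
theorem fail_prob {Φ : Par2} {δ : ℝ} (hδ : 0 < δ) {j : ℕ} (hj : 1 / ((j : ℝ) + 1) ≤ δ / 4)
    (hv : 1 / ((av j : ℝ) + 1) ≤ δ / 4)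
    (ω : Om) : coin Φ {τ | mixP (Gs Φ j) ω τ ∈ fail Φ δ j} ≤ ENNReal.ofReal (rr Φ δ j) := by
  classical
  have ha : 0 ≤ (Pt Φ j).a * Real.log 2 :=
    mul_nonneg (Pt Φ j).a0 (Real.log_pos (by norm_num)).le
  have h0 : ∀ τ, ∀ a ∈ Gs Φ j, mixP (Gs Φ j) ω τ a = ω a := fun τ a ha => mixP_pos ha
  rcases (stg Φ j ω).2 with hs1 | hs2
  · -- the machines differ
    have h1 : {τ | mixP (Gs Φ j) ω τ ∈ fail Φ δ j} ⊆ {τ | Df Φ j (mixP (Gs Φ j) ω τ)}ᶜ :=
      fun τ hτ => hτ.1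
    have h2 : MeasurableSet {τ | Df Φ j (mixP (Gs Φ j) ω τ)} :=
      fd (oldfin Φ (j + 1)) fun τ τ' h => df_dep (mix_old h)
    have h3 : (coin Φ).real {τ | Df Φ j (mixP (Gs Φ j) ω τ)} =
        pd Φ j (hs Φ ω j) ω (best Φ j (hs Φ ω j) ω) := by
      have e1 : {τ | Df Φ j (mixP (Gs Φ j) ω τ)} = {τ | Dif Φ j (setf Φ j (hs Φ ω j) ω
          (best Φ j (hs Φ ω j) ω)) (mixP (Gs Φ j) ω τ)} := by
        ext τ
        have e2 : hs Φ (mixP (Gs Φ j) ω τ) (j + 1) =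
            setf Φ j (hs Φ ω j) ω (best Φ j (hs Φ ω j) ω) := by
          rw [hsdep Φ j _ _ (h0 τ), hs_succ]
        rw [Set.mem_ofPred_eq, Set.mem_ofPred_eq, Df, e2]
      rw [e1, pd]
    refine (measure_mono h1).trans ?_
    have h4 : (coin Φ).real {τ | Df Φ j (mixP (Gs Φ j) ω τ)}ᶜ ≤ rr Φ δ j := by
      rw [probReal_compl_eq_one_sub h2, h3]
      refine le_trans ?_ (le_max_left _ _)
      linarith
    have h5 : (0 : ℝ) ≤ rr Φ δ j := measureReal_nonneg.trans h4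
    rw [Measure.real] at h4
    exact (ENNReal.le_ofReal_iff_toReal_le (measure_ne_top _ _) h5).2 h4
  · -- the entropy is small
    obtain ⟨S, hS⟩ : ∃ S : ℕ → Set Om, ∀ t, S t = {τ | Tr Φ j t (mixP (Gs Φ j) ω τ)} :=
      ⟨_, fun _ => rfl⟩
    have hR0 : 0 < RR Φ δ j := by unfold RR; positivity
    have hSp : ∀ t ∈ Wd Φ j, (coin Φ).real (S t) = pp Φ j t ω := fun t ht => by
      rw [hS]
      exact (tr_prob ht ω).2
    have hl := lossp (coin Φ) (Wd Φ j) S (fun t ht => by rw [hS]; exact (tr_prob ht ω).1)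
      (RR Φ δ j) (hB Φ j) hR0 (by
        rw [Finset.sum_congr rfl fun t ht => by rw [hSp t ht]]
        exact hs2)
    have hq : ∀ τ, ∀ t ∈ Wd Φ j, (if τ ∈ S t then (coin Φ).real (S t) else
        1 - (coin Φ).real (S t)) = ql Φ j t (mixP (Gs Φ j) ω τ) := by
      intro τ t ht
      rw [hSp t ht]
      unfold ql qf
      rw [pp_congr (h0 τ)]
      by_cases h : τ ∈ S t
      · have h' : Tr Φ j t (mixP (Gs Φ j) ω τ) := by rw [hS] at h; exact h
        rw [if_pos h, if_pos (by simpa using h')]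
      · have h' : ¬ Tr Φ j t (mixP (Gs Φ j) ω τ) := by rw [hS] at h; exact h
        rw [if_neg h, if_neg (by simpa using h')]
    have h1 : {τ | mixP (Gs Φ j) ω τ ∈ fail Φ δ j} ⊆
        {τ | RR Φ δ j ≤ ∑ t ∈ Wd Φ j, -Real.log (if τ ∈ S t then (coin Φ).real (S t) else
          1 - (coin Φ).real (S t)) ∨
        ∃ t ∈ Wd Φ j, (if τ ∈ S t then (coin Φ).real (S t) else 1 - (coin Φ).real (S t)) = 0} := by
      rintro τ ⟨-, h | ⟨t, ht, h⟩⟩
      · left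
        rw [Finset.sum_congr rfl fun t ht => by rw [hq τ t ht]]
        exact h
      · right
        exact ⟨t, ht, by rw [hq τ t ht]; exact h⟩
    refine (measure_mono h1).trans (hl.trans ?_)
    apply ENNReal.ofReal_le_ofReal
    refine le_trans ?_ (le_max_right _ _)
    unfold hB RR
    rw [mul_div_mul_right _ _ (by positivity)]
    refine div_le_div_of_nonneg_right ?_ (by positivity)
    linarith

theorem fail_part {Φ : Par2} {δ : ℝ} (hδ : 0 < δ) {j : ℕ} (hj : 1 / ((j : ℝ) + 1) ≤ δ / 4)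
    (hv : 1 / ((av j : ℝ) + 1) ≤ δ / 4)
    {H : Om → ℝ≥0∞} (hH : Measurable H) (dH : Dep (Old Φ j) H) :
    ∫⁻ ω in fail Φ δ j, H ω ∂(coin Φ) ≤
      ENNReal.ofReal (rr Φ δ j) * ∫⁻ ω, H ω ∂(coin Φ) := by
  rw [lint_mix Φ (p := Gs Φ j) (fail_meas Φ δ j) hH
    (fun ω ω' h => dH ω ω' fun a ha => h a (old_gs Φ j ha)), ← lintegral_const_mul _ hH]
  refine lintegral_mono fun ω => ?_
  show H ω * _ ≤ _ * H ω
  rw [mul_comm]
  gcongr
  exact fail_prob hδ hj hv ω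

/-! ## Infinitely many stages succeed -/

theorem succ_ae (Φ : Par2) {δ : ℝ} (e : ℕ)
    (hv : 4 / ((((cde e).2.2.1 : ℕ) : ℝ) + 1) ≤ δ) :
    ∀ᵐ ω ∂(coin Φ), ∀ n : ℕ, ∃ m, n ≤ m ∧ ω ∉ fail Φ δ (Nat.pair e m) := by
  have hδ : 0 < δ := lt_of_lt_of_le (by positivity) hv
  obtain ⟨v, hv'⟩ : ∃ v : ℕ, v = (cde e).2.2.1 := ⟨_, rfl⟩
  rw [← hv'] at hv
  have hst : ∀ m, st (Nat.pair e m) = e := fun m => by
    unfold st
    rw [Nat.unpair_pair]
  have hav : ∀ m, av (Nat.pair e m) = v := fun m => by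
    unfold av
    rw [hst, hv']
  have hv4 : 1 / ((v : ℝ) + 1) ≤ δ / 4 := by
    have : 4 / ((v : ℝ) + 1) = 4 * (1 / ((v : ℝ) + 1)) := by ring
    linarith
  have hu : StrictMono fun m => Nat.pair e (v + m) := by
    refine strictMono_nat_of_lt_succ fun m => ?_
    exact Nat.pair_lt_pair_right e (by omega)
  have hsmall : ∀ m, 1 / (((Nat.pair e (v + m) : ℕ) : ℝ) + 1) ≤ δ / 4 := by
    intro m
    refine le_trans ?_ hv4
    apply one_div_le_one_div_of_le (by positivity)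
    have h1 : v ≤ Nat.pair e (v + m) := by
      have := Nat.right_le_pair e (v + m)
      omega
    have h2 : (v : ℝ) ≤ (Nat.pair e (v + m) : ℕ) := by exact_mod_cast h1
    linarith
  have hPt : ∀ m, Pt Φ (Nat.pair e m) = Pt Φ (Nat.pair e 0) := fun m => by
    unfold Pt ty
    rw [hst, hst]
  have hrr : ∀ m, rr Φ δ (Nat.pair e m) = rr Φ δ (Nat.pair e 0) := fun m => by
    unfold rr dl
    rw [hPt, hav, hav]
  have h := bcv (coin Φ) (Old Φ) (oldfin Φ) (fun i j hij => old_mono Φ hij)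
    (fun m => Nat.pair e (v + m)) hu (fun m => fail Φ δ (Nat.pair e (v + m)))
    (fun m ω ω' hw => fail_dep hw) (rr Φ δ (Nat.pair e 0)) (rr_lt Φ hδ _)
    (fun m H hH dH => by
      rw [← hrr (v + m)]
      exact fail_part hδ (hsmall m) (by rw [hav]; exact hv4) hH dH)
  filter_upwards [h] with ω hω n
  obtain ⟨m, hm, hf⟩ := hω n
  exact ⟨v + m, by omega, hf⟩

/-! ## The probability of the language -/

theorem pre_length (A : Lang) (n : ℕ) : (pre A n).length = n := by simp [pre]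

theorem pre_getD (A : Lang) {n t : ℕ} (h : t < n) : (pre A n).getD t false = A (str t) := by
  unfold pre
  simp [List.getD_eq_getElem?_getD, h]

theorem Pw_low {Φ : Par2} {δ : ℝ} {j : ℕ} {ω : Om} (hω : ω ∉ fail Φ δ j) (hD : ¬ Df Φ j ω) :
    Real.exp (-(((Pt Φ j).a * Real.log 2 + δ) * 2 ^ (nn Φ j + j) + 2 ^ nn Φ j)) ≤
      Pw Φ (hf Φ ω).2 j (pre (Lj Φ j ω) (2 ^ (nn Φ j + j))) := by
  classical
  obtain ⟨N, hN⟩ : ∃ N, N = 2 ^ (nn Φ j + j) := ⟨_, rfl⟩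
  have hNn : 2 ^ nn Φ j ≤ N := by
    rw [hN]
    exact Nat.pow_le_pow_right (by norm_num) (by omega)
  have h1 : ¬ ((Pt Φ j).a * Real.log 2 + δ) * 2 ^ (nn Φ j + j) ≤ loss Φ j ω :=
    fun h => hω ⟨hD, Or.inl h⟩
  have h2 : ∀ t ∈ Wd Φ j, ql Φ j t ω ≠ 0 := fun t ht h => hω ⟨hD, Or.inr ⟨t, ht, h⟩⟩
  have hpos : ∀ t ∈ Wd Φ j, 0 < ql Φ j t ω := fun t ht =>
    lt_of_le_of_ne (ql0 Φ j t ω) (Ne.symm (h2 t ht))
  have hprod : Pw Φ (hf Φ ω).2 j (pre (Lj Φ j ω) N) =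
      (1 / 2) ^ 2 ^ nn Φ j * ∏ t ∈ Wd Φ j, ql Φ j t ω := by
    unfold Pw
    rw [pre_length, Finset.range_eq_Ico, ← Finset.prod_Ico_consecutive _ (Nat.zero_le _) hNn]
    congr 1
    · have h3 : ∀ t ∈ Finset.Ico 0 (2 ^ nn Φ j), qf (hv Φ (hf Φ ω).2 j t)
          ((pre (Lj Φ j ω) N).getD t false) = 1 / 2 := by
        intro t ht
        rw [Finset.mem_Ico] at ht
        have h4 : hv Φ (hf Φ ω).2 j t = 1 / 2 := by
          unfold hv
          rw [if_neg (by omega)]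
        rw [h4]
        unfold qf
        split_ifs <;> norm_num
      rw [Finset.prod_congr rfl h3, Finset.prod_const]
      simp
    · unfold Wd
      rw [hN]
      refine Finset.prod_congr rfl fun t ht => ?_
      have ht' := Finset.mem_Ico.1 ht
      rw [pre_getD _ ht'.2]
      have h4 : hv Φ (hf Φ ω).2 j t = pp Φ j t ω := by
        unfold hv
        rw [if_pos ht', pp_eq, min_eq_right (pp1 Φ j t ω), max_eq_right (pp0 Φ j t ω)]
      rw [h4]
      rfl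
  rw [← hN, hprod]
  have hexp : ∏ t ∈ Wd Φ j, ql Φ j t ω = Real.exp (-loss Φ j ω) := by
    unfold loss
    rw [Finset.sum_neg_distrib, neg_neg, Real.exp_sum]
    refine Finset.prod_congr rfl fun t ht => ?_
    rw [Real.exp_log (hpos t ht)]
  have hhalf : Real.exp (-(2 : ℝ) ^ nn Φ j) ≤ (1 / 2) ^ 2 ^ nn Φ j := by
    have h3 : Real.exp (-1) ≤ 1 / 2 := by
      rw [Real.exp_neg, one_div]
      apply inv_anti₀ (by norm_num)
      have := Real.add_one_le_exp (1 : ℝ)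
      linarith
    calc Real.exp (-(2 : ℝ) ^ nn Φ j) = Real.exp (-1) ^ 2 ^ nn Φ j := by
          rw [← Real.exp_nat_mul]
          push_cast
          ring_nf
      _ ≤ (1 / 2) ^ 2 ^ nn Φ j := by
          gcongr
  rw [hexp, neg_add, Real.exp_add, mul_comm]
  refine mul_le_mul hhalf (Real.exp_le_exp.2 ?_) (Real.exp_pos _).le (by positivity)
  linarith [not_le.1 h1]

theorem io : T_IO := by
  intro Φ e δ hδ
  filter_upwards [succ_ae Φ e hδ] with ω hω n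
  obtain ⟨m, hm, hf⟩ := hω n
  refine ⟨Nat.pair e m, hm.trans (Nat.right_le_pair e m), ?_, ?_⟩
  · unfold st
    rw [Nat.unpair_pair]
  · by_cases hD : Df Φ (Nat.pair e m) ω
    · exact Or.inl hD
    · exact Or.inr (Pw_low hf hD)

end Pool.Agent.RelV
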