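import Pool.Agent.RelV.Targets
import Pool.Agent.RelT.NPR
import Pool.Agent.RelO.MAIN

/-!
# The dimension in `E` is at least `a`, the dimension in `E_2` is at least `b`
-/

set_option autoImplicit false

namespace Pool.Agent.RelV

open MeasureTheory Set
open scoped ENNReal
open Pool.Agent.RelM (Lang Instr NP E1 E2 Approx IsNullCover Null2 str)
open Pool.Agent.RelO (lev IsGale IsGaleCover GaleNull1 GaleNull2)
open Pool.Agent.RelS (Z Rl orc Om)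
open Pool.Agent.RelT (npr e1r e2r)

theorem low_of (hNN : T_NONNULL) (hND : T_NONNULLD) (hF1 : T_FAST1) (hF2 : T_FAST2) :
    T_LOW := by
  intro Φ
  have a1 : ∀ᵐ ω ∂(coin Φ), ∀ (κ c : ℕ) (q : ℚ) (Pr : List Instr),
      (q : ℝ) * Real.log 2 < hd Φ κ → Fast κ (fun l => (l + 2) ^ c) →
      ¬ ∃ d : ℕ → List Bool → ℝ, IsGaleCover (q : ℝ) d {Rl (zo Φ ω) κ} ∧
        Approx (oo Φ ω) Pr (fun l => (l + 2) ^ c) d := by
    refine ae_all_iff.2 fun κ => ae_all_iff.2 fun c => ae_all_iff.2 fun q =>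
      ae_all_iff.2 fun Pr => ?_
    by_cases h1 : (q : ℝ) * Real.log 2 < hd Φ κ
    · by_cases h2 : Fast κ (fun l => (l + 2) ^ c)
      · filter_upwards [hNN Φ κ Pr _ q h1 h2] with ω hω _ _
        exact hω
      · exact Filter.Eventually.of_forall fun ω _ h => (h2 h).elim
    · exact Filter.Eventually.of_forall fun ω h => (h1 h).elim
  have a2 : ∀ᵐ ω ∂(coin Φ), ∀ (κ c : ℕ) (q : ℚ) (Pr : List Instr),
      (q : ℝ) * Real.log 2 < hd Φ κ → Fast κ (fun l => 2 ^ ((Nat.log 2 l + 2) ^ c)) →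
      ¬ ∃ d : ℕ → List Bool → ℝ, IsGaleCover (q : ℝ) d {Rl (zo Φ ω) κ} ∧
        Approx (oo Φ ω) Pr (fun l => 2 ^ ((Nat.log 2 l + 2) ^ c)) d := by
    refine ae_all_iff.2 fun κ => ae_all_iff.2 fun c => ae_all_iff.2 fun q =>
      ae_all_iff.2 fun Pr => ?_
    by_cases h1 : (q : ℝ) * Real.log 2 < hd Φ κ
    · by_cases h2 : Fast κ (fun l => 2 ^ ((Nat.log 2 l + 2) ^ c))
      · filter_upwards [hNN Φ κ Pr _ q h1 h2] with ω hω _ _
        exact hω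
      · exact Filter.Eventually.of_forall fun ω _ h => (h2 h).elim
    · exact Filter.Eventually.of_forall fun ω h => (h1 h).elim
  have a3 : ∀ᵐ ω ∂(coin Φ), ∀ (κ c : ℕ) (Pr : List Instr), Φ.oA = true → κ % 2 = 0 →
      Fast κ (fun l => 2 ^ ((Nat.log 2 l + 2) ^ c)) →
      ¬ ∃ d : ℕ → List Bool → ℝ, IsNullCover d {Rl (zo Φ ω) κ} ∧
        Approx (oo Φ ω) Pr (fun l => 2 ^ ((Nat.log 2 l + 2) ^ c)) d := by
    refine ae_all_iff.2 fun κ => ae_all_iff.2 fun c => ae_all_iff.2 fun Pr => ?_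
    by_cases h0 : Φ.oA = true
    · by_cases h1 : κ % 2 = 0
      · by_cases h2 : Fast κ (fun l => 2 ^ ((Nat.log 2 l + 2) ^ c))
        · filter_upwards [hND Φ κ Pr _ h0 h1 h2] with ω hω _ _ _
          exact hω
        · exact Filter.Eventually.of_forall fun ω _ _ h => (h2 h).elim
      · exact Filter.Eventually.of_forall fun ω _ h => (h1 h).elim
    · exact Filter.Eventually.of_forall fun ω h => (h0 h).elim
  have hl2 : 0 < Real.log 2 := Real.log_pos (by norm_num)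
  -- the parameters
  have hpar : ∀ {s α : ℝ}, s < α → ∃ (q : ℚ) (n : ℕ), s < q ∧ ∀ κ : ℕ, n ≤ κ →
      (q : ℝ) * Real.log 2 < α * Real.log 2 - 1 / ((κ : ℝ) + 1) := by
    intro s α hsα
    obtain ⟨q, hsq, hqa⟩ := exists_rat_btwn hsα
    have hgap : 0 < (α - q) * Real.log 2 := mul_pos (by linarith) hl2
    obtain ⟨n, hn⟩ := exists_nat_one_div_lt hgap
    refine ⟨q, n, hsq, fun κ hκ => ?_⟩
    have h3 : 1 / ((κ : ℝ) + 1) ≤ 1 / ((n : ℝ) + 1) := by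
      apply one_div_le_one_div_of_le (by positivity)
      have : (n : ℝ) ≤ κ := by exact_mod_cast hκ
      linarith
    linarith
  filter_upwards [a1, a2, a3] with ω h1 h2 h3
  have hcov : ∀ {s q : ℝ} (d : ℕ → List Bool → ℝ) (X X' : Set Lang), s < q → X' ⊆ X →
      IsGaleCover s d X → IsGaleCover q d X' := fun d X X' hq hX hd k =>
    ⟨Pool.Agent.RelO.MAIN_.gale_mono hq.le (hd k).1, (hd k).2.1,
      fun A hA => (hd k).2.2 A (hX hA)⟩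
  refine ⟨?_, ?_, ?_⟩
  · rintro s hsa ⟨d, hd1, Pr, c, hA⟩
    obtain ⟨q, n, hsq, hκ⟩ := hpar hsa
    obtain ⟨κ₀, hκ₀⟩ := hF1 c
    obtain ⟨κ, h4, h5, h6⟩ : ∃ κ, n ≤ κ ∧ κ₀ ≤ κ ∧ κ % 2 = 1 :=
      ⟨2 * (n + κ₀) + 1, by omega, by omega, by omega⟩
    have h7 : (q : ℝ) * Real.log 2 < hd Φ κ := by
      unfold hd
      rw [if_pos h6]
      exact hκ κ h4
    refine h1 κ c q Pr h7 (hκ₀ κ h5 h6) ⟨d, hcov d _ _ hsq ?_ hd1, hA⟩
    rintro A rfl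
    exact ⟨npr _ _ _, e1r _ _ _ h6⟩
  · rintro s hsb ⟨d, hd1, Pr, c, hA⟩
    obtain ⟨q, n, hsq, hκ⟩ := hpar hsb
    obtain ⟨κ₀, hκ₀⟩ := hF2 c
    obtain ⟨κ, h4, h5, h6⟩ : ∃ κ, n ≤ κ ∧ κ₀ ≤ κ ∧ κ % 2 = 0 :=
      ⟨2 * (n + κ₀), by omega, by omega, by omega⟩
    have h7 : (q : ℝ) * Real.log 2 < hd Φ κ := by
      unfold hd
      rw [if_neg (by omega)]
      exact hκ κ h4
    refine h2 κ c q Pr h7 (hκ₀ κ h5 h6) ⟨d, hcov d _ _ hsq ?_ hd1, hA⟩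
    rintro A rfl
    exact ⟨npr _ _ _, e2r _ _ _ h6⟩
  · rintro hoA ⟨d, hd1, Pr, c, hA⟩
    obtain ⟨κ₀, hκ₀⟩ := hF2 c
    obtain ⟨κ, h5, h6⟩ : ∃ κ, κ₀ ≤ κ ∧ κ % 2 = 0 := ⟨2 * κ₀, by omega, by omega⟩
    refine h3 κ c Pr hoA h6 (hκ₀ κ h5 h6) ⟨d, fun k => ?_, hA⟩
    refine ⟨(hd1 k).1, (hd1 k).2.1, ?_⟩
    rintro A rfl
    exact (hd1 k).2.2 _ ⟨npr _ _ _, e2r _ _ _ h6⟩

end Pool.Agent.RelV
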