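import Pool.Agent.RelV.UPP
import Pool.Agent.RelT.PAR

/-!
# The theorem
-/

set_option autoImplicit false

namespace Pool.Agent.RelV

open MeasureTheory Set
open scoped ENNReal
open Pool.Agent.RelM (Lang NP E1 E2 Null1 Null2 pre)
open Pool.Agent.RelO (GaleNull1 GaleNull2)
open Pool.Agent.RelS (Om)
open Pool.Agent.RelT (Par par qf)

theorem Pw_zero (Φ : Par2) (η : ℕ → ℕ → ℝ) (w : List Bool) :
    Pw Φ η 0 w = (1 / 2 : ℝ) ^ w.length := by
  unfold Pw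
  rw [Finset.prod_congr rfl (g := fun _ => (1 / 2 : ℝ))]
  · simp
  · intro t _
    have h1 : hv Φ η 0 t = 1 / 2 := by
      unfold hv
      rw [if_neg]
      rw [Nat.add_zero]
      omega
    rw [h1]
    unfold qf
    split_ifs <;> norm_num

/-- Every language is covered for `s > 1`. -/
theorem cov1 {Φ : Par2} (h : Φ.B.a = 1) (η : ℕ → ℕ → ℝ) (A : Lang) (k : ℕ) :
    ∃ N, 1 ≤ dd Φ η (2 * k + true.toNat) (pre A N) := by
  refine ⟨(2 * k + 2) * (k + 1), ?_⟩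
  obtain ⟨N, hN⟩ : ∃ N, N = (2 * k + 2) * (k + 1) := ⟨_, rfl⟩
  rw [← hN]
  have hN0 : 0 < (pre A N).length := by
    rw [pre_length, hN]
    positivity
  refine le_trans ?_ (dlow Φ η (2 * k + true.toNat) 0 _ hN0)
  rw [Pw_zero, pre_length, sK_eq]
  have h1 : (al Φ true + 1 / ((k : ℝ) + 1)) * N = ((N + (2 * k + 2) : ℕ) : ℝ) := by
    unfold al
    rw [if_pos rfl, h, hN]
    push_cast
    field_simp
  rw [h1, Real.rpow_natCast]
  have h2 : (2 : ℝ) ^ (N + (2 * k + 2)) = 2 ^ N * (2 ^ (2 * k + 1) * 2) := by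
    rw [pow_add, show 2 * k + 2 = (2 * k + 1) + 1 by ring, pow_succ]
  rw [h2]
  have h3 : (1 / 2 : ℝ) ^ (2 * k + true.toNat) * 2 ^ (2 * k + 1) = 1 := by
    simp only [Bool.toNat_true]
    rw [← mul_pow]
    norm_num
  have h4 : (1 / 2 : ℝ) ^ N * 2 ^ N = 1 := by
    rw [← mul_pow]
    norm_num
  have h5 : (1 / 2 : ℝ) ^ (2 * k + true.toNat) * (2 ^ N * (2 ^ (2 * k + 1) * 2)) *
      ((1 / 2 : ℝ) ^ (0 + 1) * (1 / 2) ^ N) =
      ((1 / 2 : ℝ) ^ (2 * k + true.toNat) * 2 ^ (2 * k + 1)) * ((1 / 2 : ℝ) ^ N * 2 ^ N) := by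
    ring
  rw [h5, h3, h4, mul_one]

/-- The dimensions of `NP` in `E` and in `E_2`. -/
theorem main_of (hMH : T_MHIT) (hLow : T_LOW) (a b : ℝ) (h0 : 0 ≤ a) (hab : a ≤ b)
    (h1 : b ≤ 1) : ∃ O : Lang,
    (∀ s : ℝ, a < s → GaleNull1 s O (NP O ∩ E1 O)) ∧
    (∀ s : ℝ, s < a → ¬ GaleNull1 s O (NP O ∩ E1 O)) ∧
    (∀ s : ℝ, b < s → GaleNull1 s O (NP O) ∧ GaleNull2 s O (NP O)) ∧
    (∀ s : ℝ, s < b → ¬ GaleNull2 s O (NP O ∩ E2 O)) ∧
    (b = 1 → ¬ Null2 O (NP O ∩ E2 O)) := by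
  obtain ⟨ΦA, hA⟩ := par a h0 (hab.trans h1)
  obtain ⟨ΦB, hB⟩ := par b (h0.trans hab) h1
  rcases h1.eq_or_lt with hb | hb
  · let Φ : Par2 := ⟨ΦA, ΦB, by rw [hA, hB]; exact hab, true⟩
    obtain ⟨ω, h2, h3⟩ := ((upp_of hMH Φ).and (hLow Φ)).exists
    refine ⟨oo Φ ω, ?_, ?_, ?_, ?_, ?_⟩
    · intro s hs
      exact h2.1 s (by show ΦA.a < s; rw [hA]; exact hs)
    · intro s hs
      exact h3.1 s (by show s < ΦA.a; rw [hA]; exact hs)
    · intro s hs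
      refine galenull (b := true) (fun A _ k => cov1 (by show ΦB.a = 1; rw [hB, hb]) _ A k) ?_
      show (if true = true then ΦB.a else ΦA.a) < s
      rw [if_pos rfl, hB]
      exact hs
    · intro s hs
      exact h3.2.1 s (by show s < ΦB.a; rw [hB]; exact hs)
    · intro _
      exact h3.2.2 rfl
  · let Φ : Par2 := ⟨ΦA, ΦB, by rw [hA, hB]; exact hab, false⟩
    obtain ⟨ω, h2, h3⟩ := ((upp_of hMH Φ).and (hLow Φ)).exists
    refine ⟨oo Φ ω, ?_, ?_, ?_, ?_, ?_⟩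
    · intro s hs
      exact h2.1 s (by show ΦA.a < s; rw [hA]; exact hs)
    · intro s hs
      exact h3.1 s (by show s < ΦA.a; rw [hA]; exact hs)
    · intro s hs
      exact h2.2 rfl s (by show ΦB.a < s; rw [hB]; exact hs)
    · intro s hs
      exact h3.2.1 s (by show s < ΦB.a; rw [hB]; exact hs)
    · intro h
      exact absurd h hb.ne

end Pool.Agent.RelV
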