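import Mathlib

/-!
# Mean entropies
-/

set_option autoImplicit false

namespace Pool.Agent.RelV

open MeasureTheory Set
open scoped ENNReal

/-- Some value is at most the mean. -/
theorem exists_opt {K : ℕ} {pv : ℕ → ℝ} (pv0 : ∀ i, 0 ≤ pv i)
    (pv1 : ∑ i ∈ Finset.range K, pv i = 1) {h : ℕ → ℝ} {R : ℝ}
    (hsum : ∑ i ∈ Finset.range K, pv i * h i ≤ R) : ∃ i < K, h i ≤ R := by
  by_contra hcon
  push Not at hcon
  have h1 : ∑ i ∈ Finset.range K, pv i * R < ∑ i ∈ Finset.range K, pv i * h i := by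
    refine Finset.sum_lt_sum (fun i hi => ?_) ?_
    · exact mul_le_mul_of_nonneg_left (hcon i (Finset.mem_range.1 hi)).le (pv0 i)
    · by_contra h2
      push Not at h2
      have h3 : ∀ i ∈ Finset.range K, pv i = 0 := by
        intro i hi
        by_contra h4
        have h5 : 0 < pv i := lt_of_le_of_ne (pv0 i) (Ne.symm h4)
        have h6 := h2 i hi
        have h7 := hcon i (Finset.mem_range.1 hi)
        nlinarith
      rw [Finset.sum_eq_zero h3] at pv1
      exact zero_ne_one pv1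
  rw [← Finset.sum_mul, pv1, one_mul] at h1
  linarith

/-- If the events `f` given `e` are close to events that do not depend on `e`, then the bound for
the mean entropies given `e` is also a bound without `e`. -/
theorem mixent {E : Type} [MeasurableSpace E] (μ : Measure E) [IsProbabilityMeasure μ] {K : ℕ}
    {pv : ℕ → ℝ} (pv0 : ∀ i, 0 ≤ pv i) (pv1 : ∑ i ∈ Finset.range K, pv i = 1)
    (P : ℕ → ℝ) (F D : ℕ → E → ℝ) {c δ w : ℝ} (hδ : 0 ≤ δ)
    (hP : ∀ i < K, P i ∈ Icc (0 : ℝ) 1) (hF : ∀ i < K, ∀ e, F i e ∈ Icc (0 : ℝ) 1)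
    (hDm : ∀ i < K, Measurable (D i))
    (hD : ∀ i < K, ∫⁻ e, ENNReal.ofReal (D i e) ∂μ ≤ ENNReal.ofReal δ)
    (hFP : ∀ i < K, ∀ e, |P i - F i e| ≤ δ + D i e)
    (hu : ∀ e, ∑ i ∈ Finset.range K, pv i * Real.binEntropy (F i e) ≤ c)
    (hw : ∀ p q : ℝ, p ∈ Icc (0 : ℝ) 1 → q ∈ Icc (0 : ℝ) 1 → |p - q| ≤ ((K : ℝ) + 1) * δ →
      |Real.binEntropy p - Real.binEntropy q| ≤ w) :
    ∑ i ∈ Finset.range K, pv i * Real.binEntropy (P i) ≤ c + w := by
  have hm : ∀ i ∈ Finset.range K, Measurable fun e => ENNReal.ofReal (D i e) := fun i hi =>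
    (hDm i (Finset.mem_range.1 hi)).ennreal_ofReal
  obtain ⟨e, he⟩ := exists_le_lintegral (μ := μ)
    (f := fun e => ∑ i ∈ Finset.range K, ENNReal.ofReal (D i e))
    (Finset.measurable_sum _ hm).aemeasurable
  rw [lintegral_finsetSum _ hm] at he
  have h1 : ∑ i ∈ Finset.range K, ENNReal.ofReal (D i e) ≤ ENNReal.ofReal (K * δ) := by
    refine he.trans ?_
    calc ∑ i ∈ Finset.range K, ∫⁻ e, ENNReal.ofReal (D i e) ∂μ
        ≤ ∑ _i ∈ Finset.range K, ENNReal.ofReal δ :=
          Finset.sum_le_sum fun i hi => hD i (Finset.mem_range.1 hi)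
      _ = ENNReal.ofReal (K * δ) := by
          rw [Finset.sum_const, Finset.card_range, nsmul_eq_mul, ENNReal.ofReal_mul (by positivity),
            ENNReal.ofReal_natCast]
  have h2 : ∀ i < K, D i e ≤ K * δ := by
    intro i hi
    have h3 : ENNReal.ofReal (D i e) ≤ ENNReal.ofReal (K * δ) :=
      (Finset.single_le_sum (f := fun i => ENNReal.ofReal (D i e)) (fun _ _ => zero_le)
        (Finset.mem_range.2 hi)).trans h1
    exact (ENNReal.ofReal_le_ofReal_iff (by positivity)).1 h3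
  have h4 : ∀ i ∈ Finset.range K, pv i * Real.binEntropy (P i) ≤
      pv i * Real.binEntropy (F i e) + pv i * w := by
    intro i hi
    rw [Finset.mem_range] at hi
    rw [← mul_add]
    refine mul_le_mul_of_nonneg_left ?_ (pv0 i)
    have h5 := hw (P i) (F i e) (hP i hi) (hF i hi e) (by
      have h6 := hFP i hi e
      have h7 := h2 i hi
      linarith)
    linarith [(abs_le.1 h5).2]
  calc ∑ i ∈ Finset.range K, pv i * Real.binEntropy (P i)
      ≤ ∑ i ∈ Finset.range K, (pv i * Real.binEntropy (F i e) + pv i * w) :=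
        Finset.sum_le_sum h4
    _ = ∑ i ∈ Finset.range K, pv i * Real.binEntropy (F i e) + w := by
        rw [Finset.sum_add_distrib, ← Finset.sum_mul, pv1, one_mul]
    _ ≤ c + w := by linarith [hu e]

end Pool.Agent.RelV
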