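import Pool.Agent.RelV.Targets
import Pool.Agent.RelT.NN

/-!
# The beginnings of the stages
-/

set_option autoImplicit false

namespace Pool.Agent.RelV

open MeasureTheory
open Pool.Agent.RelM (Lang str qb)
open Pool.Agent.RelO (lev st levfin levmono)
open Pool.Agent.RelS (Z Rl orcV orc acc Idx Om Dep mixP)
open Pool.Agent.RelT (Par Hist md md_pos md_spec ix ix_str qf seto)

namespace NN_

theorem thr_spec (Φ : Par2) (j : ℕ) :
    j + 2 ≤ thr Φ j ∧ 2 * Bd Φ + 2 ≤ thr Φ j ∧ ∀ n, thr Φ j ≤ n →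
      qb (mN j) (n + j) + 2 < 2 ^ n ∧ 2 * (qb (mN j) (n + j) : ℝ) * Bd Φ ≤ md j * 2 ^ n ∧
      nu j n ≤ n ^ 2 := by
  have hne : {N | j + 2 ≤ N ∧ 2 * Bd Φ + 2 ≤ N ∧ ∀ n, N ≤ n →
      qb (mN j) (n + j) + 2 < 2 ^ n ∧ 2 * (qb (mN j) (n + j) : ℝ) * Bd Φ ≤ md j * 2 ^ n ∧
      nu j n ≤ n ^ 2}.Nonempty := by
    obtain ⟨N, hN⟩ := Pool.Agent.RelS.NN_.exp_bound ((mN j).2.1 + (mN j).2.2 + 3) 1 j
    obtain ⟨N', hN'⟩ := Pool.Agent.RelT.NN_.exp_bound_real ((mN j).2.1 + (mN j).2.2 + 3) j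
      (2 * Bd Φ) (by positivity) (md_pos j)
    refine ⟨max (max N N') (max (max (j + 2) (2 * Bd Φ + 2)) (2 * ((mM j).2 + 2) * (j + 2))),
      ?_, ?_, fun n hn => ⟨?_, ?_, ?_⟩⟩
    · exact ((le_max_left _ _).trans (le_max_left _ _)).trans (le_max_right _ _)
    · exact ((le_max_right _ _).trans (le_max_left _ _)).trans (le_max_right _ _)
    · have := hN n ((le_max_left _ _).trans ((le_max_left _ _).trans hn))
      unfold qb
      rw [one_mul] at this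
      exact this
    · have := hN' n ((le_max_right _ _).trans ((le_max_left _ _).trans hn))
      unfold qb
      push_cast at this ⊢
      linarith
    · have h1 : 2 * ((mM j).2 + 2) * (j + 2) ≤ n :=
        ((le_max_right _ _).trans (le_max_right _ _)).trans hn
      have h2 : j + 2 ≤ n :=
        (((le_max_left _ _).trans (le_max_left _ _)).trans (le_max_right _ _)).trans hn
      have h3 : n + j + 1 ≤ (j + 2) * n := by nlinarith
      unfold nu
      calc 2 * ((mM j).2 + 2) * (n + j + 1) ≤ 2 * ((mM j).2 + 2) * ((j + 2) * n) :=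
            Nat.mul_le_mul_left _ h3
        _ = 2 * ((mM j).2 + 2) * (j + 2) * n := by ring
        _ ≤ n * n := Nat.mul_le_mul_right _ h1
        _ = n ^ 2 := by ring
  exact Nat.sInf_mem hne

theorem thr_le (Φ : Par2) (j : ℕ) : thr Φ j ≤ nn Φ j := by
  cases j with
  | zero => exact le_rfl
  | succ j => rw [nn]; exact le_max_right _ _

end NN_

open NN_

theorem nnnext (Φ : Par2) (j : ℕ) : qb (mN j) (nn Φ j + j) < nn Φ (j + 1) := by
  rw [nn]
  exact lt_of_lt_of_le (Nat.lt_succ_of_le (le_max_left _ _)) (le_max_left _ _)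

theorem nnnu (Φ : Par2) (j : ℕ) : nu j (nn Φ j) < nn Φ (j + 1) := by
  rw [nn]
  exact lt_of_lt_of_le (Nat.lt_succ_of_le (le_max_right _ _)) (le_max_left _ _)

theorem nn_lt_nu (Φ : Par2) (j : ℕ) : nn Φ j + j < nu j (nn Φ j) := by
  unfold nu
  nlinarith [Nat.zero_le ((mM j).2 * (nn Φ j + j + 1))]

theorem nnnext' (Φ : Par2) (j : ℕ) : nn Φ j + j < nn Φ (j + 1) :=
  (nn_lt_nu Φ j).trans (nnnu Φ j)

theorem nnmono : T_NNMONO := by
  intro Φ
  refine strictMono_nat_of_lt_succ fun j => ?_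
  have := nnnext' Φ j
  omega

theorem nnge : T_NNGE := fun Φ j => (thr_spec Φ j).1.trans (thr_le Φ j)

theorem nnb : T_NNB := fun Φ j => (thr_spec Φ j).2.1.trans (thr_le Φ j)

theorem nnq (Φ : Par2) (j n : ℕ) (h : nn Φ j ≤ n) : qb (mN j) (n + j) + 2 < 2 ^ n :=
  ((thr_spec Φ j).2.2 n ((thr_le Φ j).trans h)).1

theorem nnmd (Φ : Par2) (j n : ℕ) (h : nn Φ j ≤ n) :
    2 * (qb (mN j) (n + j) : ℝ) * Bd Φ ≤ md j * 2 ^ n :=
  ((thr_spec Φ j).2.2 n ((thr_le Φ j).trans h)).2.1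

theorem nnsq (Φ : Par2) (j : ℕ) : nu j (nn Φ j) ≤ nn Φ j ^ 2 :=
  ((thr_spec Φ j).2.2 _ (thr_le Φ j)).2.2

theorem nuspec : T_NU := fun Φ j => ⟨nn_lt_nu Φ j, nnnu Φ j, nnsq Φ j⟩

theorem jjspec : T_JJ := by
  intro Φ m
  have hne : {j | m < nn Φ j}.Nonempty := ⟨m, by
    have := nnge Φ m
    show m < nn Φ m
    omega⟩
  refine ⟨Nat.sInf_mem hne, fun j hj => ?_⟩
  have := Nat.notMem_of_lt_sInf hj
  exact not_lt.1 this

/-- The stage of a cost between two beginnings. -/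
theorem jj_eq {Φ : Par2} {m j : ℕ} (h1 : nn Φ j ≤ m) (h2 : m < nn Φ (j + 1)) :
    jj Φ m = j + 1 := by
  obtain ⟨h3, h4⟩ := jjspec Φ m
  have h5 : jj Φ m ≤ j + 1 := by
    by_contra h
    have := h4 (j + 1) (by omega)
    omega
  have h6 : j < jj Φ m := by
    by_contra h
    have h7 : nn Φ (jj Φ m) ≤ nn Φ j := (nnmono Φ).monotone (by omega)
    omega
  omega

theorem jj_lt_le {Φ : Par2} {m j : ℕ} (h : m < nn Φ j) : jj Φ m ≤ j := by
  by_contra h1
  have := (jjspec Φ m).2 j (by omega)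
  omega

theorem jj_le (Φ : Par2) (m : ℕ) : jj Φ m ≤ m :=
  Nat.sInf_le (by
    show m < nn Φ m
    have := nnge Φ m
    omega)

theorem jj_mono (Φ : Par2) {m m' : ℕ} (h : m ≤ m') : jj Φ m ≤ jj Φ m' :=
  Nat.sInf_le (by
    show m < nn Φ (jj Φ m')
    have := (jjspec Φ m').1
    omega)

/-- The stage of a level. -/
theorem stage (Φ : Par2) {m l : ℕ} (h0 : nn Φ 0 ≤ m) (hl : m ≤ l) :
    ∃ i, nn Φ i ≤ l ∧ l < nn Φ (i + 1) ∧ jj Φ m ≤ i + 1 := by
  obtain ⟨h1, h2⟩ := jjspec Φ l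
  have hpos : jj Φ l ≠ 0 := by
    intro h
    rw [h] at h1
    omega
  refine ⟨jj Φ l - 1, h2 _ (by omega), ?_, ?_⟩
  · rw [show jj Φ l - 1 + 1 = jj Φ l by omega]
    exact h1
  · by_contra h3
    have := (jjspec Φ m).2 (jj Φ l) (by omega)
    omega

theorem lwfin : T_LWFIN := by
  intro Φ m
  have h1 : (Set.Iic m ×ˢ ({x : List Bool | x.length ≤ m} ×ˢ
      ({y : List Bool | y.length ≤ m} ×ˢ Set.Iic (KK Φ))) : Set Idx).Finite :=
    (Set.finite_Iic _).prod ((List.finite_length_le Bool _).prod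
      ((List.finite_length_le Bool _).prod (Set.finite_Iic _)))
  refine h1.subset ?_
  rintro ⟨κ, x, y, i⟩ ⟨h2, h3, h4⟩
  have h2' : lev κ x < m := h2
  have h3' : y.length = lev κ x := h3
  obtain ⟨h5, h6⟩ := levfin κ x m h2'.le
  refine ⟨h5, h6, ?_, h4.le⟩
  show y.length ≤ m
  omega

theorem lw_mono (Φ : Par2) {m m' : ℕ} (h : m ≤ m') : Lw Φ m ⊆ Lw Φ m' := by
  rintro a ⟨h1, h2⟩
  exact ⟨h1.trans_le h, h2⟩

theorem oldfin (Φ : Par2) (j : ℕ) : (Old Φ j).Finite := lwfin Φ _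

theorem old_mono (Φ : Par2) {m m' : ℕ} (h : m ≤ m') : Old Φ m ⊆ Old Φ m' :=
  lw_mono Φ ((nnmono Φ).monotone h)

theorem old_gs (Φ : Par2) (j : ℕ) : Old Φ j ⊆ Gs Φ j := fun _ h => Or.inl h

theorem gsold : T_GSOLD := by
  rintro Φ j a (h | ⟨_, _, h⟩)
  · exact old_mono Φ (Nat.le_succ j) h
  · exact lw_mono Φ (nnnu Φ j).le h

theorem gs_mono (Φ : Par2) (j : ℕ) : Gs Φ j ⊆ Gs Φ (j + 1) :=
  (gsold Φ j).trans (old_gs Φ (j + 1))

theorem gsfin (Φ : Par2) (j : ℕ) : (Gs Φ j).Finite := (oldfin Φ (j + 1)).subset (gsold Φ j)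

/-! ## The histories -/

theorem mix_congr {s : Set Idx} {ω ω' : Om} (h : ∀ a ∈ s, ω a = ω' a) (τ : Om) :
    mixP s ω τ = mixP s ω' τ := by
  funext a
  unfold mixP
  by_cases ha : a ∈ s
  · rw [if_pos ha, if_pos ha, h a ha]
  · rw [if_neg ha, if_neg ha]

theorem pa_congr {Φ : Par2} {j : ℕ} {ω ω' : Om} (h : ∀ a ∈ Gs Φ j, ω a = ω' a) (hh : Hist)
    (t i : ℕ) : pa Φ j hh ω t i = pa Φ j hh ω' t i := by
  unfold pa
  simp only [mix_congr h]

theorem setf_congr {Φ : Par2} {j : ℕ} {ω ω' : Om} (h : ∀ a ∈ Gs Φ j, ω a = ω' a) (hh : Hist)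
    (i : ℕ) : setf Φ j hh ω i = setf Φ j hh ω' i := by
  unfold setf
  simp only [pa_congr h]

theorem pd_congr {Φ : Par2} {j : ℕ} {ω ω' : Om} (h : ∀ a ∈ Gs Φ j, ω a = ω' a) (hh : Hist)
    (i : ℕ) : pd Φ j hh ω i = pd Φ j hh ω' i := by
  unfold pd
  simp only [setf_congr h, mix_congr h]

theorem He_congr {Φ : Par2} {j : ℕ} {ω ω' : Om} (h : ∀ a ∈ Gs Φ j, ω a = ω' a) (hh : Hist)
    (i : ℕ) : He Φ j hh ω i = He Φ j hh ω' i := by
  unfold He
  simp only [pa_congr h]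

theorem best_congr {Φ : Par2} {j : ℕ} {ω ω' : Om} (h : ∀ a ∈ Gs Φ j, ω a = ω' a) (hh : Hist) :
    best Φ j hh ω = best Φ j hh ω' := by
  unfold best
  simp only [He_congr h, pd_congr h]

theorem hs_succ (Φ : Par2) (ω : Om) (j : ℕ) : hs Φ ω (j + 1) =
    setf Φ j (hs Φ ω j) ω (best Φ j (hs Φ ω j) ω) := rfl

theorem hsdep : T_HSDEP := by
  intro Φ j
  induction j with
  | zero =>
    intro ω ω' h
    rw [hs_succ, hs_succ]
    show setf Φ 0 (fun _ => 0, fun _ _ => 1 / 2) ω (best Φ 0 (fun _ => 0, fun _ _ => 1 / 2) ω) =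
      setf Φ 0 (fun _ => 0, fun _ _ => 1 / 2) ω' (best Φ 0 (fun _ => 0, fun _ _ => 1 / 2) ω')
    rw [best_congr h, setf_congr h]
  | succ j ih =>
    intro ω ω' h
    have h1 := ih ω ω' fun a ha => h a (gs_mono Φ j ha)
    rw [hs_succ Φ ω (j + 1), hs_succ Φ ω' (j + 1), h1, best_congr h, setf_congr h]

theorem hs_congr {Φ : Par2} {j : ℕ} {ω ω' : Om} (h : ∀ a ∈ Old Φ j, ω a = ω' a) :
    hs Φ ω j = hs Φ ω' j := by
  cases j with
  | zero => rfl
  | succ j => exact hsdep Φ j ω ω' fun a ha => h a (gsold Φ j ha)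

theorem hs1_succ (Φ : Par2) (ω : Om) (m j : ℕ) (h : j ≤ m) :
    (hs Φ ω (m + 1)).1 j = (hs Φ ω m).1 j := by
  rw [hs]
  exact Function.update_of_ne (by omega) _ _

theorem hs2_succ (Φ : Par2) (ω : Om) (m j : ℕ) (h : j < m) :
    (hs Φ ω (m + 1)).2 j = (hs Φ ω m).2 j := by
  rw [hs]
  exact Function.update_of_ne (by omega) _ _

theorem hs1_le (Φ : Par2) (ω : Om) {m m' j : ℕ} (hm : m ≤ m') (h : j ≤ m) :
    (hs Φ ω m').1 j = (hs Φ ω m).1 j := by
  induction m', hm using Nat.le_induction with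
  | base => rfl
  | succ m' hm ih => rw [hs1_succ Φ ω m' j (by omega), ih]

theorem hs2_le (Φ : Par2) (ω : Om) {m m' j : ℕ} (hm : m ≤ m') (h : j < m) :
    (hs Φ ω m').2 j = (hs Φ ω m).2 j := by
  induction m', hm using Nat.le_induction with
  | base => rfl
  | succ m' hm ih => rw [hs2_succ Φ ω m' j (by omega), ih]

theorem hsval : T_HSVAL := by
  intro Φ ω m
  constructor
  · intro j hj
    exact hs1_le Φ ω hj le_rfl
  · intro j hj
    show (hs Φ ω m).2 j = (hs Φ ω (j + 1)).2 j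
    exact hs2_le Φ ω (by omega) (by omega)

theorem best_lt (Φ : Par2) (j : ℕ) (hh : Hist) (ω : Om) : best Φ j hh ω < (Pt Φ j).K := by
  unfold best
  split_ifs with hx hy
  · exact hx.choose_spec.1
  · exact hy.choose_spec.1
  · exact (Pt Φ j).K1

theorem gd_update {Φ : Par2} {o : ℕ → ℕ} (h : Gd Φ o) {j i : ℕ} (hi : i < (Pt Φ j).K) :
    Gd Φ (Function.update o (j + 1) i) := by
  intro m
  by_cases hm : m = j
  · subst hm
    rw [Function.update_self]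
    exact hi
  · rw [Function.update_of_ne (by omega)]
    exact h m

theorem gd_hs (Φ : Par2) (ω : Om) (m : ℕ) : Gd Φ (hs Φ ω m).1 := by
  induction m with
  | zero => exact fun j => (Pt Φ j).K1
  | succ m ih => exact gd_update ih (best_lt _ _ _ _)

theorem opt : T_OPT := fun Φ ω m j => gd_hs Φ ω m j

theorem gd_hf (Φ : Par2) (ω : Om) : Gd Φ (hf Φ ω).1 := fun j => opt Φ ω (j + 1) j

theorem hs1_zero (Φ : Par2) (ω : Om) (m : ℕ) : (hs Φ ω m).1 0 = 0 := by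
  rw [hs1_le Φ ω (Nat.zero_le m) le_rfl]
  rfl

/-- Coin options of good histories. -/
theorem ocspec : T_OC := by
  intro Φ o κ m x h
  have hl : Real.log 2 ≤ (Bd Φ : ℝ) := by
    have h1 : (1 : ℝ) ≤ (Bd Φ : ℝ) := by
      have : 1 ≤ Bd Φ := le_max_right _ _
      exact_mod_cast this
    linarith [Real.log_two_lt_d9]
  have hA : (Φ.A.B : ℝ) ≤ (Bd Φ : ℝ) := by
    have : Φ.A.B ≤ Bd Φ := (le_max_left _ _).trans (le_max_left _ _)
    exact_mod_cast this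
  have hB : (Φ.B.B : ℝ) ≤ (Bd Φ : ℝ) := by
    have : Φ.B.B ≤ Bd Φ := (le_max_right _ _).trans (le_max_left _ _)
    exact_mod_cast this
  unfold oc
  split_ifs with h1 h2 h3
  · refine ⟨by unfold KK; omega, ?_⟩
    unfold it
    rw [if_pos rfl]
    exact hl
  · have h4 := h (jj Φ m - 1)
    rw [show jj Φ m - 1 + 1 = jj Φ m by omega] at h4
    unfold Pt at h4
    rw [if_pos h2] at h4
    refine ⟨by unfold KK; omega, ?_⟩
    unfold it
    rw [if_neg (by omega), if_neg (by omega), show (2 * o (jj Φ m) + 2 - 2) / 2 = o (jj Φ m) by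
      omega]
    exact (Φ.B.bd _ _ _ h4).trans hB
  · have h4 := h (jj Φ m - 1)
    rw [show jj Φ m - 1 + 1 = jj Φ m by omega] at h4
    unfold Pt at h4
    rw [if_neg h2] at h4
    refine ⟨by unfold KK; omega, ?_⟩
    unfold it
    rw [if_neg (by omega), if_pos (by omega), show (2 * o (jj Φ m) + 1 - 1) / 2 = o (jj Φ m) by
      omega]
    exact (Φ.A.bd _ _ _ h4).trans hA
  · refine ⟨by unfold KK; omega, ?_⟩
    unfold it
    rw [if_pos rfl]
    exact hl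

/-- Coin options depend only on the option of the stage. -/
theorem oc_congr {Φ : Par2} {o o' : ℕ → ℕ} {κ m : ℕ} (h : o (jj Φ m) = o' (jj Φ m)) :
    oc Φ o κ m = oc Φ o' κ m := by
  unfold oc
  rw [h]

end Pool.Agent.RelV
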