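import Pool.Agent.RelV.FAIR
import Pool.Agent.RelV.FAST
import Pool.Agent.RelT.CRSB

/-!
# The hidden languages are not covered
-/

set_option autoImplicit false

namespace Pool.Agent.RelV

open MeasureTheory Set
open scoped ENNReal
open Pool.Agent.RelM (Lang Instr Cfg step run Halts triple outVal Approx str pre)
open Pool.Agent.RelO (lev IsGale IsGaleCover levmono levfin)
open Pool.Agent.RelS (Rl Idx Om Dep meas_of_dep)
open Pool.Agent.RelT (Cond prc wgt crsb)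

namespace NONNULL_

/-! ### Words -/

theorem pre_length (A : Lang) (n : ℕ) : (pre A n).length = n := by simp [pre]

theorem pre_succ (A : Lang) (n : ℕ) : pre A (n + 1) = pre A n ++ [A (str n)] := by
  unfold pre
  rw [List.range_succ, List.map_append]
  rfl

theorem triple_length (k r : ℕ) (w : List Bool) :
    (triple k r w).length = k + r + w.length + 2 := by
  simp [triple]; omega

/-- The hidden language. -/
noncomputable def RR (Φ : Par2) (κ : ℕ) (ω : Om) : Lang := Rl (zo Φ ω) κ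

/-- The input. -/
noncomputable def inp (Φ : Par2) (κ k r t : ℕ) (e : List Bool) (ω : Om) : List Bool :=
  triple k r (pre (RR Φ κ ω) t ++ e)

theorem inp_length (Φ : Par2) (κ k r t : ℕ) (e : List Bool) (ω : Om) :
    (inp Φ κ k r t e ω).length = k + r + (t + e.length) + 2 := by
  unfold inp
  rw [triple_length, List.length_append, pre_length]

/-- The value computed. -/
noncomputable def val (Φ : Par2) (κ t : ℕ) (Pr : List Instr) (T : ℕ → ℕ)
    (I : List Bool) (ω : Om) : ℝ :=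
  |outVal (run (ov Φ κ t ω) Pr I (T I.length))|

/-! ### Visible coins -/

lemma vs_mono {Φ : Par2} {κ s t : ℕ} (h0 : nn Φ 0 ≤ lev κ (str s)) (h : s ≤ t) :
    vs Φ κ s ≤ vs Φ κ t := by
  have hl := lev_mono κ h
  obtain ⟨J, hJ, hJ1, hJ2, hv⟩ := view h0
  obtain ⟨J', hJ', hJ1', hJ2', hv'⟩ := view (h0.trans hl)
  have hJJ : J ≤ J' := by
    by_contra h1
    have := (nnmono Φ).monotone (show J' + 1 ≤ J by omega)
    omega
  rcases hv with hv | hv <;> rcases hv' with hv' | hv'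
  · omega
  · omega
  · rcases Nat.eq_or_lt_of_le hJJ with e | e
    · subst e
      have := hv.1 hv'.1 hv'.2.1
      omega
    · omega
  · omega

lemma vis_mono {Φ : Par2} {κ s t : ℕ} (h0 : nn Φ 0 ≤ lev κ (str s)) (h : s ≤ t) :
    Vis Φ κ s ⊆ Vis Φ κ t := by
  rintro a ⟨h1, h2⟩
  refine ⟨?_, h2⟩
  rcases h1 with ⟨h3, h4⟩ | ⟨h3, t', ht', h4⟩
  · left
    refine ⟨h3.trans_le ((nnmono Φ).monotone (vs_mono h0 h)), ?_⟩
    rintro ⟨h5, t', ht', h6⟩
    exact h4 ⟨h5, t', by omega, h6⟩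
  · right
    exact ⟨h3, t', by omega, h4⟩

lemma rt_dep (Φ : Par2) (κ : ℕ) {t : ℕ} (h0 : nn Φ 0 ≤ lev κ (str t)) :
    Dep (Vis Φ κ t) (rt Φ κ t) := by
  intro ω ω' hω
  unfold rt
  rw [hs_vis h0 hω]

lemma bit_dep (Φ : Par2) (κ : ℕ) {s t : ℕ} (h0 : nn Φ 0 ≤ lev κ (str t)) (h : s < t) :
    Dep (Vis Φ κ t) fun ω => RR Φ κ ω (str s) := by
  intro ω ω' hω
  have hl := lev_mono κ h.le
  have h1 : ∀ y : List Bool, y.length = lev κ (str s) →
      zo Φ ω κ (str s) y = zo Φ ω' κ (str s) y := by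
    intro y hy
    show ω (κ, str s, y, oc Φ (hf Φ ω).1 κ (lev κ (str s))) =
      ω' (κ, str s, y, oc Φ (hf Φ ω').1 κ (lev κ (str s)))
    rw [← oc_view h0 hl ω, ← oc_view h0 hl ω', hs_vis h0 hω]
    refine hω _ ⟨Or.inr ⟨rfl, s, h, rfl⟩, hy, ?_⟩
    exact (ocspec Φ _ κ _ (str s) (gd_hs Φ ω' _)).1
  show Rl (zo Φ ω) κ (str s) = Rl (zo Φ ω') κ (str s)
  unfold Rl
  rw [decide_eq_decide]
  refine exists_congr fun y => and_congr_right fun hy => ?_
  rw [h1 y hy]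

lemma inp_dep (Φ : Par2) (κ k r t : ℕ) (e : List Bool) (h0 : nn Φ 0 ≤ lev κ (str t)) :
    Dep (Vis Φ κ t) (inp Φ κ k r t e) := by
  intro ω ω' hω
  unfold inp
  have h1 : pre (RR Φ κ ω) t = pre (RR Φ κ ω') t := by
    unfold pre
    refine List.map_congr_left fun i hi => ?_
    exact bit_dep Φ κ h0 (List.mem_range.mp hi) ω ω' hω
  rw [h1]

lemma val_dep (Φ : Par2) (κ t : ℕ) (h0 : nn Φ 0 ≤ lev κ (str t)) (Pr : List Instr) (T : ℕ → ℕ)
    (k r : ℕ) (e : List Bool) :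
    Dep (Vis Φ κ t) fun ω => val Φ κ t Pr T (inp Φ κ k r t e ω) ω := by
  intro ω ω' hω
  show val Φ κ t Pr T (inp Φ κ k r t e ω) ω = val Φ κ t Pr T (inp Φ κ k r t e ω') ω'
  unfold val
  rw [ov_dep h0 hω, inp_dep Φ κ k r t e h0 ω ω' hω]

/-! ### Hits -/

/-- The event that hiding changes a run. -/
def Hit (Φ : Par2) (κ : ℕ) (Pr : List Instr) (T : ℕ → ℕ) (k r t : ℕ) (e : List Bool) : Set Om :=
  {ω | ∃ s ≤ T (inp Φ κ k r t e ω).length,
      run (oo Φ ω) Pr (inp Φ κ k r t e ω) s ≠ run (ov Φ κ t ω) Pr (inp Φ κ k r t e ω) s}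

theorem hit_bound (hHIT : T_HIT) (Φ : Par2) (κ : ℕ) (Pr : List Instr) (T : ℕ → ℕ)
    (c k r t : ℕ) (e : List Bool) (h0 : nn Φ 0 ≤ lev κ (str t))
    (hB : ∀ l, l ≤ c * (t + 1) →
      l + T l < 2 ^ me κ t ∧ 4 * (t + 1) ^ 2 * T l ≤ 2 ^ (me κ t / 2))
    (hlen : k + r + (t + e.length) + 2 ≤ c * (t + 1)) :
    coin Φ (Hit Φ κ Pr T k r t e) ≤ ENNReal.ofReal (1 / ((t : ℝ) + 1) ^ 2) := by
  set l : ℕ := k + r + (t + e.length) + 2 with hl
  have hlenI : ∀ ω, (inp Φ κ k r t e ω).length = l := fun ω => inp_length Φ κ k r t e ω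
  obtain ⟨hB1, hB2⟩ := hB l hlen
  have hme := me_le h0
  have hB1' : l + T l < 2 ^ le Φ κ t :=
    hB1.trans_le (Nat.pow_le_pow_right (by norm_num) hme)
  have hB2' : 4 * (t + 1) ^ 2 * T l ≤ 2 ^ (le Φ κ t / 2) :=
    hB2.trans (Nat.pow_le_pow_right (by norm_num) (Nat.div_le_div_right hme))
  have hhit := hHIT Φ κ t Pr (inp Φ κ k r t e) (T l) h0 (inp_dep Φ κ k r t e h0)
    (fun ω => by rw [hlenI]; exact hB1')
  unfold Hit
  simp only [hlenI]
  refine hhit.trans ?_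
  set L := le Φ κ t / 2 with hL
  have h3 : (T l : ℝ≥0∞) * (2⁻¹ : ℝ≥0∞) ^ L = ENNReal.ofReal ((T l : ℝ) * (1 / 2) ^ L) := by
    rw [ENNReal.ofReal_mul (by positivity), ENNReal.ofReal_pow (by positivity)]
    congr 1
    · simp
    · congr 1
      rw [one_div, ENNReal.ofReal_inv_of_pos (by norm_num)]
      simp
  rw [h3]
  apply ENNReal.ofReal_le_ofReal
  have h4 : (4 : ℝ) * ((t : ℝ) + 1) ^ 2 * (T l : ℝ) ≤ 2 ^ L := by exact_mod_cast hB2'
  have h5 : (0 : ℝ) < ((t : ℝ) + 1) ^ 2 := by positivity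
  rw [le_div_iff₀ h5, one_div_pow]
  have h6 : (0 : ℝ) < 2 ^ L := by positivity
  have h7 : (T l : ℝ) * (1 / 2 ^ L) * ((t : ℝ) + 1) ^ 2 =
      ((T l : ℝ) * ((t : ℝ) + 1) ^ 2) / 2 ^ L := by ring
  rw [h7, div_le_one h6]
  nlinarith [mul_nonneg (by positivity : (0 : ℝ) ≤ T l) h5.le]

/-! ### The processes -/

/-- The values at time `i + 1`. -/
noncomputable def XX (Φ : Par2) (κ : ℕ) (Pr : List Instr) (T : ℕ → ℕ) (q j i : ℕ) (b : Bool)
    (ω : Om) : ℝ :=
  val Φ κ (j + i) Pr T (inp Φ κ (3 * q * j) (q * (i + 1) + 2 * q * j + 1) (j + i) [b] ω) ω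

/-- The value at time `0`. -/
noncomputable def YY (Φ : Par2) (κ : ℕ) (Pr : List Instr) (T : ℕ → ℕ) (q j : ℕ) (ω : Om) : ℝ :=
  val Φ κ j Pr T (inp Φ κ (3 * q * j) (2 * q * j + 1) j [] ω) ω

/-- The bits. -/
noncomputable def bb (Φ : Par2) (κ j i : ℕ) (ω : Om) : Bool := RR Φ κ ω (str (j + i))

/-- The errors. -/
noncomputable def ee (q j i : ℕ) : ℝ := (1 / 2 : ℝ) ^ (q * i + 2 * q * j)

theorem cond (Φ : Par2) (κ : ℕ) (Pr : List Instr) (T : ℕ → ℕ) (q j : ℕ) {θ η : ℝ}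
    (hθ0 : 0 < θ) (hθ1 : θ < 1) (hη : 2 * θ ≤ η * (1 - θ))
    (h0 : ∀ t, j ≤ t → nn Φ 0 ≤ lev κ (str t)) :
    Cond (coin Φ) (bb Φ κ j) (XX Φ κ Pr T q j) (YY Φ κ Pr T q j) (fun i => rt Φ κ (j + i))
      (fun t ω ω' => ∀ a ∈ Vis Φ κ (j + t), ω a = ω' a) (ee q j)
      (2 * (1 / 2 : ℝ) ^ (2 * q * j)) θ η := by
  have hXd : ∀ i b, Dep (Vis Φ κ (j + i)) (XX Φ κ Pr T q j i b) := fun i b =>
    val_dep Φ κ (j + i) (h0 _ (by omega)) Pr T _ _ _
  have hYd : Dep (Vis Φ κ j) (YY Φ κ Pr T q j) := val_dep Φ κ j (h0 _ le_rfl) Pr T _ _ _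
  have hfin : ∀ t, (Vis Φ κ t).Finite := visfin Φ κ
  refine ⟨fun t => ?_, fun t i => ?_, ?_, fun t => ?_, ?_, ?_, ?_, ?_, ?_, ?_, ?_, ?_, ?_, ?_,
    by positivity, hθ0, hθ1, hη⟩
  · exact meas_of_dep (hfin (j + t + 1)) (bit_dep Φ κ (h0 _ (by omega)) (Nat.lt_succ_self (j + t)))
  · exact meas_of_dep (hfin _) (hXd t i)
  · exact meas_of_dep (hfin _) hYd
  · exact meas_of_dep (hfin (j + t)) (rt_dep Φ κ (h0 _ (by omega)))
  · intro t ω ω' h
    exact hYd ω ω' fun a ha => h a (vis_mono (h0 _ le_rfl) (by omega) ha)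
  · intro s t hst ω ω' h
    exact bit_dep Φ κ (h0 _ (by omega)) (by omega : j + s < j + t) ω ω' h
  · intro s t hst i ω ω' h
    exact hXd s i ω ω' fun a ha => h a (vis_mono (h0 _ (by omega)) (by omega) ha)
  · intro s t hst ω ω' h
    exact rt_dep Φ κ (h0 _ (by omega)) ω ω' fun a ha =>
      h a (vis_mono (h0 _ (by omega)) (by omega : j + s ≤ j + t) ha)
  · intro t i H hH hHd
    exact fair Φ κ (j + t) H i (h0 _ (by omega)) hH hHd
  · intro t i ω
    exact abs_nonneg _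
  · intro ω
    exact abs_nonneg _
  · intro t ω
    exact (Real.exp_pos _).le
  · intro t ω
    refine Real.exp_le_one_iff.2 ?_
    have := it_nonneg Φ κ (str (j + t)) (oc Φ (hs Φ ω (vs Φ κ (j + t))).1 κ (lev κ (str (j + t))))
    linarith
  · intro t
    unfold ee
    positivity

/-! ### Supergales -/

theorem gale_step {s : ℝ} {q : ℕ} (hq : s ≤ q) {d : List Bool → ℝ} (hd : IsGale s d)
    (w : List Bool) (b : Bool) : d (w ++ [b]) ≤ 2 ^ q * d w := by
  have h1 := hd.le w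
  have h2 := hd.nonneg (w ++ [false])
  have h3 := hd.nonneg (w ++ [true])
  have h4 : (2 : ℝ) ^ s ≤ 2 ^ q := by
    rw [← Real.rpow_natCast]
    exact Real.rpow_le_rpow_of_exponent_le (by norm_num) hq
  have h5 : (2 : ℝ) ^ s * d w ≤ 2 ^ q * d w := mul_le_mul_of_nonneg_right h4 (hd.nonneg w)
  cases b <;> linarith

theorem gale_pre {s : ℝ} {q : ℕ} (hq : s ≤ q) {d : List Bool → ℝ} (hd : IsGale s d) (A : Lang)
    (n : ℕ) : d (pre A n) ≤ (2 ^ q) ^ n * d [] := by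
  induction n with
  | zero => simp [pre]
  | succ n ih =>
    rw [pre_succ]
    have := gale_step hq hd (pre A n) (A (str n))
    calc d (pre A n ++ [A (str n)]) ≤ 2 ^ q * d (pre A n) := this
      _ ≤ 2 ^ q * ((2 ^ q) ^ n * d []) := by gcongr
      _ = _ := by ring

theorem val_close {Φ : Par2} {κ : ℕ} {Pr : List Instr} {T : ℕ → ℕ} {ω : Om} {s : ℝ}
    {d : ℕ → List Bool → ℝ} (hd : ∀ k, IsGale s (d k)) (hA : Approx (oo Φ ω) Pr T d)
    (k r t : ℕ) (e : List Bool) (hh : ω ∉ Hit Φ κ Pr T k r t e) :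
    |val Φ κ t Pr T (inp Φ κ k r t e ω) ω - d k (pre (RR Φ κ ω) t ++ e)| ≤ (1 / 2 : ℝ) ^ r := by
  have h1 : run (oo Φ ω) Pr (inp Φ κ k r t e ω) (T (inp Φ κ k r t e ω).length) =
      run (ov Φ κ t ω) Pr (inp Φ κ k r t e ω) (T (inp Φ κ k r t e ω).length) := by
    by_contra hne
    exact hh ⟨_, le_rfl, hne⟩
  have h3 : |outVal (run (oo Φ ω) Pr (inp Φ κ k r t e ω)
      (T (inp Φ κ k r t e ω).length)) - d k (pre (RR Φ κ ω) t ++ e)|
      ≤ (1 / 2 : ℝ) ^ r := (hA k r (pre (RR Φ κ ω) t ++ e)).2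
  rw [h1] at h3
  have h4 : 0 ≤ d k (pre (RR Φ κ ω) t ++ e) := (hd k).nonneg _
  unfold val
  have h5 := abs_abs_sub_abs_le (outVal (run (ov Φ κ t ω) Pr (inp Φ κ k r t e ω)
    (T (inp Φ κ k r t e ω).length))) (d k (pre (RR Φ κ ω) t ++ e))
  rw [abs_of_nonneg h4] at h5
  exact h5.trans h3

/-- The event that a gambler wins. -/
def Win (Φ : Par2) (κ : ℕ) (Pr : List Instr) (T : ℕ → ℕ) (s : ℝ) (q j : ℕ) : Set Om :=
  {ω | YY Φ κ Pr T q j ω ≤ 2 * (1 / 2 : ℝ) ^ (2 * q * j) ∧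
    (∀ t, XX Φ κ Pr T q j t false ω + XX Φ κ Pr T q j t true ω ≤
      (2 : ℝ) ^ s * (prc (bb Φ κ j) (XX Φ κ Pr T q j) (YY Φ κ Pr T q j) t ω + ee q j t)) ∧
    ∃ t, 1 / 2 ≤ prc (bb Φ κ j) (XX Φ κ Pr T q j) (YY Φ κ Pr T q j) t ω}

theorem incl (Φ : Par2) (κ : ℕ) (Pr : List Instr) (T : ℕ → ℕ) {s : ℝ} {q : ℕ}
    (hq : |s| + 1 ≤ q) (j : ℕ) (hj : 1 ≤ j) :
    {ω | ∃ d : ℕ → List Bool → ℝ, IsGaleCover s d {Rl (zo Φ ω) κ} ∧ Approx (oo Φ ω) Pr T d} ⊆
    Win Φ κ Pr T s q j ∪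
    (Hit Φ κ Pr T (3 * q * j) (2 * q * j + 1) j [] ∪
      ((⋃ i, Hit Φ κ Pr T (3 * q * j) (q * (i + 1) + 2 * q * j + 1) (j + i) [false]) ∪
        ⋃ i, Hit Φ κ Pr T (3 * q * j) (q * (i + 1) + 2 * q * j + 1) (j + i) [true])) := by
  rintro ω ⟨d, hN, hA⟩
  by_contra hcon
  rw [Set.mem_union, Set.mem_union, Set.mem_union, Set.mem_iUnion, Set.mem_iUnion] at hcon
  push Not at hcon
  obtain ⟨hcr, hY, hF, hT⟩ := hcon
  apply hcr
  have hsq : s ≤ q := by linarith [le_abs_self s]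
  have hq1 : 1 ≤ q := by
    have : (1 : ℝ) ≤ q := by linarith [abs_nonneg s]
    exact_mod_cast this
  have hd : ∀ k, IsGale s (d k) := fun k => (hN k).1
  set R := RR Φ κ ω with hR
  have hYc : |YY Φ κ Pr T q j ω - d (3 * q * j) (pre R j)| ≤ (1 / 2 : ℝ) ^ (2 * q * j + 1) := by
    have := val_close hd hA (3 * q * j) (2 * q * j + 1) j [] hY
    rw [List.append_nil] at this
    exact this
  have hX : ∀ i b, |XX Φ κ Pr T q j i b ω - d (3 * q * j) (pre R (j + i) ++ [b])|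
      ≤ (1 / 2 : ℝ) ^ (q * (i + 1) + 2 * q * j + 1) := by
    intro i b
    cases b
    · exact val_close hd hA (3 * q * j) (q * (i + 1) + 2 * q * j + 1) (j + i) [false] (hF i)
    · exact val_close hd hA (3 * q * j) (q * (i + 1) + 2 * q * j + 1) (j + i) [true] (hT i)
  have hproc : ∀ i, |prc (bb Φ κ j) (XX Φ κ Pr T q j) (YY Φ κ Pr T q j) i ω -
      d (3 * q * j) (pre R (j + i))| ≤ (1 / 2 : ℝ) ^ (q * i + 2 * q * j + 1) := by
    intro i
    cases i with
    | zero =>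
      rw [mul_zero, zero_add]
      exact hYc
    | succ i =>
      have h1 := hX i (bb Φ κ j i ω)
      have h2 : pre R (j + (i + 1)) = pre R (j + i) ++ [bb Φ κ j i ω] := by
        rw [← add_assoc, pre_succ]
        rfl
      rw [h2]
      exact h1
  have hd0 : d (3 * q * j) [] ≤ (1 / 2 : ℝ) ^ (3 * q * j) := (hN (3 * q * j)).2.1
  have hdn : ∀ n ≤ j, d (3 * q * j) (pre R n) ≤ (1 / 2 : ℝ) ^ (2 * q * j) := by
    intro n hn
    have h2q : (1 : ℝ) ≤ 2 ^ q := one_le_pow₀ (by norm_num)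
    calc d (3 * q * j) (pre R n) ≤ (2 ^ q) ^ n * d (3 * q * j) [] := gale_pre hsq (hd _) R n
      _ ≤ (2 ^ q) ^ n * (1 / 2 : ℝ) ^ (3 * q * j) := by gcongr
      _ ≤ (2 ^ q) ^ j * (1 / 2 : ℝ) ^ (3 * q * j) := by gcongr
      _ = (1 / 2 : ℝ) ^ (2 * q * j) := by
          rw [← pow_mul, show 3 * q * j = q * j + 2 * q * j by ring, pow_add, ← mul_assoc,
            ← mul_pow]
          norm_num
  refine ⟨?_, ?_, ?_⟩
  · have h1 := (abs_le.mp hYc).2
    have h2 := hdn j le_rfl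
    have h3 : (1 / 2 : ℝ) ^ (2 * q * j + 1) ≤ (1 / 2 : ℝ) ^ (2 * q * j) :=
      pow_le_pow_of_le_one (by norm_num) (by norm_num) (by omega)
    linarith
  · intro i
    have h1 := (abs_le.mp (hX i false)).2
    have h2 := (abs_le.mp (hX i true)).2
    have h3 := (abs_le.mp (hproc i)).1
    have h4 := (hd (3 * q * j)).le (pre R (j + i))
    have h5 : (1 / 2 : ℝ) ^ (q * (i + 1) + 2 * q * j + 1) = (1 / 2) * ((1 / 2 : ℝ) ^ q *
        ee q j i) := by
      unfold ee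
      rw [show q * (i + 1) + 2 * q * j + 1 = 1 + (q + (q * i + 2 * q * j)) by ring, pow_add,
        pow_add, pow_one]
    have h6 : (1 / 2 : ℝ) ^ (q * i + 2 * q * j + 1) = (1 / 2) * ee q j i := by
      unfold ee
      rw [pow_succ]
      ring
    have he : 0 ≤ ee q j i := by unfold ee; positivity
    have h7 : (1 / 2 : ℝ) ^ q ≤ (2 : ℝ) ^ s * (1 / 2) := by
      have e1 : (1 / 2 : ℝ) ^ q = (2 : ℝ) ^ (-(q : ℝ)) := by
        rw [Real.rpow_neg (by norm_num), Real.rpow_natCast, one_div, inv_pow]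
      have e2 : (2 : ℝ) ^ s * (1 / 2) = (2 : ℝ) ^ (s - 1) := by
        rw [Real.rpow_sub (by norm_num), Real.rpow_one]
        ring
      rw [e1, e2]
      refine Real.rpow_le_rpow_of_exponent_le (by norm_num) ?_
      linarith [neg_abs_le s]
    have h8 : (0 : ℝ) < (2 : ℝ) ^ s := by positivity
    rw [h5] at h1 h2
    rw [h6] at h3
    have h9 : d (3 * q * j) (pre R (j + i)) ≤
        prc (bb Φ κ j) (XX Φ κ Pr T q j) (YY Φ κ Pr T q j) i ω + (1 / 2) * ee q j i := by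
      linarith
    have h10 := mul_le_mul_of_nonneg_left h9 h8.le
    have h11 := mul_le_mul_of_nonneg_right h7 he
    linarith
  · obtain ⟨n, hn⟩ := (hN (3 * q * j)).2.2 R rfl
    have hlt : j < n := by
      by_contra hle
      have h1 := hdn n (by omega)
      have h2 : (1 / 2 : ℝ) ^ (2 * q * j) ≤ (1 / 2 : ℝ) ^ 1 := by
        refine pow_le_pow_of_le_one (by norm_num) (by norm_num) ?_
        have : 1 ≤ 2 * q * j := by
          have := Nat.mul_le_mul (show 1 ≤ 2 * q by omega) hj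
          omega
        exact this
      norm_num at h2
      norm_num at h1
      linarith
    obtain ⟨i, rfl⟩ := Nat.exists_eq_add_of_lt hlt
    refine ⟨i + 1, ?_⟩
    have h3 := (abs_le.mp (hproc (i + 1))).1
    rw [show j + (i + 1) = j + i + 1 by omega] at h3
    have h4 : (1 / 2 : ℝ) ^ (q * (i + 1) + 2 * q * j + 1) ≤ (1 / 2 : ℝ) ^ 1 :=
      pow_le_pow_of_le_one (by norm_num) (by norm_num) (by omega)
    rw [pow_one] at h4
    linarith

/-- The late words have late keys. -/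
theorem start (Φ : Par2) (κ : ℕ) : ∀ t, 2 ^ nn Φ 0 ≤ t → nn Φ 0 ≤ lev κ (str t) := by
  intro t ht
  have h2 := (levfin κ (str t) _ le_rfl).2
  rw [Pool.Agent.RelM.strlen] at h2
  refine le_trans ?_ h2
  rw [Nat.le_log_iff_pow_le (by norm_num) (by omega)]
  omega

/-- The probability that a gambler wins. -/
theorem win_bound (Φ : Par2) (κ : ℕ) {s θ η C : ℝ} {q : ℕ} (hq : |s| + 2 ≤ q) (hη0 : 0 < η)
    (hθ0 : 0 < θ) (hθ1 : θ < 1) (hη : 2 * θ ≤ η * (1 - θ))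
    (hC : ∀ (t : ℕ) (ω : Om), (s * Real.log 2 + 2 * η) * t - C ≤
      ∑ t' ∈ Finset.range t, Real.binEntropy (rt Φ κ t' ω)) :
    ∃ M : ℝ, ∀ (Pr : List Instr) (T : ℕ → ℕ) (j : ℕ), (∀ t, j ≤ t → nn Φ 0 ≤ lev κ (str t)) →
      coin Φ (Win Φ κ Pr T s q j) ≤ ENNReal.ofReal (M * ((2 : ℝ) ^ (-(θ * q))) ^ j) := by
  obtain ⟨ρ, hρ⟩ : ∃ ρ : ℝ, ρ = (2 : ℝ) ^ (-θ) := ⟨_, rfl⟩
  have hρ0 : 0 < ρ := by rw [hρ]; positivity
  have hρ1 : ρ < 1 := by
    rw [hρ]
    exact Real.rpow_lt_one_of_one_lt_of_neg (by norm_num) (by linarith)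
  have hhalf : ∀ n : ℕ, ((1 / 2 : ℝ) ^ n) ^ θ = ρ ^ n := by
    intro n
    rw [← Real.rpow_natCast (1 / 2 : ℝ) n, ← Real.rpow_mul (by norm_num), mul_comm (n : ℝ) θ,
      Real.rpow_mul (by norm_num), Real.rpow_natCast, hρ, Real.rpow_neg (by norm_num), one_div,
      Real.inv_rpow (by norm_num)]
  obtain ⟨Λ, hΛ⟩ : ∃ Λ : ℝ, Λ = (2 : ℝ) ^ θ + 1 / (1 - ρ) := ⟨_, rfl⟩
  have hlog : 0 < Real.log 2 := Real.log_pos (by norm_num)
  refine ⟨Λ * (2 : ℝ) ^ θ * Real.exp (θ * C) / (1 - Real.exp (-(θ * η))),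
    fun Pr T j h0 => ?_⟩
  have hcond := cond Φ κ Pr T q j hθ0 hθ1 hη h0
  refine (crsb hcond s (C + q * j * Real.log 2) (ρ ^ (2 * q * j) * Λ) hη0 ?_ ?_).trans ?_
  · intro N
    have h1 : (2 * (1 / 2 : ℝ) ^ (2 * q * j)) ^ θ = (2 : ℝ) ^ θ * ρ ^ (2 * q * j) := by
      rw [Real.mul_rpow (by norm_num) (by positivity), hhalf]
    have h2 : ∀ t : ℕ, (2 : ℝ) ^ (θ * (1 + |s|) * t) * ee q j t ^ θ ≤
        ρ ^ (2 * q * j) * ρ ^ t := by
      intro t
      unfold ee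
      rw [hhalf, pow_add]
      have e1 : (2 : ℝ) ^ (θ * (1 + |s|) * t) * ρ ^ (q * t) ≤ ρ ^ t := by
        have e2 : ∀ n : ℕ, ρ ^ n = (2 : ℝ) ^ (-(θ * n)) := by
          intro n
          rw [hρ, ← Real.rpow_natCast, ← Real.rpow_mul (by norm_num)]
          congr 1
          ring
        rw [e2, e2, ← Real.rpow_add (by norm_num)]
        refine Real.rpow_le_rpow_of_exponent_le (by norm_num) ?_
        push_cast
        have e3 : 0 ≤ θ * t * (q - (|s| + 2)) :=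
          mul_nonneg (mul_nonneg hθ0.le (Nat.cast_nonneg t)) (by linarith)
        linarith
      calc (2 : ℝ) ^ (θ * (1 + |s|) * t) * (ρ ^ (q * t) * ρ ^ (2 * q * j))
          = ρ ^ (2 * q * j) * ((2 : ℝ) ^ (θ * (1 + |s|) * t) * ρ ^ (q * t)) := by ring
        _ ≤ _ := mul_le_mul_of_nonneg_left e1 (by positivity)
    have h3 : ∑ t ∈ Finset.range N, ρ ^ t ≤ 1 / (1 - ρ) := by
      have e1 := (summable_geometric_of_lt_one hρ0.le hρ1).sum_le_tsum (Finset.range N)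
        (fun t _ => pow_nonneg hρ0.le t)
      rw [tsum_geometric_of_lt_one hρ0.le hρ1] at e1
      rw [one_div]
      exact e1
    rw [h1]
    calc (2 : ℝ) ^ θ * ρ ^ (2 * q * j) +
          ∑ t ∈ Finset.range N, (2 : ℝ) ^ (θ * (1 + |s|) * t) * ee q j t ^ θ
        ≤ (2 : ℝ) ^ θ * ρ ^ (2 * q * j) + ∑ t ∈ Finset.range N, ρ ^ (2 * q * j) * ρ ^ t :=
          add_le_add le_rfl (Finset.sum_le_sum fun t _ => h2 t)
      _ = ρ ^ (2 * q * j) * ((2 : ℝ) ^ θ + ∑ t ∈ Finset.range N, ρ ^ t) := by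
          rw [← Finset.mul_sum]
          ring
      _ ≤ ρ ^ (2 * q * j) * Λ := by
          rw [hΛ]
          refine mul_le_mul_of_nonneg_left (by linarith) (by positivity)
  · intro N ω
    unfold wgt
    apply Real.exp_le_exp.2
    refine mul_le_mul_of_nonneg_left ?_ hθ0.le
    have h1 := hC (j + N) ω
    rw [Finset.sum_range_add] at h1
    have h2 : ∑ t' ∈ Finset.range j, Real.binEntropy (rt Φ κ t' ω) ≤ j * Real.log 2 := by
      calc ∑ t' ∈ Finset.range j, Real.binEntropy (rt Φ κ t' ω)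
          ≤ ∑ t' ∈ Finset.range j, Real.log 2 :=
            Finset.sum_le_sum fun _ _ => Real.binEntropy_le_log_two
        _ = _ := by rw [Finset.sum_const, Finset.card_range, nsmul_eq_mul]
    have h3 : ∑ t ∈ Finset.range N, (Real.binEntropy (rt Φ κ (j + t) ω) - s * Real.log 2 - η) =
        ∑ t ∈ Finset.range N, Real.binEntropy (rt Φ κ (j + t) ω) -
          (s * Real.log 2 + η) * N := by
      rw [Finset.sum_sub_distrib, Finset.sum_sub_distrib, Finset.sum_const, Finset.sum_const,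
        Finset.card_range, nsmul_eq_mul, nsmul_eq_mul]
      ring
    rw [h3]
    push_cast at h1
    have h4 : 0 ≤ (j : ℝ) * Real.log 2 * (q - (1 - s)) := by
      refine mul_nonneg (by positivity) ?_
      linarith [neg_abs_le s]
    have h5 : 0 ≤ η * (j : ℝ) := by positivity
    nlinarith
  · apply ENNReal.ofReal_le_ofReal
    apply le_of_eq
    have h1 : Real.exp (θ * (C + q * j * Real.log 2)) = Real.exp (θ * C) *
        ((2 : ℝ) ^ (θ * q)) ^ j := by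
      rw [mul_add, Real.exp_add, Real.rpow_def_of_pos (by norm_num), ← Real.exp_nat_mul]
      congr 2
      ring
    have h2 : ρ ^ (2 * q * j) * ((2 : ℝ) ^ (θ * q)) ^ j = ((2 : ℝ) ^ (-(θ * q))) ^ j := by
      have e1 : ρ ^ (2 * q * j) = ((2 : ℝ) ^ (-(2 * θ * q))) ^ j := by
        rw [pow_mul, hρ, ← Real.rpow_natCast ((2 : ℝ) ^ (-θ)), ← Real.rpow_mul (by norm_num)]
        congr 2
        push_cast
        ring
      rw [e1, ← mul_pow, ← Real.rpow_add (by norm_num)]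
      congr 2
      ring
    rw [h1, ← h2]
    ring

end NONNULL_

open NONNULL_ in
/-- Almost surely, no machine that is fast compared with the keys of the family `κ` covers the
hidden language. -/
theorem nonnull_of (hHIT : T_HIT) (cnt : T_CNT) : T_NONNULL := by
  intro Φ κ Pr T s hs hfast
  rw [ae_iff]
  simp only [not_not]
  obtain ⟨η, hη⟩ : ∃ η : ℝ, η = (hd Φ κ - s * Real.log 2) / 3 :=
    ⟨_, rfl⟩
  have hη0 : 0 < η := by rw [hη]; linarith
  obtain ⟨θ, hθ⟩ : ∃ θ : ℝ, θ = η / (2 + η) := ⟨_, rfl⟩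
  have hθ0 : 0 < θ := by rw [hθ]; positivity
  have hθ1 : θ < 1 := by
    rw [hθ, div_lt_one (by linarith)]
    linarith
  have hθη : 2 * θ ≤ η * (1 - θ) := by
    apply le_of_eq
    rw [hθ]
    field_simp
    ring
  obtain ⟨C, hC⟩ := cnt Φ κ η hη0
  have hC' : ∀ (t : ℕ) (ω : Om), (s * Real.log 2 + 2 * η) * t - C ≤
      ∑ t' ∈ Finset.range t, Real.binEntropy (rt Φ κ t' ω) := by
    intro t ω
    have h1 := hC t ω
    have h2 : hd Φ κ - η = s * Real.log 2 + 2 * η := by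
      rw [hη]
      ring
    rw [h2] at h1
    exact h1
  obtain ⟨q, hq⟩ : ∃ q : ℕ, |s| + 2 ≤ q := exists_nat_ge _
  obtain ⟨M, hM⟩ := win_bound Φ κ hq hη0 hθ0 hθ1 hθη hC'
  obtain ⟨t₀, ht₀⟩ := hfast (5 * q + 4)
  set f : ℕ → ℝ≥0∞ := fun t => ENNReal.ofReal (1 / ((t : ℝ) + 1) ^ 2) with hf
  have hfs : ∑' t, f t ≠ ∞ := by
    have h1 : Summable (fun t : ℕ => 1 / ((t : ℝ) + 1) ^ 2) := by
      have := (summable_nat_add_iff 1).mpr (Real.summable_one_div_nat_pow.mpr (by norm_num : 1 < 2))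
      simpa using this
    rw [hf, ← ENNReal.ofReal_tsum_of_nonneg (fun t => by positivity) h1]
    exact ENNReal.ofReal_ne_top
  have hbound : ∀ j, max 1 (max (2 ^ nn Φ 0) t₀) ≤ j →
      coin Φ {ω | ∃ d : ℕ → List Bool → ℝ, IsGaleCover s d {Rl (zo Φ ω) κ} ∧
        Approx (oo Φ ω) Pr T d} ≤
      ENNReal.ofReal (M * ((2 : ℝ) ^ (-(θ * q))) ^ j) +
        (f j + (∑' i, f (i + j) + ∑' i, f (i + j))) := by
    intro j hj
    have hj1 : 1 ≤ j := le_trans (le_max_left _ _) hj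
    have hj2 : 2 ^ nn Φ 0 ≤ j := le_trans (le_max_left _ _) (le_trans (le_max_right _ _) hj)
    have hj3 : t₀ ≤ j := le_trans (le_max_right _ _) (le_trans (le_max_right _ _) hj)
    have h0 : ∀ t, j ≤ t → nn Φ 0 ≤ lev κ (str t) := fun t ht => start Φ κ t (by omega)
    have hlen : ∀ i : ℕ, 3 * q * j + (q * (i + 1) + 2 * q * j + 1) + (j + i + 1) + 2 ≤
        (5 * q + 4) * (j + i + 1) := by
      intro i
      nlinarith [Nat.zero_le (q * i), Nat.zero_le (q * j), Nat.zero_le i, Nat.zero_le j]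
    refine (measure_mono (incl Φ κ Pr T (by linarith : |s| + 1 ≤ (q : ℝ)) j hj1)).trans ?_
    refine (measure_union_le _ _).trans (add_le_add (hM Pr T j h0) ?_)
    refine (measure_union_le _ _).trans (add_le_add ?_ ?_)
    · refine hit_bound hHIT Φ κ Pr T (5 * q + 4) _ _ j [] (h0 _ le_rfl) (ht₀ j hj3) ?_
      have := hlen 0
      simp only [List.length_nil]
      nlinarith [Nat.zero_le (q * j), Nat.zero_le j]
    · refine (measure_union_le _ _).trans (add_le_add ?_ ?_)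
      · refine (measure_iUnion_le _).trans (ENNReal.tsum_le_tsum fun i => ?_)
        rw [add_comm i j]
        exact hit_bound hHIT Φ κ Pr T (5 * q + 4) _ _ (j + i) [false] (h0 _ (by omega))
          (ht₀ _ (by omega)) (hlen i)
      · refine (measure_iUnion_le _).trans (ENNReal.tsum_le_tsum fun i => ?_)
        rw [add_comm i j]
        exact hit_bound hHIT Φ κ Pr T (5 * q + 4) _ _ (j + i) [true] (h0 _ (by omega))
          (ht₀ _ (by omega)) (hlen i)
  have hqpos : (0 : ℝ) < q := by linarith [abs_nonneg s]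
  have hlim : Filter.Tendsto (fun j : ℕ =>
      ENNReal.ofReal (M * ((2 : ℝ) ^ (-(θ * q))) ^ j) +
        (f j + (∑' i, f (i + j) + ∑' i, f (i + j))))
      Filter.atTop (nhds 0) := by
    have h1 : Filter.Tendsto (fun j : ℕ => ENNReal.ofReal (M * ((2 : ℝ) ^ (-(θ * q))) ^ j))
        Filter.atTop (nhds 0) := by
      have h2 : Filter.Tendsto (fun j : ℕ => M * ((2 : ℝ) ^ (-(θ * q))) ^ j) Filter.atTop
          (nhds (M * 0)) :=
        (tendsto_pow_atTop_nhds_zero_of_lt_one (by positivity)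
          (Real.rpow_lt_one_of_one_lt_of_neg (by norm_num) (by
            have := mul_pos hθ0 hqpos
            linarith))).const_mul M
      have h3 := ENNReal.tendsto_ofReal h2
      simpa using h3
    have h4 : Filter.Tendsto f Filter.atTop (nhds 0) :=
      ENNReal.tendsto_atTop_zero_of_tsum_ne_top hfs
    have h5 := ENNReal.tendsto_sum_nat_add f hfs
    simpa using h1.add (h4.add (h5.add h5))
  refine le_antisymm (ge_of_tendsto hlim ?_) zero_le
  filter_upwards [Filter.eventually_ge_atTop (max 1 (max (2 ^ nn Φ 0) t₀))] with j hj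
  exact hbound j hj

/-- Almost surely, no machine that is fast compared with the keys of the family `κ` covers the
hidden language. -/
theorem nonnull (bloc : T_BLOC) (cnt : T_CNT) : T_NONNULL := nonnull_of (hit bloc) cnt

end Pool.Agent.RelV
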