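import Pool.Agent.RelV.ACC
import Pool.Agent.RelV.MIXE

/-!
# The best option
-/

set_option autoImplicit false

namespace Pool.Agent.RelV

open MeasureTheory Set
open scoped ENNReal
open Pool.Agent.RelM (Lang Instr Cfg run Halts pair triple str pre hq wq sq0 sq1 Asks qb)
open Pool.Agent.RelO (lev st)
open Pool.Agent.RelS (Z Rl orcV orc acc Idx Om Dep mixP gf PF Low fd meas_of_dep mixP_pos
  mixP_neg mixP_meas)
open Pool.Agent.RelT (Par Hist md md_pos md_spec ix ix_str qf seto)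

/-- The probabilities of similar events. -/
theorem diff_le {Ω : Type} [MeasurableSpace Ω] (μ : Measure Ω) [IsProbabilityMeasure μ]
    (A B : Set Ω) :
    |μ.real A - μ.real B| ≤ μ.real {x | ¬ (x ∈ A ↔ x ∈ B)} := by
  have h1 : {x | ¬ (x ∈ A ↔ x ∈ B)} = (A \ B) ∪ (B \ A) := by
    ext x
    simp only [Set.mem_ofPred_eq, mem_union, Set.mem_sdiff]
    tauto
  rw [h1]
  have h2 : μ.real A ≤ μ.real B + μ.real ((A \ B) ∪ (B \ A)) := by
    refine le_trans (measureReal_mono ?_) (measureReal_union_le _ _)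
    intro x hx
    by_cases h : x ∈ B
    · exact Or.inl h
    · exact Or.inr (Or.inl ⟨hx, h⟩)
  have h3 : μ.real B ≤ μ.real A + μ.real ((A \ B) ∪ (B \ A)) := by
    refine le_trans (measureReal_mono ?_) (measureReal_union_le _ _)
    intro x hx
    by_cases h : x ∈ A
    · exact Or.inl h
    · exact Or.inr (Or.inr ⟨hx, h⟩)
  rw [abs_le]
  constructor <;> linarith

theorem mix2 (Φ : Par2) (j : ℕ) (ω e τ : Om) :
    mixP (Old Φ j ∪ (Sc Φ j)ᶜ) (mixP (Gs Φ j) ω e) τ = mixP (Gs Φ j) ω (mixP (Sc Φ j)ᶜ e τ) := by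
  funext a
  by_cases h1 : a ∈ Gs Φ j
  · have h2 : a ∈ Old Φ j ∪ (Sc Φ j)ᶜ := by
      rcases h1 with h | ⟨h3, h4, _⟩
      · exact Or.inl h
      · refine Or.inr fun h => ?_
        rcases h with h | h
        · rw [h3] at h
          exact absurd h (by decide)
        · omega
    rw [mixP_pos h2, mixP_pos h1, mixP_pos h1]
  · rw [mixP_neg h1]
    by_cases h2 : a ∈ (Sc Φ j)ᶜ
    · rw [mixP_pos (Or.inr h2), mixP_neg h1, mixP_pos h2]
    · rw [mixP_neg h2]
      refine mixP_neg ?_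
      rintro (h | h)
      · exact h1 (old_gs Φ j h)
      · exact h2 h

theorem ans_set {Φ : Par2} {j t i : ℕ} {h : Hist} (hK : Gd Φ h.1) (hi : i < (Pt Φ j).K)
    (ω τ : Om) (ht : t ∈ Wd Φ j) :
    ans Φ j (seto h j i) τ t ↔ ans Φ j (setf Φ j h ω i) τ t := by
  refine accl Φ j t _ _ τ τ ht (fun _ _ => rfl) (gd_update hK hi) (fun i' hi' => ?_)
    fun _ _ => rfl
  show h.2 i' = Function.update h.2 j _ i'
  rw [Function.update_of_ne (by omega)]

/-- The mean entropy of an answer given the coins known at the stage. -/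
theorem ent {Φ : Par2} {j t : ℕ} {h : Hist} (hK : Gd Φ h.1) {ω : Om} (ht : t ∈ Wd Φ j)
    (hpd : ∀ i < (Pt Φ j).K, pd Φ j h ω i ≤ dl Φ j) :
    ∑ i ∈ Finset.range (Pt Φ j).K, (Pt Φ j).pv i * Real.binEntropy (pa Φ j h ω t i) ≤
      ((Pt Φ j).a * Real.log 2 + 1 / ((j : ℝ) + 1)) + 1 / ((av j : ℝ) + 1) := by
  have hv0 : (0 : ℝ) < 1 / ((av j : ℝ) + 1) := by positivity
  rcases hty : ty Φ j with _ | _
  · -- type `A`
    have hdl : 0 ≤ dl Φ j := by
      unfold dl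
      exact div_nonneg (md_pos _).le (by positivity)
    have mA : ∀ i < (Pt Φ j).K, MeasurableSet {τ | ans Φ j (setf Φ j h ω i) τ t} := fun i hi =>
      fd (oldfin Φ (j + 1)) fun τ τ' hτ => accl Φ j t _ _ τ τ' ht (fun _ _ => rfl)
        (gd_update hK hi) (fun _ _ => rfl) hτ
    have mM : ∀ i < (Pt Φ j).K, MeasurableSet {τ | ansM Φ j (setf Φ j h ω i) τ t} := fun i hi =>
      fd (lwfin Φ _) fun τ τ' hτ => accm Φ j t _ _ τ τ' ht (fun _ _ => rfl)
        (gd_update hK hi) (fun _ _ => rfl) hτ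
    have m1 : Measurable fun τ => mixP (Gs Φ j) ω τ :=
      (mixP_meas (Gs Φ j)).comp (measurable_const.prodMk measurable_id)
    have mS : ∀ i < (Pt Φ j).K, MeasurableSet {τ | ¬ (ans Φ j (setf Φ j h ω i)
        (mixP (Gs Φ j) ω τ) t ↔ ansM Φ j (setf Φ j h ω i) (mixP (Gs Φ j) ω τ) t)} := by
      intro i hi
      have h1 : {τ | ¬ (ans Φ j (setf Φ j h ω i)
        (mixP (Gs Φ j) ω τ) t ↔ ansM Φ j (setf Φ j h ω i) (mixP (Gs Φ j) ω τ) t)} =
          (fun τ => mixP (Gs Φ j) ω τ) ⁻¹'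
            (({τ | ans Φ j (setf Φ j h ω i) τ t} \ {τ | ansM Φ j (setf Φ j h ω i) τ t}) ∪
              ({τ | ansM Φ j (setf Φ j h ω i) τ t} \ {τ | ans Φ j (setf Φ j h ω i) τ t})) := by
        ext τ
        simp only [Set.mem_ofPred_eq, Set.mem_preimage, mem_union, Set.mem_sdiff]
        tauto
      rw [h1]
      exact m1 (((mA i hi).diff (mM i hi)).union ((mM i hi).diff (mA i hi)))
    have hS : ∀ i < (Pt Φ j).K, (coin Φ).real {τ | ¬ (ans Φ j (setf Φ j h ω i)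
        (mixP (Gs Φ j) ω τ) t ↔ ansM Φ j (setf Φ j h ω i) (mixP (Gs Φ j) ω τ) t)} ≤ dl Φ j := by
      intro i hi
      refine le_trans (measureReal_mono ?_) (hpd i hi)
      intro τ hτ
      exact ⟨hty, t, ht, hτ⟩
    refine mixent (coin Φ) (Pt Φ j).pv0 (Pt Φ j).pv1 (fun i => pa Φ j h ω t i)
      (fun i e => (coin Φ).real {τ | ans Φ j (seto h j i)
        (mixP (Old Φ j ∪ (Sc Φ j)ᶜ) (mixP (Gs Φ j) ω e) τ) t})
      (fun i e => (coin Φ).real {τ | mixP (Sc Φ j)ᶜ e τ ∈ ({τ | ¬ (ans Φ j (setf Φ j h ω i)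
        (mixP (Gs Φ j) ω τ) t ↔ ansM Φ j (setf Φ j h ω i) (mixP (Gs Φ j) ω τ) t)} : Set Om)})
      hdl ?_ ?_ ?_ ?_ ?_ ?_ ?_
    · intro i _
      exact ⟨by unfold pa; exact measureReal_nonneg, by unfold pa; exact measureReal_le_one⟩
    · intro i _ e
      exact ⟨measureReal_nonneg, measureReal_le_one⟩
    · intro i hi
      have h1 := measurable_measure_prodMk_left (ν := coin Φ)
        ((mixP_meas (Sc Φ j)ᶜ) (mS i hi))
      exact h1.ennreal_toReal
    · intro i hi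
      have h1 := lint_mix Φ (p := (Sc Φ j)ᶜ) (mS i hi) (H := fun _ => 1) measurable_const
        (fun _ _ _ => rfl)
      simp only [one_mul, lintegral_const, Measure.restrict_apply, MeasurableSet.univ,
        Set.univ_inter] at h1
      have h2 : ∫⁻ e, ENNReal.ofReal ((coin Φ).real {τ | mixP (Sc Φ j)ᶜ e τ ∈
          ({τ | ¬ (ans Φ j (setf Φ j h ω i) (mixP (Gs Φ j) ω τ) t ↔
            ansM Φ j (setf Φ j h ω i) (mixP (Gs Φ j) ω τ) t)} : Set Om)}) ∂(coin Φ) =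
          ∫⁻ e, coin Φ {τ | mixP (Sc Φ j)ᶜ e τ ∈
          ({τ | ¬ (ans Φ j (setf Φ j h ω i) (mixP (Gs Φ j) ω τ) t ↔
            ansM Φ j (setf Φ j h ω i) (mixP (Gs Φ j) ω τ) t)} : Set Om)} ∂(coin Φ) :=
        lintegral_congr fun e => by
          rw [Measure.real, ENNReal.ofReal_toReal (measure_ne_top _ _)]
      rw [h2, ← h1]
      have h3 := hS i hi
      rw [Measure.real] at h3
      exact (ENNReal.le_ofReal_iff_toReal_le (measure_ne_top _ _) hdl).2 h3
    · intro i hi e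
      have e1 : pa Φ j h ω t i = (coin Φ).real ((fun τ => mixP (Gs Φ j) ω τ) ⁻¹'
          {τ | ans Φ j (setf Φ j h ω i) τ t}) := by
        unfold pa
        congr 1
        ext τ
        exact ans_set hK hi ω _ ht
      have m2 : Measurable fun τ => mixP (Gs Φ j) ω (mixP (Sc Φ j)ᶜ e τ) :=
        m1.comp ((mixP_meas (Sc Φ j)ᶜ).comp (measurable_const.prodMk measurable_id))
      have e2 : (coin Φ).real {τ | ans Φ j (seto h j i)
          (mixP (Old Φ j ∪ (Sc Φ j)ᶜ) (mixP (Gs Φ j) ω e) τ) t} =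
          (coin Φ).real ((fun τ => mixP (Gs Φ j) ω (mixP (Sc Φ j)ᶜ e τ)) ⁻¹'
          {τ | ans Φ j (setf Φ j h ω i) τ t}) := by
        congr 1
        ext τ
        show ans Φ j (seto h j i) (mixP (Old Φ j ∪ (Sc Φ j)ᶜ) (mixP (Gs Φ j) ω e) τ) t ↔ _
        rw [mix2]
        exact ans_set hK hi ω _ ht
      have e3 : (fun τ => mixP (Gs Φ j) ω τ) ⁻¹' {τ | ansM Φ j (setf Φ j h ω i) τ t} =
          (fun τ => mixP (Gs Φ j) ω (mixP (Sc Φ j)ᶜ e τ)) ⁻¹'
            {τ | ansM Φ j (setf Φ j h ω i) τ t} := by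
        ext τ
        refine accm Φ j t _ _ _ _ ht (fun _ _ => rfl) (gd_update hK hi) (fun _ _ => rfl) ?_
        intro a ha
        show mixP (Gs Φ j) ω τ a = mixP (Gs Φ j) ω (mixP (Sc Φ j)ᶜ e τ) a
        by_cases h1 : a ∈ Gs Φ j
        · rw [mixP_pos h1, mixP_pos h1]
        · rw [mixP_neg h1, mixP_neg h1]
          have h2 : a ∉ (Sc Φ j)ᶜ := by
            intro h3
            refine h1 (Or.inr ⟨hty, ?_, ha⟩)
            have h4 : ¬ (ty Φ j = true ∨ a.1 % 2 = 1) := h3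
            push Not at h4
            omega
          rw [mixP_neg h2]
      have d1 := diff_le (coin Φ) ((fun τ => mixP (Gs Φ j) ω τ) ⁻¹'
        {τ | ans Φ j (setf Φ j h ω i) τ t}) ((fun τ => mixP (Gs Φ j) ω τ) ⁻¹'
        {τ | ansM Φ j (setf Φ j h ω i) τ t})
      have d2 := diff_le (coin Φ) ((fun τ => mixP (Gs Φ j) ω (mixP (Sc Φ j)ᶜ e τ)) ⁻¹'
        {τ | ansM Φ j (setf Φ j h ω i) τ t}) ((fun τ => mixP (Gs Φ j) ω (mixP (Sc Φ j)ᶜ e τ)) ⁻¹'
        {τ | ans Φ j (setf Φ j h ω i) τ t})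
      rw [← e1] at d1
      rw [← e2, ← e3] at d2
      have d3 := hS i hi
      have d4 : {x | ¬ (x ∈ (fun τ => mixP (Gs Φ j) ω (mixP (Sc Φ j)ᶜ e τ)) ⁻¹'
          {τ | ansM Φ j (setf Φ j h ω i) τ t} ↔
          x ∈ (fun τ => mixP (Gs Φ j) ω (mixP (Sc Φ j)ᶜ e τ)) ⁻¹'
          {τ | ans Φ j (setf Φ j h ω i) τ t})} =
          {τ | mixP (Sc Φ j)ᶜ e τ ∈ ({τ | ¬ (ans Φ j (setf Φ j h ω i)
        (mixP (Gs Φ j) ω τ) t ↔ ansM Φ j (setf Φ j h ω i) (mixP (Gs Φ j) ω τ) t)} : Set Om)} := by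
        ext τ
        exact not_congr Iff.comm
      rw [← d4, ← e3]
      have d5 : (coin Φ).real {x | ¬ (x ∈ (fun τ => mixP (Gs Φ j) ω τ) ⁻¹'
          {τ | ans Φ j (setf Φ j h ω i) τ t} ↔
          x ∈ (fun τ => mixP (Gs Φ j) ω τ) ⁻¹' {τ | ansM Φ j (setf Φ j h ω i) τ t})} ≤ dl Φ j :=
        d3
      have d6 := abs_sub_le (pa Φ j h ω t i)
        ((coin Φ).real ((fun τ => mixP (Gs Φ j) ω τ) ⁻¹' {τ | ansM Φ j (setf Φ j h ω i) τ t}))
        ((coin Φ).real {τ | ans Φ j (seto h j i)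
          (mixP (Old Φ j ∪ (Sc Φ j)ᶜ) (mixP (Gs Φ j) ω e) τ) t})
      linarith
    · intro e
      exact uni Φ j t h _ ht hK
    · intro p q hp hq hpq
      refine md_spec (av j) hp hq (hpq.trans (le_of_eq ?_))
      unfold dl
      have : ((Pt Φ j).K : ℝ) + 1 ≠ 0 := by positivity
      field_simp
  · -- type `B`
    have h1 : Gs Φ j = Old Φ j ∪ (Sc Φ j)ᶜ := by
      ext a
      constructor
      · rintro (h | ⟨h, _⟩)
        · exact Or.inl h
        · rw [hty] at h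
          exact absurd h (by decide)
      · rintro (h | h)
        · exact Or.inl h
        · exact absurd (Or.inl hty) h
    have h2 := uni Φ j t h ω ht hK
    rw [← h1] at h2
    unfold pa
    linarith

theorem stg : T_STG := by
  intro Φ j ω
  refine ⟨best_lt _ _ _ _, ?_⟩
  by_cases hx : ∃ i < (Pt Φ j).K, dl Φ j ≤ pd Φ j (hs Φ ω j) ω i
  · left
    unfold best
    rw [dif_pos hx]
    exact hx.choose_spec.2
  · right
    have hex : ∃ i < (Pt Φ j).K, He Φ j (hs Φ ω j) ω i ≤ hB Φ j := by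
      refine exists_opt (Pt Φ j).pv0 (Pt Φ j).pv1 ?_
      push Not at hx
      unfold He
      simp only [Finset.mul_sum]
      rw [Finset.sum_comm]
      have hc : 0 ≤ (Pt Φ j).a * Real.log 2 + 1 / ((j : ℝ) + 1) + 1 / ((av j : ℝ) + 1) := by
        have h1 := (Pt Φ j).a0
        have h2 : 0 < Real.log 2 := Real.log_pos (by norm_num)
        positivity
      calc ∑ t ∈ Wd Φ j, ∑ i ∈ Finset.range (Pt Φ j).K,
            (Pt Φ j).pv i * Real.binEntropy (pa Φ j (hs Φ ω j) ω t i)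
          ≤ ∑ t ∈ Wd Φ j, ((Pt Φ j).a * Real.log 2 + 1 / ((j : ℝ) + 1) +
              1 / ((av j : ℝ) + 1)) :=
            Finset.sum_le_sum fun t ht => ent (gd_hs Φ ω j) ht fun i hi => (hx i hi).le
        _ = (Wd Φ j).card * ((Pt Φ j).a * Real.log 2 + 1 / ((j : ℝ) + 1) +
              1 / ((av j : ℝ) + 1)) := by
            rw [Finset.sum_const, nsmul_eq_mul]
        _ ≤ 2 ^ (nn Φ j + j) * ((Pt Φ j).a * Real.log 2 + 1 / ((j : ℝ) + 1) +
              1 / ((av j : ℝ) + 1)) := by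
            refine mul_le_mul_of_nonneg_right ?_ hc
            have : (Wd Φ j).card ≤ 2 ^ (nn Φ j + j) := by
              unfold Wd
              rw [Nat.card_Ico]
              exact Nat.sub_le _ _
            exact_mod_cast this
        _ = hB Φ j := by rw [hB, mul_comm]
    unfold best
    rw [dif_neg hx, dif_pos hex]
    exact hex.choose_spec.2

end Pool.Agent.RelV
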