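import Pool.Agent.RelV.Core

/-!
# The targets of the jobs
-/

set_option autoImplicit false

namespace Pool.Agent.RelV

open MeasureTheory Set
open scoped ENNReal
open Pool.Agent.RelM (Lang Instr Cfg step run Halts Decides E1 E2 NP pair triple binVal outVal
  Approx IsDensity str pre IsNullCover Null1 Null2 wq sq0 sq1 Asks hq qb)
open Pool.Agent.RelO (lev IsGale IsGaleCover GaleNull1 GaleNull2 st)
open Pool.Agent.RelS (Z Rl orcV orc acc Idx Om bern bern_prob Dep mixP gf PF Low)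
open Pool.Agent.RelT (Par Hist md md_pos md_spec ix ix_str qf seto)

/-! ## Stages and histories (job NN) -/

def T_NNMONO : Prop := ∀ Φ : Par2, StrictMono (nn Φ)

def T_NNGE : Prop := ∀ (Φ : Par2) (j : ℕ), j + 2 ≤ nn Φ j

def T_NNB : Prop := ∀ (Φ : Par2) (j : ℕ), 2 * Bd Φ + 2 ≤ nn Φ j

/-- The near levels. -/
def T_NU : Prop := ∀ (Φ : Par2) (j : ℕ),
  nn Φ j + j < nu j (nn Φ j) ∧ nu j (nn Φ j) < nn Φ (j + 1) ∧ nu j (nn Φ j) ≤ nn Φ j ^ 2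

def T_JJ : Prop := ∀ (Φ : Par2) (m : ℕ), m < nn Φ (jj Φ m) ∧ ∀ j, j < jj Φ m → nn Φ j ≤ m

def T_LWFIN : Prop := ∀ (Φ : Par2) (m : ℕ), (Lw Φ m).Finite

def T_GSOLD : Prop := ∀ (Φ : Par2) (j : ℕ), Gs Φ j ⊆ Old Φ (j + 1)

/-- The history before stage `j + 1` depends only on the coins known at stage `j`. -/
def T_HSDEP : Prop := ∀ (Φ : Par2) (j : ℕ) (ω ω' : Om), (∀ a ∈ Gs Φ j, ω a = ω' a) →
  hs Φ ω (j + 1) = hs Φ ω' (j + 1)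

/-- The options and the probabilities before stage `m` are final. -/
def T_HSVAL : Prop := ∀ (Φ : Par2) (ω : Om) (m : ℕ),
  (∀ j, j ≤ m → (hs Φ ω m).1 j = (hf Φ ω).1 j) ∧ ∀ j, j < m → (hs Φ ω m).2 j = (hf Φ ω).2 j

/-- Options of stages are less than `K`. -/
def T_OPT : Prop := ∀ (Φ : Par2) (ω : Om) (m j : ℕ), (hs Φ ω m).1 (j + 1) < (Pt Φ j).K

/-- A history whose options are good. -/
def Gd (Φ : Par2) (o : ℕ → ℕ) : Prop := ∀ j, o (j + 1) < (Pt Φ j).K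

/-- Coin options of good histories. -/
def T_OC : Prop := ∀ (Φ : Par2) (o : ℕ → ℕ) (κ m : ℕ) (x : List Bool), Gd Φ o →
  oc Φ o κ m < KK Φ ∧ it Φ κ x (oc Φ o κ m) ≤ Bd Φ

/-- The bits of the supergales depend only on the stages that can be read (job DENT). -/
def T_BLOC : Prop := ∀ (Φ : Par2) (η η' : ℕ → ℕ → ℝ) (u : List Bool),
  (∀ j, 2 ^ nn Φ j ≤ u.length → η j = η' j) → bitsOf Φ η u = bitsOf Φ η' u

/-! ## Finding a hidden key (jobs HIT, MHIT) -/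

/-- A machine that runs for `τ` steps on an input that depends only on the visible coins finds no
hidden key. -/
def T_HIT : Prop := ∀ (Φ : Par2) (κ t : ℕ) (Pr : List Instr) (X : Om → List Bool) (τ : ℕ),
  nn Φ 0 ≤ lev κ (str t) → Dep (Vis Φ κ t) X →
  (∀ ω, (X ω).length + τ < 2 ^ le Φ κ t) →
  coin Φ {ω | ∃ s ≤ τ, run (oo Φ ω) Pr (X ω) s ≠ run (ov Φ κ t ω) Pr (X ω) s}
    ≤ τ * (2⁻¹ : ℝ≥0∞) ^ (le Φ κ t / 2)

/-- Almost surely the machines for `E` of all late stages of type `A` find no far key. -/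
def T_MHIT : Prop := ∀ Φ : Par2, ∀ᵐ ω ∂(coin Φ), ∃ j₀, ∀ j, j₀ ≤ j → ty Φ j = false →
  ∀ t ∈ Wd Φ j, run (oo Φ ω) (mM j).1 (str t) (2 ^ ((mM j).2 * ((str t).length + 1))) =
    run (ovM Φ j (hs Φ ω (j + 1)) ω) (mM j).1 (str t) (2 ^ ((mM j).2 * ((str t).length + 1)))

/-! ## The probability of a bit (job FAIR) -/

/-- Given the visible coins, the word number `t` has no key with the probability `rt Φ κ t`. -/
def T_FAIR : Prop := ∀ (Φ : Par2) (κ t : ℕ) (H : Om → ℝ≥0∞) (b : Bool),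
  nn Φ 0 ≤ lev κ (str t) → Measurable H → Dep (Vis Φ κ t) H →
  ∫⁻ ω in {ω | Rl (zo Φ ω) κ (str t) = b}, H ω ∂(coin Φ) =
    ∫⁻ ω, ENNReal.ofReal (if b = false then rt Φ κ t ω else 1 - rt Φ κ t ω) * H ω ∂(coin Φ)

/-! ## The mean entropy (job CNT) -/

/-- The mean entropy of the family `κ`. -/
noncomputable def hd (Φ : Par2) (κ : ℕ) : ℝ :=
  (if κ % 2 = 1 then Φ.A.a else Φ.B.a) * Real.log 2 - 1 / ((κ : ℝ) + 1)

def T_CNT : Prop := ∀ (Φ : Par2) (κ : ℕ) (ε : ℝ), 0 < ε → ∃ C : ℝ, ∀ (t : ℕ) (ω : Om),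
  (hd Φ κ - ε) * t - C ≤ ∑ t' ∈ Finset.range t, Real.binEntropy (rt Φ κ t' ω)

/-! ## The hidden languages are not covered (jobs NONNULL, FAST) -/

/-- The effective level. -/
noncomputable def me (κ t : ℕ) : ℕ :=
  if κ % 2 = 1 then lev κ (str t) else Nat.sqrt (lev κ (str t))

/-- The time bound `T` is small compared with the lengths of the keys of the family `κ`. -/
def Fast (κ : ℕ) (T : ℕ → ℕ) : Prop := ∀ c : ℕ, ∃ t₀ : ℕ, ∀ t, t₀ ≤ t → ∀ l, l ≤ c * (t + 1) →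
  l + T l < 2 ^ me κ t ∧ 4 * (t + 1) ^ 2 * T l ≤ 2 ^ (me κ t / 2)

def T_NONNULL : Prop := ∀ (Φ : Par2) (κ : ℕ) (Pr : List Instr) (T : ℕ → ℕ) (s : ℝ),
  s * Real.log 2 < hd Φ κ → Fast κ T →
  ∀ᵐ ω ∂(coin Φ), ¬ ∃ d : ℕ → List Bool → ℝ,
    IsGaleCover s d {Rl (zo Φ ω) κ} ∧ Approx (oo Φ ω) Pr T d

/-- With free pairs only there is no null cover by density functions. -/
def T_NONNULLD : Prop := ∀ (Φ : Par2) (κ : ℕ) (Pr : List Instr) (T : ℕ → ℕ),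
  Φ.oA = true → κ % 2 = 0 → Fast κ T →
  ∀ᵐ ω ∂(coin Φ), ¬ ∃ d : ℕ → List Bool → ℝ,
    IsNullCover d {Rl (zo Φ ω) κ} ∧ Approx (oo Φ ω) Pr T d

/-- Polynomial time is small compared with the keys of the odd families. -/
def T_FAST1 : Prop := ∀ c : ℕ, ∃ κ₀, ∀ κ, κ₀ ≤ κ → κ % 2 = 1 → Fast κ (fun l => (l + 2) ^ c)

/-- Quasi-polynomial time is small compared with the keys of the even families. -/
def T_FAST2 : Prop := ∀ c : ℕ, ∃ κ₀, ∀ κ, κ₀ ≤ κ → κ % 2 = 0 →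
  Fast κ (fun l => 2 ^ ((Nat.log 2 l + 2) ^ c))

/-! ## The lower half (job LOW) -/

def T_LOW : Prop := ∀ Φ : Par2, ∀ᵐ ω ∂(coin Φ),
  (∀ s : ℝ, s < Φ.A.a → ¬ GaleNull1 s (oo Φ ω) (NP (oo Φ ω) ∩ E1 (oo Φ ω))) ∧
  (∀ s : ℝ, s < Φ.B.a → ¬ GaleNull2 s (oo Φ ω) (NP (oo Φ ω) ∩ E2 (oo Φ ω))) ∧
  (Φ.oA = true → ¬ Null2 (oo Φ ω) (NP (oo Φ ω) ∩ E2 (oo Φ ω)))

/-! ## The covering side -/

/-- The answer of the nondeterministic machine of stage `j` on a word of stage `j` depends only on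
the coins that are old at stage `j + 1`, on the options up to stage `j + 1` and on the
probabilities before stage `j` (job ACC). -/
def T_ACC : Prop := ∀ (Φ : Par2) (j t : ℕ) (h h' : Hist) (ω ω' : Om), t ∈ Wd Φ j →
  (∀ i, i ≤ j + 1 → h.1 i = h'.1 i) → Gd Φ h.1 → (∀ i, i < j → h.2 i = h'.2 i) →
  (∀ a ∈ Old Φ (j + 1), ω a = ω' a) → (ans Φ j h ω t ↔ ans Φ j h' ω' t)

/-- The answer of the machine for `E` when the far keys are hidden (job ACC). -/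
def T_ACCM : Prop := ∀ (Φ : Par2) (j t : ℕ) (h h' : Hist) (ω ω' : Om), t ∈ Wd Φ j →
  (∀ i, i ≤ j + 1 → h.1 i = h'.1 i) → Gd Φ h.1 → (∀ i, i ≤ j → h.2 i = h'.2 i) →
  (∀ a ∈ Lw Φ (nu j (nn Φ j)), ω a = ω' a) → (ansM Φ j h ω t ↔ ansM Φ j h' ω' t)

/-- The coins whose laws depend on the option of stage `j`. -/
def Sc (Φ : Par2) (j : ℕ) : Set Idx := {a | ty Φ j = true ∨ a.1 % 2 = 1}

/-- The mean entropy of an answer when the coins of the set `F` are known (job UNI). -/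
def T_UNI : Prop := ∀ (Φ : Par2) (j t : ℕ) (h : Hist) (ω : Om), t ∈ Wd Φ j → Gd Φ h.1 →
  ∑ i ∈ Finset.range (Pt Φ j).K, (Pt Φ j).pv i * Real.binEntropy
    ((coin Φ).real {τ | ans Φ j (seto h j i) (mixP (Old Φ j ∪ (Sc Φ j)ᶜ) ω τ) t}) ≤
    (Pt Φ j).a * Real.log 2 + 1 / ((j : ℝ) + 1)

/-- The best option (job STG). -/
def T_STG : Prop := ∀ (Φ : Par2) (j : ℕ) (ω : Om),
  best Φ j (hs Φ ω j) ω < (Pt Φ j).K ∧
  (dl Φ j ≤ pd Φ j (hs Φ ω j) ω (best Φ j (hs Φ ω j) ω) ∨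
    He Φ j (hs Φ ω j) ω (best Φ j (hs Φ ω j) ω) ≤ hB Φ j)

/-- The language of the nondeterministic machine of stage `j`. -/
noncomputable def Lj (Φ : Par2) (j : ℕ) (ω : Om) : Lang := by
  classical exact fun x => decide (acc (oo Φ ω) (mN j) x)

/-- Infinitely often the two machines differ or the gambler succeeds (job IO). -/
def T_IO : Prop := ∀ (Φ : Par2) (e : ℕ) (δ : ℝ), 4 / ((((cde e).2.2.1 : ℕ) : ℝ) + 1) ≤ δ →
  ∀ᵐ ω ∂(coin Φ), ∀ m : ℕ, ∃ j, m ≤ j ∧ st j = e ∧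
  (Dif Φ j (hs Φ ω (j + 1)) ω ∨
  Real.exp (-(((Pt Φ j).a * Real.log 2 + δ) * 2 ^ (nn Φ j + j) + 2 ^ nn Φ j)) ≤
    Pw Φ (hf Φ ω).2 j (pre (Lj Φ j ω) (2 ^ (nn Φ j + j))))

/-- The upper half (job UPP). -/
def T_UPP : Prop := ∀ Φ : Par2, ∀ᵐ ω ∂(coin Φ),
  (∀ s : ℝ, Φ.A.a < s → GaleNull1 s (oo Φ ω) (NP (oo Φ ω) ∩ E1 (oo Φ ω))) ∧
  (Φ.oA = false → ∀ s : ℝ, Φ.B.a < s →
    GaleNull1 s (oo Φ ω) (NP (oo Φ ω)) ∧ GaleNull2 s (oo Φ ω) (NP (oo Φ ω)))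

/-- The theorem. -/
def T_MAIN : Prop := ∀ a b : ℝ, 0 ≤ a → a ≤ b → b ≤ 1 →
  (∃ O : Lang,
    (∀ s : ℝ, a < s → GaleNull1 s O (NP O ∩ E1 O)) ∧
    (∀ s : ℝ, s < a → ¬ GaleNull1 s O (NP O ∩ E1 O)) ∧
    (∀ s : ℝ, b < s → GaleNull1 s O (NP O) ∧ GaleNull2 s O (NP O)) ∧
    (∀ s : ℝ, s < b → ¬ GaleNull2 s O (NP O ∩ E2 O))) ∧
  (∃ O : Lang,
    (∀ s : ℝ, a < s → GaleNull1 s O (NP O ∩ E1 O)) ∧
    (∀ s : ℝ, s < a → ¬ GaleNull1 s O (NP O ∩ E1 O)) ∧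
    ¬ Null2 O (NP O ∩ E2 O))

end Pool.Agent.RelV
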