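import Pool.Agent.RelV.IO
import Pool.Agent.RelV.DOUB
import Pool.Agent.RelT.UPP

/-!
# The dimension in `E` is at most `a`, the dimension in `E_2` is at most `b`
-/

set_option autoImplicit false

namespace Pool.Agent.RelV

open MeasureTheory Set
open scoped ENNReal
open Pool.Agent.RelM (Lang Instr Cfg run Halts Decides NP E1 E2 Approx IsDensity IsNullCover Null1
  Null2 pair triple str pre hq wq sq0 sq1 Asks qb)
open Pool.Agent.RelO (lev st IsGale IsGaleCover GaleNull1 GaleNull2)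
open Pool.Agent.RelS (Z Rl orcV orc acc Idx Om Dep mixP gf PF Low)
open Pool.Agent.RelT (Par Hist md md_pos md_spec ix ix_str qf seto mg mg_pos)

theorem oo_tt (Φ : Par2) (ω : Om) (u : List Bool) :
    oo Φ ω (true :: true :: u) = bitsOf Φ (hf Φ ω).2 u := Pool.Agent.RelS.ott _ _ _ _

/-- The supergales can be computed in polynomial time. -/
theorem appr : ∃ (P : List Instr) (c : ℕ), ∀ (Φ : Par2) (ω : Om),
    Approx (oo Φ ω) P (fun l => (l + 2) ^ c) (dd Φ (hf Φ ω).2) := by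
  obtain ⟨P, c, h⟩ := Pool.Agent.RelM.read Pool.Agent.RelM.stay
  refine ⟨P, c, fun Φ ω k r w => ?_⟩
  have h1 := h (oo Φ ω) (num Φ (hf Φ ω).2)
    (fun j k r w => by rw [oo_tt]; exact (bits Φ (hf Φ ω).2 j k r w).1)
    (fun j k r w => by rw [oo_tt]; exact (bits Φ (hf Φ ω).2 j k r w).2.1)
    (fun j k r w => by rw [oo_tt]; exact (bits Φ (hf Φ ω).2 j k r w).2.2)
    (fun k r w => (numok Φ (hf Φ ω).2 k r w).1) k r w
  refine ⟨h1.1, ?_⟩
  rw [h1.2]
  exact (numok Φ (hf Φ ω).2 k r w).2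

/-- The dimension of the family `b` of supergales. -/
noncomputable def al (Φ : Par2) (b : Bool) : ℝ := if b = true then Φ.B.a else Φ.A.a

theorem sK_eq (Φ : Par2) (b : Bool) (k : ℕ) :
    sK Φ (2 * k + b.toNat) = al Φ b + 1 / ((k : ℝ) + 1) := by
  unfold sK al
  cases b
  · have h1 : (2 * k + false.toNat) % 2 = 0 := by simp
    have h2 : (2 * k + false.toNat) / 2 = k := by simp
    rw [if_pos h1, h2]
    simp
  · have h1 : ¬ (2 * k + true.toNat) % 2 = 0 := by simp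
    have h2 : (2 * k + true.toNat) / 2 = k := by
      simp only [Bool.toNat_true]
      omega
    rw [if_neg h1, h2]
    simp

/-- The supergale number `k` of the family `b` is large on a language. -/
theorem covk {Φ : Par2} {η : ℕ → ℕ → ℝ} {b : Bool} {k : ℕ} {A : Lang}
    (hA : ∀ m : ℕ, ∃ j, m ≤ j ∧
      Real.exp (-((al Φ b * Real.log 2 + mg k) * 2 ^ (nn Φ j + j) + 2 ^ nn Φ j)) ≤
        Pw Φ η j (pre A (2 ^ (nn Φ j + j)))) :
    ∃ N, 1 ≤ dd Φ η (2 * k + b.toNat) (pre A N) := by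
  obtain ⟨n, hn⟩ := Pool.Agent.RelS.NN_.exp_bound 1 (8 * (k + 1) * (k + 1)) 0
  obtain ⟨j, hjn, hlow⟩ := hA n
  have hj2 : 4 * (k + 1) * (2 * k + j + 3) ≤ 2 ^ j := by
    have h1 := hn j hjn
    rw [pow_one] at h1
    have h2 : 2 * k + j + 3 ≤ 2 * (k + 1) * (j + 2) := by nlinarith
    calc 4 * (k + 1) * (2 * k + j + 3) ≤ 4 * (k + 1) * (2 * (k + 1) * (j + 2)) := by gcongr
      _ = 8 * (k + 1) * (k + 1) * (j + 0 + 2) := by ring
      _ ≤ 2 ^ j := by omega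
  refine ⟨2 ^ (nn Φ j + j), ?_⟩
  have hjN : j < (pre A (2 ^ (nn Φ j + j))).length := by
    rw [pre_length]
    have h1 : nn Φ j + j < 2 ^ (nn Φ j + j) := Nat.lt_two_pow_self
    omega
  refine le_trans ?_ (dlow Φ η (2 * k + b.toNat) j _ hjN)
  rw [pre_length]
  obtain ⟨K, hK⟩ : ∃ K, K = 2 * k + b.toNat := ⟨_, rfl⟩
  have hKle : (K : ℝ) ≤ 2 * k + 1 := by
    have h1 : K ≤ 2 * k + 1 := by
      rw [hK]
      cases b <;> simp
    exact_mod_cast h1
  have hsK : sK Φ K = al Φ b + 1 / ((k : ℝ) + 1) := by rw [hK, sK_eq]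
  rw [← hK]
  obtain ⟨a, ha⟩ : ∃ a, a = al Φ b := ⟨_, rfl⟩
  rw [← ha] at hsK hlow
  obtain ⟨L, hL⟩ : ∃ L, L = Real.log 2 := ⟨_, rfl⟩
  have hL1 : 1 / 2 ≤ L := by rw [hL]; linarith [Real.log_two_gt_d9]
  have hL2 : L ≤ 1 := by rw [hL]; linarith [Real.log_two_lt_d9]
  obtain ⟨M, hM⟩ : ∃ M : ℝ, M = 2 ^ nn Φ j := ⟨_, rfl⟩
  have hM1 : 1 ≤ M := by rw [hM]; exact one_le_pow₀ (by norm_num)
  have hN : (2 : ℝ) ^ (nn Φ j + j) = M * 2 ^ j := by rw [hM, pow_add]
  have hhalf : ∀ m : ℕ, (1 / 2 : ℝ) ^ m = Real.exp (-(m * L)) := by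
    intro m
    rw [hL, ← mul_neg, Real.exp_nat_mul, Real.exp_neg, Real.exp_log (by norm_num), one_div]
  have hpow : (2 : ℝ) ^ (sK Φ K * ((2 ^ (nn Φ j + j) : ℕ) : ℝ)) =
      Real.exp (L * (sK Φ K * (M * 2 ^ j))) := by
    rw [Real.rpow_def_of_pos (by norm_num), ← hL]
    push_cast
    rw [hN]
  rw [hN, ← hM, ← hL] at hlow
  have hkey : 0 ≤ -(K * L) + L * (sK Φ K * (M * 2 ^ j)) +
      (-(((j + 1 : ℕ) : ℝ) * L) + -((a * L + mg k) * (M * 2 ^ j) + M)) := by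
    have h2 : mg k = L / (2 * ((k : ℝ) + 1)) := by unfold mg; rw [hL]
    have hj3 : 4 * ((k : ℝ) + 1) * (2 * k + j + 3) ≤ 2 ^ j := by exact_mod_cast hj2
    rw [hsK, h2]
    have hk : (0 : ℝ) < (k : ℝ) + 1 := by positivity
    have h3 : L * ((a + 1 / (k + 1)) * (M * 2 ^ j)) -
        (a * L + L / (2 * ((k : ℝ) + 1))) * (M * 2 ^ j) =
        L * M * 2 ^ j / (2 * ((k : ℝ) + 1)) := by
      field_simp
      ring
    have h4 : M * (2 * (k : ℝ) + j + 3) ≤ L * M * 2 ^ j / (2 * ((k : ℝ) + 1)) := by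
      rw [le_div_iff₀ (by positivity)]
      calc M * (2 * (k : ℝ) + j + 3) * (2 * (k + 1)) =
            1 / 2 * M * (4 * (k + 1) * (2 * k + j + 3)) := by
            ring
        _ ≤ L * M * 2 ^ j := by gcongr
    have h5 : ((K : ℝ) + (j + 1)) * L + M ≤ M * (2 * (k : ℝ) + j + 3) := by
      have h6 : ((K : ℝ) + (j + 1)) * L ≤ ((K : ℝ) + (j + 1)) * M :=
        mul_le_mul_of_nonneg_left (hL2.trans hM1) (by positivity)
      have h7 : ((K : ℝ) + (j + 1)) * M ≤ (2 * (k : ℝ) + 1 + (j + 1)) * M :=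
        mul_le_mul_of_nonneg_right (by linarith) (by linarith)
      linarith
    push_cast
    linarith
  calc (1 : ℝ) ≤ Real.exp (-(K * L) + L * (sK Φ K * (M * 2 ^ j)) +
        (-(((j + 1 : ℕ) : ℝ) * L) + -((a * L + mg k) * (M * 2 ^ j) + M))) :=
        Real.one_le_exp hkey
    _ = (1 / 2 : ℝ) ^ K * (2 : ℝ) ^ (sK Φ K * ((2 ^ (nn Φ j + j) : ℕ) : ℝ)) *
        ((1 / 2 : ℝ) ^ (j + 1) * Real.exp (-((a * L + mg k) * (M * 2 ^ j) + M))) := by
        rw [hhalf, hpow, hhalf, ← Real.exp_add, ← Real.exp_add, ← Real.exp_add]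
    _ ≤ _ := by gcongr

/-- Null covers by the supergales of the family `b`. -/
theorem galenull {Φ : Par2} {ω : Om} {b : Bool} {X : Set Lang}
    (hX : ∀ A ∈ X, ∀ k : ℕ, ∃ N, 1 ≤ dd Φ (hf Φ ω).2 (2 * k + b.toNat) (pre A N)) {s : ℝ}
    (hsa : al Φ b < s) : GaleNull1 s (oo Φ ω) X ∧ GaleNull2 s (oo Φ ω) X := by
  obtain ⟨l, hl⟩ := exists_nat_one_div_lt (show (0 : ℝ) < s - al Φ b by linarith)
  have hcov : IsGaleCover s (fun k => dd Φ (hf Φ ω).2 (2 * (k + l) + b.toNat)) X := by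
    intro k
    refine ⟨Pool.Agent.RelO.MAIN_.gale_mono ?_ (dgale Φ (hf Φ ω).2 (2 * (k + l) + b.toNat)),
      ?_, ?_⟩
    · rw [sK_eq]
      have h1 : (1 : ℝ) / (((k + l : ℕ) : ℝ) + 1) ≤ 1 / ((l : ℝ) + 1) := by
        apply one_div_le_one_div_of_le (by positivity)
        push_cast
        linarith [Nat.cast_nonneg (α := ℝ) k]
      linarith
    · refine (dnil Φ (hf Φ ω).2 (2 * (k + l) + b.toNat)).trans ?_
      exact pow_le_pow_of_le_one (by norm_num) (by norm_num) (by omega)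
    · intro A hA
      exact hX A hA (k + l)
  obtain ⟨P, c, hap⟩ := appr
  obtain ⟨P1, c1, hap1⟩ := doub (oo Φ ω) P c b _ (hap Φ ω)
  obtain ⟨P', c', hap'⟩ := Pool.Agent.RelS.shift (oo Φ ω) P1 c1 l _ hap1
  refine ⟨⟨_, hcov, P', c', hap'⟩, ?_⟩
  obtain ⟨c'', hc''⟩ := Pool.Agent.RelO.t12 c'
  exact ⟨_, hcov, P', c'', Pool.Agent.RelO.time _ _ _ _ _ hc'' hap'⟩

/-- If the two machines accept the same language, they do not differ. -/
theorem no_dif {Φ : Par2} {ω : Om} {j : ℕ} {A : Lang}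
    (hN : ∀ x, acc (oo Φ ω) (mN j) x ↔ A x = true)
    (hM : ∀ t ∈ Wd Φ j,
      (run (oo Φ ω) (mM j).1 (str t) (2 ^ ((mM j).2 * ((str t).length + 1)))).st 1 =
        [A (str t)])
    (hH : ∀ t ∈ Wd Φ j, run (oo Φ ω) (mM j).1 (str t) (2 ^ ((mM j).2 * ((str t).length + 1))) =
      run (ovM Φ j (hs Φ ω (j + 1)) ω) (mM j).1 (str t)
        (2 ^ ((mM j).2 * ((str t).length + 1)))) :
    ¬ Dif Φ j (hs Φ ω (j + 1)) ω := by
  rintro ⟨-, t, ht, h⟩
  refine h ?_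
  rw [← truth_iff ω ht]
  unfold Tr ansM
  rw [hN, ← hH t ht, hM t ht]
  simp

theorem upp_of (hMH : T_MHIT) : T_UPP := by
  intro Φ
  have h : ∀ᵐ ω ∂(coin Φ), ∀ e k : ℕ, 4 / ((((cde e).2.2.1 : ℕ) : ℝ) + 1) ≤ mg k →
      ∀ m : ℕ, ∃ j, m ≤ j ∧ st j = e ∧ (Dif Φ j (hs Φ ω (j + 1)) ω ∨
      Real.exp (-(((Pt Φ j).a * Real.log 2 + mg k) * 2 ^ (nn Φ j + j) + 2 ^ nn Φ j)) ≤
        Pw Φ (hf Φ ω).2 j (pre (Lj Φ j ω) (2 ^ (nn Φ j + j)))) := by
    refine ae_all_iff.2 fun e => ae_all_iff.2 fun k => ?_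
    by_cases hk : 4 / ((((cde e).2.2.1 : ℕ) : ℝ) + 1) ≤ mg k
    · filter_upwards [io Φ e (mg k) hk] with ω hω _
      exact hω
    · exact Filter.Eventually.of_forall fun ω h => (hk h).elim
  filter_upwards [h, hMH Φ] with ω hω hH
  obtain ⟨j₀, hj₀⟩ := hH
  have hacc : ∀ k : ℕ, ∃ v : ℕ, 4 / ((v : ℝ) + 1) ≤ mg k := by
    intro k
    obtain ⟨v, hv⟩ := exists_nat_one_div_lt (show (0 : ℝ) < mg k / 4 by
      have := mg_pos k
      positivity)
    refine ⟨v, ?_⟩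
    have h1 : 4 / ((v : ℝ) + 1) = 4 * (1 / ((v : ℝ) + 1)) := by ring
    linarith
  have hL : ∀ {A : Lang} {P : List Instr} {b c j : ℕ}, mN j = (P, b, c) →
      (∀ x, A x = true ↔ ∃ y : List Bool, y.length ≤ (x.length + 2) ^ b ∧
        (run (oo Φ ω) P (pair x y) ((x.length + 2) ^ c)).st 1 = [true]) → Lj Φ j ω = A := by
    intro A P b c j h1 h2
    classical
    funext x
    unfold Lj
    rw [Bool.eq_iff_iff, h2, decide_eq_true_eq, h1]
    rfl
  constructor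
  · intro s hsa
    refine (galenull (b := false) ?_ (by unfold al; simpa using hsa)).1
    rintro A ⟨hA1, hA2⟩ k
    obtain ⟨P, b, c, hP⟩ := hA1
    obtain ⟨M, d, hM⟩ := hA2
    obtain ⟨v, hv⟩ := hacc k
    obtain ⟨e, he⟩ := cde_surj ((P, b, c), (M, d), v, false)
    refine covk fun m => ?_
    obtain ⟨j, hj, hst, hor⟩ := hω e k (by rw [he]; exact hv) (max m j₀)
    have hty : ty Φ j = false := by
      unfold ty
      rw [hst, he]
      rfl
    have hmN : mN j = (P, b, c) := by unfold mN; rw [hst, he]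
    have hmM : mM j = (M, d) := by unfold mM; rw [hst, he]
    have hPt : Pt Φ j = Φ.A := by
      unfold Pt
      rw [hty, if_neg (by decide)]
    have hnd : ¬ Dif Φ j (hs Φ ω (j + 1)) ω := by
      refine no_dif (A := A) ?_ ?_ (hj₀ j ((le_max_right _ _).trans hj) hty)
      · intro x
        rw [(hP x).2, hmN]
        rfl
      · intro t _
        rw [hmM]
        exact (hM (str t)).2
    refine ⟨j, (le_max_left _ _).trans hj, ?_⟩
    have h1 := hor.resolve_left hnd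
    rw [hPt, hL hmN fun x => (hP x).2] at h1
    unfold al
    simpa using h1
  · intro hoA s hsa
    refine galenull (b := true) ?_ (by unfold al; simpa using hsa)
    rintro A ⟨P, b, c, hP⟩ k
    obtain ⟨v, hv⟩ := hacc k
    obtain ⟨e, he⟩ := cde_surj ((P, b, c), ([], 0), v, true)
    refine covk fun m => ?_
    obtain ⟨j, hj, hst, hor⟩ := hω e k (by rw [he]; exact hv) m
    have hty : ty Φ j = true := by
      unfold ty
      rw [hst, he, hoA]
      rfl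
    have hmN : mN j = (P, b, c) := by unfold mN; rw [hst, he]
    have hPt : Pt Φ j = Φ.B := by
      unfold Pt
      rw [hty, if_pos rfl]
    have hnd : ¬ Dif Φ j (hs Φ ω (j + 1)) ω := by
      rintro ⟨h1, -⟩
      rw [hty] at h1
      exact absurd h1 (by decide)
    refine ⟨j, hj, ?_⟩
    have h1 := hor.resolve_left hnd
    rw [hPt, hL hmN fun x => (hP x).2] at h1
    unfold al
    simpa using h1

end Pool.Agent.RelV
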