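import Pool.Agent.RelV.VIEW

/-!
# Runs of a gambler (the part shared by the jobs NONNULL and NONNULLD)
-/

set_option autoImplicit false

namespace Pool.Agent.RelV

open MeasureTheory Set
open scoped ENNReal
open Pool.Agent.RelM (Lang Instr Cfg step run Halts triple outVal Approx str pre)
open Pool.Agent.RelO (lev IsGale IsGaleCover levmono levfin)
open Pool.Agent.RelS (Z Rl Idx Om Dep meas_of_dep)

namespace VAL_

/-! ### Words -/

theorem pre_length (A : Lang) (n : ℕ) : (pre A n).length = n := by simp [pre]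

theorem pre_succ (A : Lang) (n : ℕ) : pre A (n + 1) = pre A n ++ [A (str n)] := by
  unfold pre
  rw [List.range_succ, List.map_append]
  rfl

theorem triple_length (k r : ℕ) (w : List Bool) :
    (triple k r w).length = k + r + w.length + 2 := by
  simp [triple]; omega

/-- The hidden language. -/
noncomputable def RR (Φ : Par2) (κ : ℕ) (ω : Om) : Lang := Rl (zo Φ ω) κ

/-- The input. -/
noncomputable def inp (Φ : Par2) (κ k r t : ℕ) (e : List Bool) (ω : Om) : List Bool :=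
  triple k r (pre (RR Φ κ ω) t ++ e)

theorem inp_length (Φ : Par2) (κ k r t : ℕ) (e : List Bool) (ω : Om) :
    (inp Φ κ k r t e ω).length = k + r + (t + e.length) + 2 := by
  unfold inp
  rw [triple_length, List.length_append, pre_length]

/-- The value computed. -/
noncomputable def val (Φ : Par2) (κ t : ℕ) (Pr : List Instr) (T : ℕ → ℕ)
    (I : List Bool) (ω : Om) : ℝ :=
  |outVal (run (ov Φ κ t ω) Pr I (T I.length))|

/-! ### Visible coins -/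

theorem bl_mono (Φ : Par2) (κ : ℕ) {s t : ℕ} (h : s ≤ t) : bl Φ κ (str s) ≤ bl Φ κ (str t) :=
  jj_mono Φ (lev_mono κ h)

theorem vs_mono (Φ : Par2) (κ : ℕ) {s t : ℕ} (h : s ≤ t) : vs Φ κ s ≤ vs Φ κ t := by
  have h1 := bl_mono Φ κ h
  have h2 := lev_mono κ h
  unfold vs
  by_cases hs' : Blind Φ κ s
  · rw [if_pos hs']
    split_ifs <;> omega
  · rw [if_neg hs']
    by_cases ht : Blind Φ κ t
    · rw [if_pos ht]
      by_contra hcon
      have h3 : bl Φ κ (str s) = bl Φ κ (str t) := by omega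
      apply hs'
      obtain ⟨e1, e2, e3⟩ := ht
      rw [← h3] at e2 e3
      exact ⟨e1, e2, by omega⟩
    · rw [if_neg ht]
      exact h1

theorem vis_mono (Φ : Par2) (κ : ℕ) {s t : ℕ} (h : s ≤ t) : Vis Φ κ s ⊆ Vis Φ κ t := by
  rintro a ⟨h1, h2⟩
  refine ⟨?_, h2⟩
  rcases h1 with ⟨h3, h4⟩ | ⟨h3, t', ht', h4⟩
  · refine Or.inl ⟨h3.trans_le ((nnmono Φ).monotone (vs_mono Φ κ h)), ?_⟩
    rintro ⟨h5, t', ht', h6⟩
    exact h4 ⟨h5, t', by omega, h6⟩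
  · exact Or.inr ⟨h3, t', by omega, h4⟩

/-- Before the first stage nothing is seen. -/
theorem vs_early {Φ : Par2} {κ s : ℕ} (h : ¬ nn Φ 0 ≤ lev κ (str s)) :
    jj Φ (lev κ (str s)) = 0 ∧ vs Φ κ s = 0 := by
  have h1 : jj Φ (lev κ (str s)) = 0 := by
    have := jj_lt_le (Φ := Φ) (m := lev κ (str s)) (j := 0) (by omega)
    omega
  refine ⟨h1, ?_⟩
  unfold vs bl
  rw [h1]
  split_ifs <;> rfl

/-- The options that matter depend only on the visible coins. -/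
theorem opt_dep (Φ : Par2) (κ : ℕ) {s t : ℕ} (h : s ≤ t) {ω ω' : Om}
    (hω : ∀ a ∈ Vis Φ κ t, ω a = ω' a) : hs Φ ω (vs Φ κ s) = hs Φ ω' (vs Φ κ s) := by
  by_cases h0 : nn Φ 0 ≤ lev κ (str s)
  · exact hs_vis h0 fun a ha => hω a (vis_mono Φ κ h ha)
  · rw [(vs_early h0).2]
    rfl

/-- The option of a pair that was met depends only on the visible coins. -/
theorem oc_own (Φ : Par2) (κ : ℕ) {s t : ℕ} (h : s ≤ t) {ω ω' : Om}
    (hω : ∀ a ∈ Vis Φ κ t, ω a = ω' a) :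
    oc Φ (hf Φ ω).1 κ (lev κ (str s)) = oc Φ (hf Φ ω').1 κ (lev κ (str s)) := by
  by_cases h0 : nn Φ 0 ≤ lev κ (str s)
  · rw [← oc_view h0 le_rfl ω, ← oc_view h0 le_rfl ω', opt_dep Φ κ h hω]
  · unfold oc
    rw [(vs_early h0).1, if_pos rfl, if_pos rfl]

theorem rt_dep (Φ : Par2) (κ : ℕ) {s t : ℕ} (h : s ≤ t) : Dep (Vis Φ κ t) (rt Φ κ s) := by
  intro ω ω' hω
  unfold rt
  rw [opt_dep Φ κ h hω]

theorem bit_dep (Φ : Par2) (κ : ℕ) {s t : ℕ} (h : s < t) :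
    Dep (Vis Φ κ t) fun ω => RR Φ κ ω (str s) := by
  intro ω ω' hω
  have h1 : ∀ y : List Bool, y.length = lev κ (str s) →
      zo Φ ω κ (str s) y = zo Φ ω' κ (str s) y := by
    intro y hy
    show ω (κ, str s, y, oc Φ (hf Φ ω).1 κ (lev κ (str s))) =
      ω' (κ, str s, y, oc Φ (hf Φ ω').1 κ (lev κ (str s)))
    rw [oc_own Φ κ h.le hω]
    exact hω _ ⟨Or.inr ⟨rfl, s, h, rfl⟩, hy,
      (ocspec Φ _ κ (lev κ (str s)) (str s) (gd_hf Φ ω')).1⟩
  show Rl (zo Φ ω) κ (str s) = Rl (zo Φ ω') κ (str s)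
  unfold Rl
  rw [decide_eq_decide]
  refine exists_congr fun y => and_congr_right fun hy => ?_
  rw [h1 y hy]

theorem inp_dep (Φ : Par2) (κ k r t : ℕ) (e : List Bool) : Dep (Vis Φ κ t) (inp Φ κ k r t e) := by
  intro ω ω' hω
  unfold inp
  have h1 : pre (RR Φ κ ω) t = pre (RR Φ κ ω') t := by
    unfold pre
    refine List.map_congr_left fun i hi => ?_
    exact bit_dep Φ κ (List.mem_range.mp hi) ω ω' hω
  rw [h1]

theorem val_dep (Φ : Par2) (κ t : ℕ) (h0 : nn Φ 0 ≤ lev κ (str t)) (Pr : List Instr) (T : ℕ → ℕ)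
    (k r : ℕ) (e : List Bool) :
    Dep (Vis Φ κ t) fun ω => val Φ κ t Pr T (inp Φ κ k r t e ω) ω := by
  intro ω ω' hω
  show val Φ κ t Pr T (inp Φ κ k r t e ω) ω = val Φ κ t Pr T (inp Φ κ k r t e ω') ω'
  unfold val
  rw [ov_dep h0 hω, inp_dep Φ κ k r t e ω ω' hω]

/-! ### Hits -/

/-- The event that hiding changes a run. -/
def Hit (Φ : Par2) (κ : ℕ) (Pr : List Instr) (T : ℕ → ℕ) (k r t : ℕ) (e : List Bool) : Set Om :=
  {ω | ∃ s ≤ T (inp Φ κ k r t e ω).length,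
      run (oo Φ ω) Pr (inp Φ κ k r t e ω) s ≠ run (ov Φ κ t ω) Pr (inp Φ κ k r t e ω) s}

/-- The effective level is a lower bound. -/
theorem me_le {Φ : Par2} {κ t : ℕ} (h0 : nn Φ 0 ≤ lev κ (str t)) : me κ t ≤ le Φ κ t := by
  obtain ⟨J, _, _, _, h | h⟩ := view h0
  · obtain ⟨h1, _, h3, _, h5⟩ := h
    rw [h5]
    unfold me
    rw [if_neg (by omega)]
    have h6 := nnsq Φ J
    have h7 : Nat.sqrt (lev κ (str t)) < nn Φ J := by
      rw [Nat.sqrt_lt']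
      omega
    exact h7.le
  · rw [h.2.2]
    unfold me
    split_ifs
    · exact le_rfl
    · exact Nat.sqrt_le_self _

theorem hit_bound (hHIT : T_HIT) (Φ : Par2) (κ : ℕ) (Pr : List Instr) (T : ℕ → ℕ)
    (c k r t : ℕ) (e : List Bool) (h0 : nn Φ 0 ≤ lev κ (str t))
    (hB : ∀ l, l ≤ c * (t + 1) →
      l + T l < 2 ^ me κ t ∧ 4 * (t + 1) ^ 2 * T l ≤ 2 ^ (me κ t / 2))
    (hlen : k + r + (t + e.length) + 2 ≤ c * (t + 1)) :
    coin Φ (Hit Φ κ Pr T k r t e) ≤ ENNReal.ofReal (1 / ((t : ℝ) + 1) ^ 2) := by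
  obtain ⟨l, hl⟩ : ∃ l : ℕ, l = k + r + (t + e.length) + 2 := ⟨_, rfl⟩
  have hlenI : ∀ ω, (inp Φ κ k r t e ω).length = l := fun ω => by
    rw [hl]
    exact inp_length Φ κ k r t e ω
  obtain ⟨hB1, hB2⟩ := hB l (by omega)
  have hme := me_le (Φ := Φ) h0
  have hhit := hHIT Φ κ t Pr (inp Φ κ k r t e) (T l) h0 (inp_dep Φ κ k r t e)
    (fun ω => by
      rw [hlenI]
      exact hB1.trans_le (Nat.pow_le_pow_right (by norm_num) hme))
  unfold Hit
  simp only [hlenI]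
  refine hhit.trans ?_
  obtain ⟨L, hL⟩ : ∃ L : ℕ, L = le Φ κ t / 2 := ⟨_, rfl⟩
  rw [← hL]
  have hB3 : 4 * (t + 1) ^ 2 * T l ≤ 2 ^ L :=
    hB2.trans (Nat.pow_le_pow_right (by norm_num) (by rw [hL]; exact Nat.div_le_div_right hme))
  have h3 : (T l : ℝ≥0∞) * (2⁻¹ : ℝ≥0∞) ^ L = ENNReal.ofReal ((T l : ℝ) * (1 / 2) ^ L) := by
    rw [ENNReal.ofReal_mul (by positivity), ENNReal.ofReal_pow (by positivity)]
    congr 1
    · simp
    · congr 1
      rw [one_div, ENNReal.ofReal_inv_of_pos (by norm_num)]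
      simp
  rw [h3]
  apply ENNReal.ofReal_le_ofReal
  have h4 : (4 : ℝ) * ((t : ℝ) + 1) ^ 2 * (T l : ℝ) ≤ 2 ^ L := by exact_mod_cast hB3
  have h5 : (0 : ℝ) < ((t : ℝ) + 1) ^ 2 := by positivity
  rw [le_div_iff₀ h5, one_div_pow]
  have h6 : (0 : ℝ) < 2 ^ L := by positivity
  have h7 : (T l : ℝ) * (1 / 2 ^ L) * ((t : ℝ) + 1) ^ 2 =
      ((T l : ℝ) * ((t : ℝ) + 1) ^ 2) / 2 ^ L := by ring
  rw [h7, div_le_one h6]
  nlinarith [mul_nonneg (by positivity : (0 : ℝ) ≤ T l) h5.le]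

theorem val_close {Φ : Par2} {κ : ℕ} {Pr : List Instr} {T : ℕ → ℕ} {ω : Om}
    {d : ℕ → List Bool → ℝ} (hd : ∀ k w, 0 ≤ d k w) (hA : Approx (oo Φ ω) Pr T d)
    (k r t : ℕ) (e : List Bool) (hh : ω ∉ Hit Φ κ Pr T k r t e) :
    |val Φ κ t Pr T (inp Φ κ k r t e ω) ω - d k (pre (RR Φ κ ω) t ++ e)| ≤ (1 / 2 : ℝ) ^ r := by
  have h1 : run (oo Φ ω) Pr (inp Φ κ k r t e ω) (T (inp Φ κ k r t e ω).length) =
      run (ov Φ κ t ω) Pr (inp Φ κ k r t e ω) (T (inp Φ κ k r t e ω).length) := by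
    by_contra hne
    exact hh ⟨_, le_rfl, hne⟩
  have h3 : |outVal (run (oo Φ ω) Pr (inp Φ κ k r t e ω)
      (T (inp Φ κ k r t e ω).length)) - d k (pre (RR Φ κ ω) t ++ e)|
      ≤ (1 / 2 : ℝ) ^ r := (hA k r (pre (RR Φ κ ω) t ++ e)).2
  rw [h1] at h3
  have h4 : 0 ≤ d k (pre (RR Φ κ ω) t ++ e) := hd k _
  unfold val
  have h5 := abs_abs_sub_abs_le (outVal (run (ov Φ κ t ω) Pr (inp Φ κ k r t e ω)
    (T (inp Φ κ k r t e ω).length))) (d k (pre (RR Φ κ ω) t ++ e))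
  rw [abs_of_nonneg h4] at h5
  exact h5.trans h3

/-- The late words have late keys. -/
theorem start (Φ : Par2) (κ : ℕ) : ∀ t, 2 ^ nn Φ 0 ≤ t → nn Φ 0 ≤ lev κ (str t) := by
  intro t ht
  have h2 := (levfin κ (str t) _ le_rfl).2
  rw [Pool.Agent.RelM.strlen] at h2
  refine le_trans ?_ h2
  rw [Nat.le_log_iff_pow_le (by norm_num) (by omega)]
  omega

/-- The bounds for the hits are summable. -/
theorem hitsum : ∑' t : ℕ, ENNReal.ofReal (1 / ((t : ℝ) + 1) ^ 2) ≠ ∞ := by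
  have h1 : Summable (fun t : ℕ => 1 / ((t : ℝ) + 1) ^ 2) := by
    have := (summable_nat_add_iff 1).mpr (Real.summable_one_div_nat_pow.mpr (by norm_num : 1 < 2))
    simpa using this
  rw [← ENNReal.ofReal_tsum_of_nonneg (fun t => by positivity) h1]
  exact ENNReal.ofReal_ne_top

end VAL_

end Pool.Agent.RelV
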